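import Pool.Agent.T9h75.WX.Run
import Pool.Agent.T9h75.WH.Chain

set_option autoImplicit false
set_option linter.unusedSectionVars false

namespace Pool.Agent.T9h75.WX

open Finset Pool.Agent.T9h16
open Pool.Agent.T9h75.WH (Emb)
open scoped Classical

section
variable {α β ι E : Type}

/-- One step of the chain: some negative input of block `b` changes the value of a NOT gate. -/
theorem block_step {δ : ℕ} {T : Set E → Prop} {Acc : (β → Prop) → Prop} (C : Circuit α β)
    (hw : C.Width δ) (hhard : Hard δ T C.size Acc) (M : Emb α ι E)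
    (hout : ∀ y, Acc (C.eval (M.X y)) ↔ ∃ i, T (y i))
    (y : ι → Set E) (hy : ∀ i, ¬ T (y i)) (b : ι) (hb : y b = ∅) :
    ∃ z, ¬ T z ∧ ∃ i, ∃ hi : i < C.gates.length, (C.gates[i]).isNot = true ∧
      ¬ (gval C.gates (M.X y) i ↔ gval C.gates (M.X (Function.update y b z)) i) := by
  by_contra hcon
  have hsame : ∀ z, ¬ T z → ∀ i (hi : i < C.gates.length), (C.gates[i]).isNot = true →
      (gval C.gates (M.X y) i ↔ gval C.gates (M.X (Function.update y b z)) i) := by
    intro z hz i hi hn
    by_contra h
    exact hcon ⟨z, hz, i, hi, hn, h⟩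
  obtain ⟨X, hXdef⟩ : ∃ X : Set E → α → Prop, X = fun z => M.X (Function.update y b z) := ⟨_, rfl⟩
  have hX : ∀ a, Leaf fun z => X z a := fun a => by rw [hXdef]; exact M.leaf_update y b a
  obtain ⟨c, hc⟩ : ∃ c : ℕ → Prop, c = gval C.gates (M.X y) := ⟨_, rfl⟩
  obtain ⟨fr, hfr⟩ : ∃ fr : Set E → ℕ → Prop, fr = fun z => gval (freeze C.gates c) (X z) :=
    ⟨_, rfl⟩
  have hfrm : ∀ z i (hi : i < C.gates.length), (C.gates[i]).isNot = false →
      (fr z i ↔ (C.gates[i]).val (X z) (fr z) i) := by
    intro z i hi hn
    rw [hfr]
    exact freeze_mono C.gates c (X z) i hi hn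
  have hfrn : ∀ z i (hi : i < C.gates.length), (C.gates[i]).isNot = true → (fr z i ↔ c i) := by
    intro z i hi hn
    rw [hfr]
    exact freeze_not C.gates c (X z) i hi hn
  have hsame' : ∀ z, ¬ T z → ∀ i (hi : i < C.gates.length), (C.gates[i]).isNot = true →
      (c i ↔ gval C.gates (X z) i) := by
    intro z hz i hi hn
    rw [hc, hXdef]
    exact hsame z hz i hi hn
  -- agreement on negative inputs
  have hagree_neg : ∀ z, ¬ T z → ∀ i < C.gates.length, (fr z i ↔ gval C.gates (X z) i) := by
    intro z hz i
    induction i using Nat.strong_induction_on with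
    | _ i ih =>
      intro hi
      have hc' : ∀ k < i, (fr z k ↔ gval C.gates (X z) k) := fun k hk => ih k hk (by omega)
      by_cases hn : (C.gates[i]).isNot = true
      · rw [hfrn z i hi hn]
        exact hsame' z hz i hi hn
      · have hn' : (C.gates[i]).isNot = false := by simpa using hn
        rw [hfrm z i hi hn', gval_iff C.gates (X z) i hi]
        exact Gate.val_congr hc' _
  obtain ⟨xw, hxw⟩ : ∃ xw : ℕ → Set E → Prop, xw = fun i z =>
    ∃ (hi : i < C.gates.length) (u : Wire α), C.gates[i] = .not u ∧ c i ∧ u.val (X z) (fr z) i :=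
    ⟨_, rfl⟩
  have hslp := slp_freeze (gs := C.gates) hw hX c
  have hav : ∀ (i : ℕ) (w : Wire α), Avail (fun k z => fr z k) i
      (fun z => w.val (X z) (fr z) i) := by
    intro i w
    rw [hfr]
    exact avail_wire hX i w
  refine hhard (fun k z => fr z k) (by rw [hfr]; exact hslp)
    (fun o z => (C.out o).val (X z) (fr z) C.size) ?_ xw ?_ ?_ ?_
  · intro o
    exact hav C.size (C.out o)
  · intro i hi
    have hi' : i < C.gates.length := hi
    by_cases h1 : ∃ u, C.gates[i] = .not u ∧ c i
    · obtain ⟨u, hu, hci⟩ := h1
      have h2 : ∀ z, xw i z ↔ u.val (X z) (fr z) i := by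
        intro z
        rw [hxw]
        constructor
        · rintro ⟨_hi, u', hu', _, h⟩
          rw [hu] at hu'
          have : u = u' := by injection hu'
          rw [this]
          exact h
        · intro h
          exact ⟨hi', u, hu, hci, h⟩
      rcases hav i u with h | ⟨j, hj, h⟩
      · left
        rcases h with ⟨e, he⟩ | ⟨t, ht⟩
        · exact Or.inl ⟨e, fun z => (h2 z).trans (he z)⟩
        · exact Or.inr ⟨t, fun z => (h2 z).trans (ht z)⟩
      · exact Or.inr ⟨j, by omega, fun z => (h2 z).trans (h z)⟩
    · refine Or.inl (Or.inr ⟨False, fun z => ⟨?_, fun h => h.elim⟩⟩)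
      rw [hxw]
      rintro ⟨_hi, u, hu, hci, _⟩
      exact h1 ⟨u, hu, hci⟩
  · intro z hz
    by_contra hno
    rw [not_or] at hno
    obtain ⟨hacc, hx⟩ := hno
    push Not at hx
    have hXm : ∀ a, M.X y a → X z a := by rw [hXdef]; exact M.mono_update hb z
    have hagree : ∀ i < C.gates.length, (fr z i ↔ gval C.gates (X z) i) ∧
        (c i → gval C.gates (X z) i) := by
      intro i
      induction i using Nat.strong_induction_on with
      | _ i ih =>
        intro hi
        have hc' : ∀ k < i, (fr z k ↔ gval C.gates (X z) k) := fun k hk => (ih k hk (by omega)).1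
        have hm' : ∀ k < i, c k → gval C.gates (X z) k := fun k hk => (ih k hk (by omega)).2
        have hci : c i ↔ (C.gates[i]).val (M.X y) c i := by
          rw [hc]
          exact gval_iff C.gates (M.X y) i hi
        have hgi := gval_iff C.gates (X z) i hi
        by_cases hn : (C.gates[i]).isNot = true
        · obtain ⟨u, hu⟩ := isNot_eq hn
          have h1 := hfrn z i hi hn
          rw [hu] at hci hgi
          have hl := Wire.val_congr (x := X z) hc' u
          by_cases hcv : c i
          · have h2 : ¬ u.val (X z) (fr z) i := by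
              intro huv
              apply hx i hi
              rw [hxw]
              exact ⟨hi, u, hu, hcv, huv⟩
            have h3 : gval C.gates (X z) i := hgi.2 (fun h => h2 (hl.2 h))
            exact ⟨⟨fun _ => h3, fun _ => h1.2 hcv⟩, fun _ => h3⟩
          · have h2 : u.val (M.X y) c i := by
              by_contra h
              exact hcv (hci.2 h)
            have h3 := Wire.val_mono hXm hm' u h2
            exact ⟨⟨fun h => (hcv (h1.1 h)).elim, fun h => ((hgi.1 h) h3).elim⟩,
              fun h => (hcv h).elim⟩
        · have hn' : (C.gates[i]).isNot = false := by simpa using hn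
          have h1 := hfrm z i hi hn'
          refine ⟨(h1.trans (Gate.val_congr hc' _)).trans hgi.symm, fun h => ?_⟩
          exact hgi.2 (Gate.val_mono hXm hm' _ hn' (hci.1 h))
    have hT := (hout (Function.update y b z)).2 ⟨b, by rw [Function.update_self]; exact hz⟩
    apply hacc
    have he : (fun o => (C.out o).val (X z) (fr z) C.size) = C.eval (X z) := by
      funext o
      apply propext
      rw [Circuit.eval_iff]
      exact Wire.val_congr (fun k hk => (hagree k hk).1) _
    rw [he, hXdef]
    exact hT
  · intro z hz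
    refine ⟨fun hacc => ?_, fun i hi hx => ?_⟩
    · have he : (fun o => (C.out o).val (X z) (fr z) C.size) = C.eval (X z) := by
        funext o
        apply propext
        rw [Circuit.eval_iff]
        exact Wire.val_congr (fun k hk => hagree_neg z hz k hk) _
      rw [he, hXdef] at hacc
      obtain ⟨i, hi⟩ := (hout (Function.update y b z)).1 hacc
      by_cases hib : i = b
      · subst hib
        rw [Function.update_self] at hi
        exact hz hi
      · rw [Function.update_of_ne hib] at hi
        exact hy i hi
    · rw [hxw] at hx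
      obtain ⟨hi', u, hu, hci, huv⟩ := hx
      have h1 := (hsame' z hz i hi' (by rw [hu]; rfl)).1 hci
      rw [gval_iff C.gates (X z) i hi', hu] at h1
      apply h1
      exact (Wire.val_congr (fun k hk => hagree_neg z hz k (by omega)) u).1 huv

theorem countP_eq_card (gs : List (Gate α)) :
    gs.countP Gate.isNot =
      ((range gs.length).filter fun i => ∃ g, gs[i]? = some g ∧ g.isNot = true).card := by
  induction gs using List.reverseRecOn with
  | nil => simp
  | append_singleton gs g ih =>
    rw [List.countP_append, ih, List.length_append, List.length_singleton, Finset.range_add_one,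
      Finset.filter_insert]
    have h1 : ((range gs.length).filter fun i =>
        ∃ g', (gs ++ [g])[i]? = some g' ∧ g'.isNot = true) =
        ((range gs.length).filter fun i => ∃ g, gs[i]? = some g ∧ g.isNot = true) := by
      apply Finset.filter_congr
      intro i hi
      rw [mem_range] at hi
      rw [List.getElem?_append_left hi]
    rw [h1]
    have h2 : (∃ g', (gs ++ [g])[gs.length]? = some g' ∧ g'.isNot = true) ↔ g.isNot = true := by
      simp
    by_cases hg : g.isNot = true
    · rw [if_pos (h2.2 hg), card_insert_of_notMem (by simp), List.countP_singleton, if_pos hg]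
    · rw [if_neg (fun h => hg (h2.1 h)), List.countP_singleton, if_neg hg, Nat.add_zero]

/-- A chain of negative inputs in which every block is filled at one step. -/
theorem exists_chain [Fintype ι] {T : Set E → Prop} (hT0 : ¬ T ∅)
    (R : (ι → Set E) → (ι → Set E) → Prop)
    (hstep : ∀ (y : ι → Set E) (b : ι), (∀ i, ¬ T (y i)) → y b = ∅ →
      ∃ z, ¬ T z ∧ R y (Function.update y b z)) :
    ∃ Y : ℕ → (ι → Set E), (∀ k < Fintype.card ι, R (Y k) (Y (k + 1))) ∧
      ∀ k k', k ≤ k' → k' ≤ Fintype.card ι → ∀ i, Y k i ⊆ Y k' i := by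
  have hstep' : ∀ (y : ι → Set E) (b : ι), ∃ z, (∀ i, ¬ T (y i)) → y b = ∅ →
      ¬ T z ∧ R y (Function.update y b z) := by
    intro y b
    by_cases h : (∀ i, ¬ T (y i)) ∧ y b = ∅
    · obtain ⟨z, hz⟩ := hstep y b h.1 h.2
      exact ⟨z, fun _ _ => hz⟩
    · exact ⟨∅, fun h1 h2 => (h ⟨h1, h2⟩).elim⟩
  choose f hf using hstep'
  obtain ⟨m, hm⟩ : ∃ m, m = Fintype.card ι := ⟨_, rfl⟩
  rw [← hm]
  have e : Fin m ≃ ι := by rw [hm]; exact (Fintype.equivFin ι).symm
  obtain ⟨st, hst⟩ : ∃ st : ℕ → (ι → Set E) → (ι → Set E), ∀ k y, (h : k < m) →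
      st k y = Function.update y (e ⟨k, h⟩) (f y (e ⟨k, h⟩)) :=
    ⟨fun k y => if h : k < m then Function.update y (e ⟨k, h⟩) (f y (e ⟨k, h⟩)) else y,
      fun k y h => dif_pos h⟩
  obtain ⟨Y, hY0, hYst⟩ : ∃ Y : ℕ → (ι → Set E), (Y 0 = fun _ => ∅) ∧
      ∀ k, Y (k + 1) = st k (Y k) :=
    ⟨fun k => Nat.rec (fun _ => ∅) (fun k y => st k y) k, rfl, fun k => rfl⟩
  have hYs : ∀ k, (h : k < m) → Y (k + 1) =
      Function.update (Y k) (e ⟨k, h⟩) (f (Y k) (e ⟨k, h⟩)) := fun k h => by
    rw [hYst k, hst k (Y k) h]
  have hinv : ∀ k ≤ m, (∀ i, ¬ T (Y k i)) ∧ ∀ i : Fin m, k ≤ i.val → Y k (e i) = ∅ := by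
    intro k
    induction k with
    | zero =>
      intro _
      rw [hY0]
      exact ⟨fun i => hT0, fun _ _ => rfl⟩
    | succ k ih =>
      intro hk
      obtain ⟨h1, h2⟩ := ih (by omega)
      have hk' : k < m := by omega
      rw [hYs k hk']
      refine ⟨fun i => ?_, fun i hi => ?_⟩
      · by_cases hib : i = e ⟨k, hk'⟩
        · subst hib
          rw [Function.update_self]
          exact (hf (Y k) (e ⟨k, hk'⟩) h1 (h2 _ le_rfl)).1
        · rw [Function.update_of_ne hib]
          exact h1 i
      · rw [Function.update_of_ne]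
        · exact h2 i (by omega)
        · intro h
          have := e.injective h
          rw [this] at hi
          simp at hi
  have hsucc : ∀ k, k < m → ∀ i, Y k i ⊆ Y (k + 1) i := by
    intro k hk i
    rw [hYs k hk]
    by_cases hib : i = e ⟨k, hk⟩
    · subst hib
      rw [(hinv k (by omega)).2 ⟨k, hk⟩ le_rfl]
      exact Set.empty_subset _
    · rw [Function.update_of_ne hib]
  refine ⟨Y, ?_, ?_⟩
  · intro k hk
    obtain ⟨h1, h2⟩ := hinv k (by omega)
    rw [hYs k hk]
    exact (hf (Y k) (e ⟨k, hk⟩) h1 (h2 _ le_rfl)).2
  · intro k k' hkk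
    induction k', hkk using Nat.le_induction with
    | base => intro _ i; exact subset_rfl
    | succ k' _ ih =>
      intro hk' i
      exact (ih (by omega) i).trans (hsucc k' (by omega) i)

/-- The counting theorem: a circuit which decides (with the acceptance condition `Acc`) whether one
of the blocks is a yes-instance of a hard block problem has at least `log₂ (M + 1)` NOT gates, where
`M` is the number of blocks. -/
theorem chain_count [Fintype ι] {δ : ℕ} {T : Set E → Prop} (hT0 : ¬ T ∅)
    {Acc : (β → Prop) → Prop} (C : Circuit α β) (hw : C.Width δ) (hhard : Hard δ T C.size Acc)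
    (M : Emb α ι E) (hout : ∀ y, Acc (C.eval (M.X y)) ↔ ∃ i, T (y i)) :
    Fintype.card ι + 1 ≤ 2 ^ C.nots := by
  obtain ⟨Y, hdiff, hle⟩ := exists_chain (ι := ι) hT0
    (fun y y' => ∃ i, ∃ hi : i < C.gates.length, (C.gates[i]).isNot = true ∧
      ¬ (gval C.gates (M.X y) i ↔ gval C.gates (M.X y') i))
    (fun y b h1 h2 => block_step C hw hhard M hout y h1 b h2)
  obtain ⟨m, hm⟩ : ∃ m, m = Fintype.card ι := ⟨_, rfl⟩
  rw [← hm] at hdiff hle ⊢
  -- labels
  obtain ⟨N, hN⟩ : ∃ N : Finset ℕ, N = (range C.gates.length).filter fun i =>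
    ∃ g, C.gates[i]? = some g ∧ g.isNot = true := ⟨_, rfl⟩
  have hNc : N.card = C.nots := by
    rw [hN, Circuit.nots, countP_eq_card]
  obtain ⟨lab, hlab⟩ : ∃ lab : Fin (m + 1) → Finset ℕ, lab = fun k =>
    N.filter fun i => gval C.gates (M.X (Y k.val)) i := ⟨_, rfl⟩
  have hinj : Function.Injective lab := by
    have hmain : ∀ k k' : Fin (m + 1), k.val < k'.val → lab k ≠ lab k' := by
      intro k k' hkk heq
      have hk'm : k'.val ≤ m := by have := k'.isLt; omega
      have x1 := M.mono _ _ (hle k.val (k.val + 1) (by omega) (by omega))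
      have x2 := M.mono _ _ (hle (k.val + 1) k'.val (by omega) hk'm)
      have hall : ∀ i < C.gates.length,
          (gval C.gates (M.X (Y k.val)) i → gval C.gates (M.X (Y (k.val + 1))) i) ∧
          (gval C.gates (M.X (Y (k.val + 1))) i → gval C.gates (M.X (Y k'.val)) i) ∧
          ((∃ g, C.gates[i]? = some g ∧ g.isNot = true) →
            (gval C.gates (M.X (Y (k.val + 1))) i → gval C.gates (M.X (Y k.val)) i)) := by
        intro i
        induction i using Nat.strong_induction_on with
        | _ i ih =>
          intro hi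
          have m1 : ∀ j < i, gval C.gates (M.X (Y k.val)) j →
              gval C.gates (M.X (Y (k.val + 1))) j := fun j hj => (ih j hj (by omega)).1
          have m2 : ∀ j < i, gval C.gates (M.X (Y (k.val + 1))) j →
              gval C.gates (M.X (Y k'.val)) j := fun j hj => (ih j hj (by omega)).2.1
          have g0 := gval_iff C.gates (M.X (Y k.val)) i hi
          have g1 := gval_iff C.gates (M.X (Y (k.val + 1))) i hi
          have g2 := gval_iff C.gates (M.X (Y k'.val)) i hi
          by_cases hn : (C.gates[i]).isNot = true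
          · obtain ⟨u, hu⟩ := isNot_eq hn
            rw [hu] at g0 g1 g2
            have a1 : gval C.gates (M.X (Y (k.val + 1))) i → gval C.gates (M.X (Y k.val)) i :=
              fun h => g0.2 fun h' => (g1.1 h) (Wire.val_mono x1 m1 u h')
            have a2 : gval C.gates (M.X (Y k'.val)) i → gval C.gates (M.X (Y (k.val + 1))) i :=
              fun h => g1.2 fun h' => (g2.1 h) (Wire.val_mono x2 m2 u h')
            have hiN : i ∈ N := by
              rw [hN, mem_filter, mem_range]
              exact ⟨hi, _, List.getElem?_eq_getElem hi, hn⟩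
            have a3 : gval C.gates (M.X (Y k.val)) i → gval C.gates (M.X (Y k'.val)) i := by
              intro h
              have : i ∈ lab k := by
                rw [hlab]
                exact mem_filter.2 ⟨hiN, h⟩
              rw [heq, hlab] at this
              exact (mem_filter.1 this).2
            exact ⟨fun h => a2 (a3 h), fun h => a3 (a1 h), fun _ => a1⟩
          · have hn' : (C.gates[i]).isNot = false := by simpa using hn
            refine ⟨fun h => g1.2 (Gate.val_mono x1 m1 _ hn' (g0.1 h)),
              fun h => g2.2 (Gate.val_mono x2 m2 _ hn' (g1.1 h)), ?_⟩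
            rintro ⟨g, hg, hgn⟩
            rw [List.getElem?_eq_getElem hi] at hg
            have := Option.some.inj hg
            rw [this] at hn
            exact absurd hgn hn
      obtain ⟨i, hi, hn, hne⟩ := hdiff k.val (by omega)
      obtain ⟨b1, -, b3⟩ := hall i hi
      exact hne ⟨b1, b3 ⟨_, List.getElem?_eq_getElem hi, hn⟩⟩
    intro k k' heq
    rcases lt_trichotomy k.val k'.val with h | h | h
    · exact (hmain k k' h heq).elim
    · exact Fin.ext h
    · exact (hmain k' k h heq.symm).elim
  have hc := card_le_card_of_injOn (s := (univ : Finset (Fin (m + 1)))) (t := N.powerset) lab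
    (fun k _ => by
      rw [mem_coe, mem_powerset, hlab]
      exact filter_subset _ _) (fun k _ k' _ h => hinj h)
  rw [card_univ, Fintype.card_fin, card_powerset, hNc] at hc
  exact hc

/-- The counting theorem for monotone circuits which may also read `τ` arbitrary antitone functions
of the input. -/
theorem oracle_count [Fintype ι] {δ τ : ℕ} {T : Set E → Prop} (hT0 : ¬ T ∅)
    {Acc : (β → Prop) → Prop} (hAcc : ∀ v v' : β → Prop, (∀ b, v b → v' b) → Acc v → Acc v')
    (O : Fin τ → (α → Prop) → Prop) (hO : ∀ j x x', (∀ a, x a → x' a) → O j x' → O j x)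
    (C : Circuit (α ⊕ Fin τ) β) (hw : C.Width δ) (hmono : C.nots = 0)
    (hhard : Hard δ T C.size Acc) (M : Emb α ι E)
    (hout : ∀ y, Acc (C.eval (Sum.elim (M.X y) fun j => O j (M.X y))) ↔ ∃ i, T (y i)) :
    Fintype.card ι ≤ τ := by
  have hnn : ∀ i (hi : i < C.gates.length), (C.gates[i]).isNot = false := by
    intro i hi
    have h1 := List.countP_eq_zero.1 hmono _ (List.getElem_mem hi)
    simpa using h1
  -- the outputs are monotone in all variables
  have hCm : ∀ x x' : α ⊕ Fin τ → Prop, (∀ a, x a → x' a) → ∀ b, C.eval x b → C.eval x' b := by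
    intro x x' hx b
    have hall : ∀ i < C.gates.length, gval C.gates x i → gval C.gates x' i := by
      intro i
      induction i using Nat.strong_induction_on with
      | _ i ih =>
        intro hi
        rw [gval_iff C.gates x i hi, gval_iff C.gates x' i hi]
        exact Gate.val_mono hx (fun k hk => ih k hk (by omega)) _ (hnn i hi)
    rw [Circuit.eval_iff, Circuit.eval_iff]
    exact Wire.val_mono hx (fun k hk => hall k hk) _
  obtain ⟨Y, hdiff, hle⟩ := exists_chain (ι := ι) hT0
    (fun y y' => ∃ j, ¬ (O j (M.X y) ↔ O j (M.X y'))) (by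
    intro y b hy hb
    by_contra hcon
    have hsame : ∀ z, ¬ T z → ∀ j, O j (M.X y) ↔ O j (M.X (Function.update y b z)) := by
      intro z hz j
      by_contra h
      exact hcon ⟨z, hz, j, h⟩
    obtain ⟨X, hXdef⟩ : ∃ X : Set E → α ⊕ Fin τ → Prop,
      X = fun z => Sum.elim (M.X (Function.update y b z)) fun j => O j (M.X y) := ⟨_, rfl⟩
    have hX : ∀ a, Leaf fun z => X z a := by
      intro a
      rw [hXdef]
      rcases a with a | j
      · exact M.leaf_update y b a
      · exact Or.inr ⟨O j (M.X y), fun _ => Iff.rfl⟩
    have hfr : ∀ z i, i < C.gates.length →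
        (gval (freeze C.gates fun _ => True) (X z) i ↔ gval C.gates (X z) i) := by
      intro z i
      induction i using Nat.strong_induction_on with
      | _ i ih =>
        intro hi
        rw [freeze_mono _ _ _ i hi (hnn i hi), gval_iff C.gates (X z) i hi]
        exact Gate.val_congr (fun k hk => ih k hk (by omega)) _
    have hev : ∀ z, (fun o => (C.out o).val (X z)
        (gval (freeze C.gates fun _ => True) (X z)) C.size) = C.eval (X z) := by
      intro z
      funext o
      apply propext
      rw [Circuit.eval_iff]
      exact Wire.val_congr (fun k hk => hfr z k hk) _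
    refine hhard (fun k z => gval (freeze C.gates fun _ => True) (X z) k)
      (slp_freeze (gs := C.gates) hw hX _)
      (fun o z => (C.out o).val (X z) (gval (freeze C.gates fun _ => True) (X z)) C.size)
      (fun o => avail_wire hX C.size (C.out o)) (fun _ _ => False)
      (fun i _ => Or.inl (Or.inr ⟨False, fun _ => Iff.rfl⟩)) ?_ ?_
    · intro z hz
      left
      rw [hev z]
      have hT := (hout (Function.update y b z)).2 ⟨b, by rw [Function.update_self]; exact hz⟩
      refine hAcc _ _ (hCm _ _ ?_) hT
      rw [hXdef]
      rintro (a | j)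
      · exact fun h => h
      · exact fun h => hO j _ _ (M.mono_update hb z) h
    · intro z hz
      refine ⟨fun hacc => ?_, fun _ _ h => h⟩
      rw [hev z] at hacc
      have he : X z = Sum.elim (M.X (Function.update y b z))
          fun j => O j (M.X (Function.update y b z)) := by
        rw [hXdef]
        funext a
        rcases a with a | j
        · rfl
        · exact propext (hsame z hz j)
      rw [he] at hacc
      obtain ⟨i, hi⟩ := (hout (Function.update y b z)).1 hacc
      by_cases hib : i = b
      · subst hib
        rw [Function.update_self] at hi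
        exact hz hi
      · rw [Function.update_of_ne hib] at hi
        exact hy i hi)
  -- every step switches off an oracle
  have hoff : ∀ k < Fintype.card ι, ∃ j, O j (M.X (Y k)) ∧ ¬ O j (M.X (Y (k + 1))) := by
    intro k hk
    obtain ⟨j, hj⟩ := hdiff k hk
    have h1 := hO j _ _ (M.mono _ _ (hle k (k + 1) (by omega) (by omega)))
    refine ⟨j, ?_, ?_⟩
    · by_contra h
      exact hj ⟨fun h' => absurd h' h, h1⟩
    · intro h
      exact hj ⟨fun _ => h, h1⟩
  choose J hJ using hoff
  have hcard : Fintype.card (Fin (Fintype.card ι)) ≤ Fintype.card (Fin τ) := by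
    apply Fintype.card_le_of_injective (fun k : Fin (Fintype.card ι) => J k.val k.isLt)
    intro k k' heq
    have hmain : ∀ k k' : Fin (Fintype.card ι), k.val < k'.val →
        J k.val k.isLt ≠ J k'.val k'.isLt := by
      intro k k' hkk heq
      have h1 := (hJ k.val k.isLt).2
      have h2 := (hJ k'.val k'.isLt).1
      rw [← heq] at h2
      exact h1 (hO _ _ _ (M.mono _ _ (hle (k.val + 1) k'.val (by omega) (by omega))) h2)
    rcases lt_trichotomy k.val k'.val with h | h | h
    · exact (hmain k k' h heq).elim
    · exact Fin.ext h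
    · exact (hmain k' k h heq.symm).elim
  rwa [Fintype.card_fin, Fintype.card_fin] at hcard

end

end Pool.Agent.T9h75.WX
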