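import Pool.Agent.T9h75.WT.Sys

set_option autoImplicit false
set_option linter.unusedSectionVars false

namespace Pool.Agent.T9h75.WX

open Finset Pool.Agent.T9h16 Pool.Agent.T9h75.WT
open scoped Classical

/-- A monotone straight-line program with `s` gates, each of which is an AND of ORs or an OR of ANDs
of at most `h` available functions (any number of them). -/
def IsMSLP {E : Type} (h : ℕ) (g : ℕ → Set E → Prop) (s : ℕ) : Prop :=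
  ∀ i < s, ∃ 𝔘 : Set (Finset (Set E → Prop)), (∀ U ∈ 𝔘, U.card ≤ h ∧ ∀ p ∈ U, Avail g i p) ∧
    ((∀ z, g i z ↔ ∀ U ∈ 𝔘, ∃ p ∈ U, p z) ∨ (∀ z, g i z ↔ ∃ U ∈ 𝔘, ∀ p ∈ U, p z))

variable {E P Q : Type} {S : Sys E P Q} [Fintype P] [Fintype Q]

/-- One gate: an AND of ORs. -/
theorem appr_cnf {h κP κN : ℕ}
    (hP : ∀ 𝒞 : Set (Finset E), (∀ F ∈ 𝒞, ∃ 𝒯 : Finset (Finset E), 𝒯.card ≤ h ∧
        (∀ F' ∈ 𝒯, S.FOK F') ∧ ∀ e, e ∈ F ↔ ∃ F' ∈ 𝒯, e ∈ F') →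
      (univ.filter (S.BadP 𝒞)).card * κP ≤ Fintype.card P)
    (hN : ∀ 𝒲 : Set (Finset E), (∀ W ∈ 𝒲, S.WOK W) →
      (univ.filter (S.BadN 𝒲)).card * κN ≤ Fintype.card Q)
    {PE : Finset P} {NE : Finset Q} (𝔘 : Set (Finset (Set E → Prop)))
    (hU : ∀ U ∈ 𝔘, U.card ≤ h ∧ ∀ p ∈ U, S.Appr PE NE p) :
    ∃ (D : Finset P) (D' : Finset Q), D.card * κP ≤ Fintype.card P ∧
      D'.card * κN ≤ Fintype.card Q ∧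
      S.Appr (PE ∪ D) (NE ∪ D') (fun z => ∀ U ∈ 𝔘, ∃ p ∈ U, p z) := by
  have hap : ∀ p : Set E → Prop, ∃ (𝒲 𝒞 : Set (Finset E)), (∃ U ∈ 𝔘, p ∈ U) →
      (∀ W ∈ 𝒲, S.WOK W) ∧ (∀ F ∈ 𝒞, S.FOK F) ∧ (∀ W ∈ 𝒲, ∀ F ∈ 𝒞, ∃ e ∈ F, e ∈ W) ∧
      (∀ t, t ∉ PE → p (S.pos t) → ∃ W ∈ 𝒲, ∀ e ∈ W, e ∈ S.pos t) ∧
      (∀ u, u ∉ NE → ¬ p (S.neg u) → ∃ F ∈ 𝒞, ∀ e ∈ F, e ∉ S.neg u) := by
    intro p
    by_cases hp : ∃ U ∈ 𝔘, p ∈ U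
    · obtain ⟨U, hUU, hpU⟩ := hp
      obtain ⟨𝒲, 𝒞, h1⟩ := (hU U hUU).2 p hpU
      exact ⟨𝒲, 𝒞, fun _ => h1⟩
    · exact ⟨∅, ∅, fun h => absurd h hp⟩
  choose 𝒲 𝒞 hWC using hap
  -- the clauses of the disjunctions
  obtain ⟨𝒞₁, h𝒞₁⟩ : ∃ 𝒞₁ : Set (Finset E), 𝒞₁ = {F | ∃ U ∈ 𝔘, ∃ Fa : (Set E → Prop) → Finset E,
    (∀ p ∈ U, Fa p ∈ 𝒞 p) ∧ F = (U.image Fa).biUnion id} := ⟨_, rfl⟩
  obtain ⟨𝒲₁, h𝒲₁⟩ : ∃ 𝒲₁ : Set (Finset E), 𝒲₁ = {W | S.WOK W ∧ ∀ F ∈ 𝒞₁, ∃ e ∈ F, e ∈ W} :=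
    ⟨_, rfl⟩
  have hD := hP 𝒞₁ (by
    rw [h𝒞₁]
    rintro F ⟨U, hUU, Fa, hFa, rfl⟩
    refine ⟨U.image Fa, card_image_le.trans (hU U hUU).1, ?_, fun e => by
      rw [mem_biUnion]; exact Iff.rfl⟩
    intro F' hF'
    rw [mem_image] at hF'
    obtain ⟨p, hp, rfl⟩ := hF'
    exact (hWC p ⟨U, hUU, hp⟩).2.1 _ (hFa p hp))
  have hD' := hN 𝒲₁ (by
    rw [h𝒲₁]
    exact fun W hW => hW.1)
  refine ⟨_, _, hD, hD', ?_⟩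
  refine ⟨𝒲₁, {F | S.FOK F ∧ ∀ W ∈ 𝒲₁, ∃ e ∈ F, e ∈ W}, ?_, fun F hF => hF.1,
    fun W hW F hF => hF.2 W hW, ?_, ?_⟩
  · rw [h𝒲₁]
    exact fun W hW => hW.1
  · intro t ht hall
    rw [notMem_union] at ht
    have hb : ¬ S.BadP 𝒞₁ t := fun hb => ht.2 (mem_filter.2 ⟨mem_univ _, hb⟩)
    unfold Sys.BadP at hb
    push Not at hb
    obtain ⟨Y, hYc, hYt, hY⟩ := hb (by
      rw [h𝒞₁]
      rintro F ⟨U, hUU, Fa, hFa, rfl⟩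
      obtain ⟨p, hp, hpt⟩ := hall U hUU
      obtain ⟨-, -, h3, h4, -⟩ := hWC p ⟨U, hUU, hp⟩
      obtain ⟨W, hW, hWt⟩ := h4 t ht.1 hpt
      obtain ⟨e, he, heW⟩ := h3 W hW _ (hFa p hp)
      exact ⟨e, mem_biUnion.2 ⟨Fa p, mem_image_of_mem _ hp, he⟩, hWt e heW⟩)
    refine ⟨Y, ?_, hYt⟩
    rw [h𝒲₁]
    exact ⟨hYc, hY⟩
  · intro u hu hnot
    rw [notMem_union] at hu
    push Not at hnot
    obtain ⟨U, hUU, hpU⟩ := hnot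
    -- a clause of the disjunction which is false
    have hFa : ∀ p : Set E → Prop, ∃ F : Finset E, p ∈ U → F ∈ 𝒞 p ∧ ∀ e ∈ F, e ∉ S.neg u := by
      intro p
      by_cases hp : p ∈ U
      · obtain ⟨-, -, -, -, h5⟩ := hWC p ⟨U, hUU, hp⟩
        obtain ⟨F, hF, hFu⟩ := h5 u hu.1 (hpU p hp)
        exact ⟨F, fun _ => ⟨hF, hFu⟩⟩
      · exact ⟨∅, fun h => absurd h hp⟩
    choose Fa hFa using hFa
    have hb : ¬ S.BadN 𝒲₁ u := fun hb => hu.2 (mem_filter.2 ⟨mem_univ _, hb⟩)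
    unfold Sys.BadN at hb
    push Not at hb
    obtain ⟨Y, hYc, hYu, hY⟩ := hb (by
      rw [h𝒲₁]
      rintro W ⟨-, hW⟩
      obtain ⟨e, he, heW⟩ := hW ((U.image Fa).biUnion id) (by
        rw [h𝒞₁]
        exact ⟨U, hUU, Fa, fun p hp => (hFa p hp).1, rfl⟩)
      rw [mem_biUnion] at he
      obtain ⟨F', hF', he⟩ := he
      rw [mem_image] at hF'
      obtain ⟨p, hp, rfl⟩ := hF'
      exact ⟨e, heW, (hFa p hp).2 e he⟩)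
    exact ⟨Y, ⟨hYc, hY⟩, hYu⟩

/-- One gate: an OR of ANDs. -/
theorem appr_dnf {h κP κN : ℕ}
    (hP : ∀ 𝒞 : Set (Finset E), (∀ F ∈ 𝒞, S.FOK F) →
      (univ.filter (S.BadP 𝒞)).card * κP ≤ Fintype.card P)
    (hN : ∀ 𝒲 : Set (Finset E), (∀ W ∈ 𝒲, ∃ 𝒯 : Finset (Finset E), 𝒯.card ≤ h ∧
        (∀ W' ∈ 𝒯, S.WOK W') ∧ ∀ e, e ∈ W ↔ ∃ W' ∈ 𝒯, e ∈ W') →
      (univ.filter (S.BadN 𝒲)).card * κN ≤ Fintype.card Q)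
    {PE : Finset P} {NE : Finset Q} (𝔘 : Set (Finset (Set E → Prop)))
    (hU : ∀ U ∈ 𝔘, U.card ≤ h ∧ ∀ p ∈ U, S.Appr PE NE p) :
    ∃ (D : Finset P) (D' : Finset Q), D.card * κP ≤ Fintype.card P ∧
      D'.card * κN ≤ Fintype.card Q ∧
      S.Appr (PE ∪ D) (NE ∪ D') (fun z => ∃ U ∈ 𝔘, ∀ p ∈ U, p z) := by
  have hap : ∀ p : Set E → Prop, ∃ (𝒲 𝒞 : Set (Finset E)), (∃ U ∈ 𝔘, p ∈ U) →
      (∀ W ∈ 𝒲, S.WOK W) ∧ (∀ F ∈ 𝒞, S.FOK F) ∧ (∀ W ∈ 𝒲, ∀ F ∈ 𝒞, ∃ e ∈ F, e ∈ W) ∧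
      (∀ t, t ∉ PE → p (S.pos t) → ∃ W ∈ 𝒲, ∀ e ∈ W, e ∈ S.pos t) ∧
      (∀ u, u ∉ NE → ¬ p (S.neg u) → ∃ F ∈ 𝒞, ∀ e ∈ F, e ∉ S.neg u) := by
    intro p
    by_cases hp : ∃ U ∈ 𝔘, p ∈ U
    · obtain ⟨U, hUU, hpU⟩ := hp
      obtain ⟨𝒲, 𝒞, h1⟩ := (hU U hUU).2 p hpU
      exact ⟨𝒲, 𝒞, fun _ => h1⟩
    · exact ⟨∅, ∅, fun h => absurd h hp⟩
  choose 𝒲 𝒞 hWC using hap
  obtain ⟨𝒲₁, h𝒲₁⟩ : ∃ 𝒲₁ : Set (Finset E), 𝒲₁ = {W | ∃ U ∈ 𝔘, ∃ Wa : (Set E → Prop) → Finset E,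
    (∀ p ∈ U, Wa p ∈ 𝒲 p) ∧ W = (U.image Wa).biUnion id} := ⟨_, rfl⟩
  obtain ⟨𝒞₁, h𝒞₁⟩ : ∃ 𝒞₁ : Set (Finset E), 𝒞₁ = {F | S.FOK F ∧ ∀ W ∈ 𝒲₁, ∃ e ∈ F, e ∈ W} :=
    ⟨_, rfl⟩
  have hD' := hN 𝒲₁ (by
    rw [h𝒲₁]
    rintro W ⟨U, hUU, Wa, hWa, rfl⟩
    refine ⟨U.image Wa, card_image_le.trans (hU U hUU).1, ?_, fun e => by
      rw [mem_biUnion]; exact Iff.rfl⟩
    intro W' hW'
    rw [mem_image] at hW'
    obtain ⟨p, hp, rfl⟩ := hW'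
    exact (hWC p ⟨U, hUU, hp⟩).1 _ (hWa p hp))
  have hD := hP 𝒞₁ (by
    rw [h𝒞₁]
    exact fun F hF => hF.1)
  refine ⟨_, _, hD, hD', ?_⟩
  refine ⟨{W | S.WOK W ∧ ∀ F ∈ 𝒞₁, ∃ e ∈ F, e ∈ W}, 𝒞₁, fun W hW => hW.1, ?_,
    fun W hW F hF => hW.2 F hF, ?_, ?_⟩
  · rw [h𝒞₁]
    exact fun F hF => hF.1
  · intro t ht hex
    rw [notMem_union] at ht
    obtain ⟨U, hUU, hpU⟩ := hex
    have hWa : ∀ p : Set E → Prop, ∃ W : Finset E, p ∈ U → W ∈ 𝒲 p ∧ ∀ e ∈ W, e ∈ S.pos t := by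
      intro p
      by_cases hp : p ∈ U
      · obtain ⟨-, -, -, h4, -⟩ := hWC p ⟨U, hUU, hp⟩
        obtain ⟨W, hW, hWt⟩ := h4 t ht.1 (hpU p hp)
        exact ⟨W, fun _ => ⟨hW, hWt⟩⟩
      · exact ⟨∅, fun h => absurd h hp⟩
    choose Wa hWa using hWa
    have hb : ¬ S.BadP 𝒞₁ t := fun hb => ht.2 (mem_filter.2 ⟨mem_univ _, hb⟩)
    unfold Sys.BadP at hb
    push Not at hb
    obtain ⟨Y, hYc, hYt, hY⟩ := hb (by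
      rw [h𝒞₁]
      rintro F ⟨-, hF⟩
      obtain ⟨e, he, heW⟩ := hF ((U.image Wa).biUnion id) (by
        rw [h𝒲₁]
        exact ⟨U, hUU, Wa, fun p hp => (hWa p hp).1, rfl⟩)
      rw [mem_biUnion] at heW
      obtain ⟨W', hW', heW⟩ := heW
      rw [mem_image] at hW'
      obtain ⟨p, hp, rfl⟩ := hW'
      exact ⟨e, he, (hWa p hp).2 e heW⟩)
    exact ⟨Y, ⟨hYc, hY⟩, hYt⟩
  · intro u hu hnot
    rw [notMem_union] at hu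
    push Not at hnot
    have hb : ¬ S.BadN 𝒲₁ u := fun hb => hu.2 (mem_filter.2 ⟨mem_univ _, hb⟩)
    unfold Sys.BadN at hb
    push Not at hb
    obtain ⟨Y, hYc, hYu, hY⟩ := hb (by
      rw [h𝒲₁]
      rintro W ⟨U, hUU, Wa, hWa, rfl⟩
      obtain ⟨p, hp, hpu⟩ := hnot U hUU
      obtain ⟨-, -, h3, -, h5⟩ := hWC p ⟨U, hUU, hp⟩
      obtain ⟨F, hF, hFu⟩ := h5 u hu.1 hpu
      obtain ⟨e, he, heW⟩ := h3 _ (hWa p hp) F hF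
      exact ⟨e, mem_biUnion.2 ⟨Wa p, mem_image_of_mem _ hp, heW⟩, hFu e he⟩)
    refine ⟨Y, ?_, hYu⟩
    rw [h𝒞₁]
    exact ⟨hYc, hY⟩

/-- Approximation of a whole straight-line program. -/
theorem appr_mslp {h κP κN : ℕ}
    (hP : ∀ 𝒞 : Set (Finset E), (∀ F ∈ 𝒞, ∃ 𝒯 : Finset (Finset E), 𝒯.card ≤ h ∧
        (∀ F' ∈ 𝒯, S.FOK F') ∧ ∀ e, e ∈ F ↔ ∃ F' ∈ 𝒯, e ∈ F') →
      (univ.filter (S.BadP 𝒞)).card * κP ≤ Fintype.card P)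
    (hP1 : ∀ 𝒞 : Set (Finset E), (∀ F ∈ 𝒞, S.FOK F) →
      (univ.filter (S.BadP 𝒞)).card * κP ≤ Fintype.card P)
    (hN : ∀ 𝒲 : Set (Finset E), (∀ W ∈ 𝒲, ∃ 𝒯 : Finset (Finset E), 𝒯.card ≤ h ∧
        (∀ W' ∈ 𝒯, S.WOK W') ∧ ∀ e, e ∈ W ↔ ∃ W' ∈ 𝒯, e ∈ W') →
      (univ.filter (S.BadN 𝒲)).card * κN ≤ Fintype.card Q)
    (hN1 : ∀ 𝒲 : Set (Finset E), (∀ W ∈ 𝒲, S.WOK W) →
      (univ.filter (S.BadN 𝒲)).card * κN ≤ Fintype.card Q)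
    (g : ℕ → Set E → Prop) (s : ℕ) (hg : IsMSLP h g s) :
    ∃ (PE : Finset P) (NE : Finset Q),
      PE.card * κP ≤ s * Fintype.card P ∧ NE.card * κN ≤ s * Fintype.card Q ∧
      ∀ p, Avail g s p → S.Appr PE NE p := by
  have havail : ∀ (s : ℕ) (PE : Finset P) (NE : Finset Q), (∀ i < s, S.Appr PE NE (g i)) →
      ∀ p, Avail g s p → S.Appr PE NE p := by
    intro s PE NE happ
    rintro p (hp | ⟨j, hj, hp⟩)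
    · exact (Sys.appr_leaf hp).mono (by simp) (by simp)
    · exact (happ j hj).congr hp
  suffices h : ∃ (PE : Finset P) (NE : Finset Q),
      PE.card * κP ≤ s * Fintype.card P ∧ NE.card * κN ≤ s * Fintype.card Q ∧
      ∀ i < s, S.Appr PE NE (g i) by
    obtain ⟨PE, NE, h1, h2, h3⟩ := h
    exact ⟨PE, NE, h1, h2, havail s PE NE h3⟩
  induction s with
  | zero => exact ⟨∅, ∅, by simp, by simp, by intro i hi; omega⟩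
  | succ s ih =>
    obtain ⟨PE, NE, hPE, hNE, happ⟩ := ih (fun i hi => hg i (by omega))
    obtain ⟨𝔘, hU, hgs⟩ := hg s (by omega)
    have hU' : ∀ U ∈ 𝔘, U.card ≤ h ∧ ∀ p ∈ U, S.Appr PE NE p :=
      fun U hUU => ⟨(hU U hUU).1, fun p hp => havail s PE NE happ p ((hU U hUU).2 p hp)⟩
    have hkey : ∃ (D : Finset P) (D' : Finset Q), D.card * κP ≤ Fintype.card P ∧
        D'.card * κN ≤ Fintype.card Q ∧ S.Appr (PE ∪ D) (NE ∪ D') (g s) := by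
      rcases hgs with hgs | hgs
      · obtain ⟨D, D', h1, h2, h3⟩ := appr_cnf hP hN1 𝔘 hU'
        exact ⟨D, D', h1, h2, h3.congr hgs⟩
      · obtain ⟨D, D', h1, h2, h3⟩ := appr_dnf hP1 hN 𝔘 hU'
        exact ⟨D, D', h1, h2, h3.congr hgs⟩
    obtain ⟨D, D', hD, hD', hap⟩ := hkey
    refine ⟨PE ∪ D, NE ∪ D', ?_, ?_, ?_⟩
    · calc (PE ∪ D).card * κP ≤ (PE.card + D.card) * κP :=
            Nat.mul_le_mul_right _ (card_union_le _ _)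
        _ = PE.card * κP + D.card * κP := by ring
        _ ≤ s * Fintype.card P + Fintype.card P := Nat.add_le_add hPE hD
        _ = _ := by ring
    · calc (NE ∪ D').card * κN ≤ (NE.card + D'.card) * κN :=
            Nat.mul_le_mul_right _ (card_union_le _ _)
        _ = NE.card * κN + D'.card * κN := by ring
        _ ≤ s * Fintype.card Q + Fintype.card Q := Nat.add_le_add hNE hD'
        _ = _ := by ring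
    · intro i hi
      rcases Nat.lt_succ_iff_lt_or_eq.1 hi with hi | rfl
      · exact (happ i hi).mono subset_union_left subset_union_left
      · exact hap

end Pool.Agent.T9h75.WX
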