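import Pool.Agent.T9h75.WT.Core
import Pool.Agent.T9h75.WX.Sys

set_option autoImplicit false
set_option linter.unusedSectionVars false

namespace Pool.Agent.T9h75.WX

open Finset Pool.Agent.T9h16 Pool.Agent.T9h75.WT
open scoped Classical

/-- No monotone straight-line program with `s` gates (of width `δ`) computes wires (indexed by `β`)
from which `T` is obtained by the acceptance condition `Acc`, together with at most `s` further
wires. -/
def Hard {E β : Type} (δ : ℕ) (T : Set E → Prop) (s : ℕ) (Acc : (β → Prop) → Prop) : Prop :=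
  ∀ gt : ℕ → Set E → Prop, IsMSLP δ gt s →
    ∀ wr : β → Set E → Prop, (∀ b, Avail gt s (wr b)) →
    ∀ xw : ℕ → Set E → Prop, (∀ i < s, Avail gt s (xw i)) →
    (∀ z, T z → Acc (fun b => wr b z) ∨ ∃ i < s, xw i z) →
    (∀ z, ¬ T z → ¬ Acc (fun b => wr b z) ∧ ∀ i < s, ¬ xw i z) → False

section lev
variable {q : ℕ} {E0 V Q0 Φ : Type} {posV : Φ → V → Set E0} {negV : Q0 → Set E0} {A : Par E0}
variable [Fintype Φ] [Fintype V] [Fintype Q0]

theorem card_badP_lev (r κ c₁ : ℕ)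
    (hP : ∀ 𝒞 : Set (Finset (CP q r × E0)), (∀ F ∈ 𝒞, F.card ≤ c₁) →
      (univ.filter ((baseSys (CP q r) posV negV A).BadP 𝒞)).card * κ ≤
        Fintype.card (Φ × (CP q r → V)))
    (𝒞 : Set (Finset (DC q r × E0))) (hc : ∀ F ∈ 𝒞, F.card ≤ c₁) :
    (univ.filter ((levSys r posV negV A).BadP 𝒞)).card * κ ≤
        Fintype.card (Φ × (Sel q r × (CP q r → V))) := by
  rw [card_eq_sum_card_fiberwise (f := fun t : Φ × (Sel q r × (CP q r → V)) => t.2.1) (t := univ)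
    (fun _ _ => mem_univ _), sum_mul]
  calc ∑ σ : Sel q r, ((univ.filter ((levSys r posV negV A).BadP 𝒞)).filter
        fun t : Φ × (Sel q r × (CP q r → V)) => t.2.1 = σ).card * κ
      ≤ ∑ _σ : Sel q r, Fintype.card (Φ × (CP q r → V)) := by
        apply sum_le_sum
        intro σ _
        refine le_trans (Nat.mul_le_mul_right _ ?_) (hP
          {F' | ∃ F ∈ 𝒞, F' = pull (embP_inj r σ) F} (by
            rintro F' ⟨F, hF, rfl⟩
            exact (card_pull _ _).trans (hc F hF)))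
        apply card_le_card_of_injOn
          (fun t : Φ × (Sel q r × (CP q r → V)) => ((t.1, t.2.2) : Φ × (CP q r → V)))
        · rintro ⟨φ, σ', η⟩ ht
          rw [mem_coe, mem_filter, mem_filter] at ht
          obtain ⟨⟨-, h1⟩, h2⟩ := ht
          simp only at h2
          subst h2
          rw [mem_coe, mem_filter]
          exact ⟨mem_univ _, badP_lev r 𝒞 φ σ' η h1⟩
        · rintro ⟨φ, σ', η⟩ ht ⟨φ', σ'', η'⟩ ht' h
          rw [mem_coe, mem_filter] at ht ht'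
          have e1 : σ' = σ := ht.2
          have e2 : σ'' = σ := ht'.2
          simp only [Prod.mk.injEq] at h
          rw [e1, e2, h.1, h.2]
    _ = _ := by
        rw [sum_const, smul_eq_mul, card_univ, Fintype.card_prod, Fintype.card_prod,
          Fintype.card_prod]
        ring

theorem card_badN_lev (r κ : ℕ) (OK₁ : Finset (CP q r × E0) → Prop)
    (OK₂ : Finset (DC q r × E0) → Prop)
    (hpull : ∀ (κ' : Reg q r) W, OK₂ W → OK₁ (pull (embN_inj r κ') W))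
    (hN : ∀ 𝒲 : Set (Finset (CP q r × E0)), (∀ W ∈ 𝒲, OK₁ W) →
      (univ.filter ((baseSys (CP q r) posV negV A).BadN 𝒲)).card * κ ≤
        Fintype.card (CP q r → Q0))
    (𝒲 : Set (Finset (DC q r × E0))) (hc : ∀ W ∈ 𝒲, OK₂ W) :
    (univ.filter ((levSys r posV negV A).BadN 𝒲)).card * κ ≤
        Fintype.card (Reg q r × (CP q r → Q0)) := by
  rw [card_eq_sum_card_fiberwise (f := Prod.fst) (t := univ)
    (fun _ _ => mem_univ _), sum_mul]
  calc ∑ κ' : Reg q r, ((univ.filter ((levSys r posV negV A).BadN 𝒲)).filter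
        fun u : Reg q r × (CP q r → Q0) => u.1 = κ').card * κ
      ≤ ∑ _κ' : Reg q r, Fintype.card (CP q r → Q0) := by
        apply sum_le_sum
        intro κ' _
        refine le_trans (Nat.mul_le_mul_right _ ?_) (hN
          {W' | ∃ W ∈ 𝒲, W' = pull (embN_inj r κ') W} (by
            rintro W' ⟨W, hW, rfl⟩
            exact hpull κ' W (hc W hW)))
        apply card_le_card_of_injOn Prod.snd
        · rintro ⟨κ'', ν⟩ ht
          rw [mem_coe, mem_filter, mem_filter] at ht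
          obtain ⟨⟨-, h1⟩, h2⟩ := ht
          simp only at h2
          subst h2
          rw [mem_coe, mem_filter]
          exact ⟨mem_univ _, badN_lev r 𝒲 κ'' ν h1⟩
        · rintro ⟨κ1, ν⟩ ht ⟨κ2, ν'⟩ ht' h
          rw [mem_coe, mem_filter] at ht ht'
          have e1 : κ1 = κ' := ht.2
          have e2 : κ2 = κ' := ht'.2
          have e3 : ν = ν' := h
          rw [e1, e2, e3]
    _ = _ := by
        rw [sum_const, smul_eq_mul, card_univ, Fintype.card_prod]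

end lev

section
variable {q k w A₀ : ℕ} {E0 V Q0 : Type} [Fintype V] [Fintype Q0]

theorem core {posV : (Fin k → Fin w) → V → Set E0} {negV : Q0 → Set E0} {A : Par E0}
    {G : (Fin k → Fin w) → Set E0 → Prop} {χ : Q0 → Fin k × Fin w → Fin A₀}
    (hw : 1 ≤ w) (hV : Nonempty V) (hQ : Nonempty Q0)
    (hGp : ∀ φ v, G φ (posV φ v)) (hGm : ∀ φ z z', z ⊆ z' → G φ z → G φ z')
    (hGn : ∀ φ v, G φ (negV v) → ∃ x, (χ v (x, φ x)).val ≠ 0)
    {r s M N B : ℕ} (hM : 0 < M) (hMN : M ≤ N) (hB : 4 * N < 2 ^ B) (hq : 8 * B ≤ q)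
    {δ c₁ : ℕ} (hδ : 1 ≤ δ) (hc₁ : δ * A.c ≤ c₁)
    (hP : ∀ 𝒞 : Set (Finset (CP q r × E0)), (∀ F ∈ 𝒞, F.card ≤ c₁) →
      (univ.filter ((baseSys (CP q r) posV negV A).BadP 𝒞)).card * (2 * (s + 1)) ≤
        Fintype.card ((Fin k → Fin w) × (CP q r → V)))
    (OK₁ : Finset (CP q r × E0) → Prop) (OK₂ : Finset (DC q r × E0) → Prop)
    (hpull : ∀ (κ' : Reg q r) W, OK₂ W → OK₁ (pull (embN_inj r κ') W))
    (hOK : ∀ (W : Finset (DC q r × E0)) (𝒯 : Finset (Finset (DC q r × E0))), 𝒯.card ≤ δ →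
      (∀ W' ∈ 𝒯, (levSys r posV negV A).WOK W') → (∀ e, e ∈ W ↔ ∃ W' ∈ 𝒯, e ∈ W') → OK₂ W)
    (hN : ∀ 𝒲 : Set (Finset (CP q r × E0)), (∀ W ∈ 𝒲, OK₁ W) →
      (univ.filter ((baseSys (CP q r) posV negV A).BadN 𝒲)).card * (4 * (s + 1)) ≤
        Fintype.card (CP q r → Q0))
    (hNN : cnt (NN (q := q) χ r) * 4 ≤ Fintype.card (CP q r → Q0))
    (Bs : ∀ E : Type, (Set E → Prop) → Prop)
    (hBs : ∀ E f, Bs E f → ∀ z z' : Set E, z ⊆ z' → f z → f z')
    (hbase : ∀ (φ : Fin k → Fin w) (E : Type) (s : Set (DC q 0 × E0) → Set E), SubLeaf s →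
      ∀ f, Bs E f →
      Fintype.card (Sel q 0 × (CP q 0 → V)) ≤ 4 * N * cnt (fun t => f (s (posL posV 0 φ t))) →
      cnt (fun u => ¬ f (s (negL negV 0 u))) * 4 ≤ Fintype.card (Reg q 0 × (CP q 0 → Q0)))
    (X : ∀ E : Type, Set (Finset E) → Set (Finset E) → Set E → Prop)
    (hX1 : ∀ E (𝒲 𝒞 : Set (Finset E)), (∀ W ∈ 𝒲, ∀ F ∈ 𝒞, ∃ e ∈ F, e ∈ W) →
      ∀ z, (∃ W ∈ 𝒲, ∀ e ∈ W, e ∈ z) → X E 𝒲 𝒞 z)
    (hX2 : ∀ E (𝒲 𝒞 : Set (Finset E)), (∀ W ∈ 𝒲, ∀ F ∈ 𝒞, ∃ e ∈ F, e ∈ W) →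
      ∀ z, X E 𝒲 𝒞 z → ∀ F ∈ 𝒞, ∃ e ∈ F, e ∈ z)
    (hX3 : ∀ E (𝒲 𝒞 : Set (Finset E)), (∀ W ∈ 𝒲, W.card ≤ A.ℓ) → (∀ F ∈ 𝒞, F.card ≤ A.c) →
      Bs E (X E 𝒲 𝒞))
    {β Ψ : Type} [Fintype Ψ] (Bf : (Set β → Prop) → Prop)
    (hBf : ∀ F, Bf F → ∀ v v' : Set β, v ⊆ v' → F v → F v')
    (hX4 : ∀ E (𝒲 𝒞 : β → Set (Finset E)), (∀ b, ∀ W ∈ 𝒲 b, W.card ≤ A.ℓ) →
      (∀ b, ∀ F ∈ 𝒞 b, F.card ≤ A.c) → ∀ F, Bf F → Bs E fun z => F {b | X E (𝒲 b) (𝒞 b) z})
    (Fψ : Ψ → Set β → Prop) (hFψ : ∀ ψ, KC Bf M r (Fψ ψ)) (hΨ : Fintype.card Ψ + s ≤ 2 * N)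
    {Acc : (β → Prop) → Prop} (hAcc : ∀ v, Acc v ↔ ∃ ψ, Fψ ψ v) :
    Hard δ (TT (q := q) G r) s Acc := by
  intro gt hg wr hwr xw hxw hpos hneg
  have hLP := card_badP_lev (posV := posV) (negV := negV) (A := A) r (2 * (s + 1)) c₁ hP
  have hLN := card_badN_lev (posV := posV) (negV := negV) (A := A) r (4 * (s + 1)) OK₁ OK₂ hpull hN
  obtain ⟨PE, NE, hPE, hNE, happ⟩ := appr_mslp (S := levSys r posV negV A) (h := δ)
    (κP := 2 * (s + 1)) (κN := 4 * (s + 1))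
    (fun 𝒞 h𝒞 => hLP 𝒞 (by
      intro F hF
      obtain ⟨𝒯, h𝒯, hF', hFe⟩ := h𝒞 F hF
      have hsub : F ⊆ 𝒯.biUnion id := fun e he => by
        rw [mem_biUnion]
        exact (hFe e).1 he
      refine ((card_le_card hsub).trans (card_biUnion_le.trans ?_)).trans hc₁
      calc ∑ F' ∈ 𝒯, (id F').card ≤ ∑ _F' ∈ 𝒯, A.c := sum_le_sum fun F' hF'' => hF' F' hF''
        _ = 𝒯.card * A.c := by rw [sum_const, smul_eq_mul]
        _ ≤ δ * A.c := Nat.mul_le_mul_right _ h𝒯))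
    (fun 𝒞 h𝒞 => hLP 𝒞 (fun F hF => ((h𝒞 F hF : F.card ≤ A.c).trans
      (Nat.le_mul_of_pos_left _ hδ)).trans hc₁))
    (fun 𝒲 h𝒲 => hLN 𝒲 (by
      intro W hW
      obtain ⟨𝒯, h𝒯, hW', hWe⟩ := h𝒲 W hW
      exact hOK W 𝒯 h𝒯 hW' hWe))
    (fun 𝒲 h𝒲 => hLN 𝒲 (by
      intro W hW
      exact hOK W {W} (by rw [card_singleton]; exact hδ) (by
        intro W' hW'
        rw [mem_singleton] at hW'
        rw [hW']
        exact h𝒲 W hW) (fun e => by simp))) gt s hg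
  -- approximators of the wires
  have hw1 : ∀ b, (levSys r posV negV A).Appr PE NE (wr b) := fun b => happ _ (hwr b)
  have hx1 : ∀ i : Fin s, (levSys r posV negV A).Appr PE NE (xw i) :=
    fun i => happ _ (hxw i i.isLt)
  choose 𝒲 𝒞 a1 a2 a3 a4 a5 using hw1
  choose 𝒲' 𝒞' b1 b2 b3 b4 b5 using hx1
  have hΨ' : Fintype.card (Ψ ⊕ Fin s) ≤ 2 * N := by
    rw [Fintype.card_sum, Fintype.card_fin]
    exact hΨ
  obtain ⟨f, hf⟩ : ∃ f : Ψ ⊕ Fin s → Set (DC q r × E0) → Prop, f = Sum.elim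
    (fun ψ z => Fψ ψ {b | X _ (𝒲 b) (𝒞 b) z}) (fun i z => X _ (𝒲' i) (𝒞' i) z) := ⟨_, rfl⟩
  have hfK : ∀ i, KC (Bs _) M r (f i) := by
    rintro (ψ | i)
    · rw [hf]
      exact KC.comp _ (fun F hF => hX4 _ 𝒲 𝒞 (fun b W hW => (a1 b W hW).1) (fun b F hF => a2 b F hF)
        F hF) r _ (hFψ ψ)
    · rw [hf]
      exact KC.of_base hM (hX3 _ _ _ (fun W hW => (b1 i W hW).1) (fun F hF => b2 i F hF)) r
  have hFm : ∀ ψ, ∀ v v' : Set β, v ⊆ v' → Fψ ψ v → Fψ ψ v' :=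
    fun ψ => KC.mono hBf r _ (hFψ ψ)
  -- positive tests
  have hfpos : ∀ t, t ∉ PE → ∃ i, f i (posL posV r t.1 t.2) := by
    intro t ht
    rcases hpos _ (TT_posL hGp hGm r t.1 t.2) with h | ⟨i, hi, h⟩
    · rw [hAcc] at h
      obtain ⟨ψ, hψ⟩ := h
      refine ⟨Sum.inl ψ, ?_⟩
      rw [hf]
      refine hFm ψ _ _ ?_ hψ
      intro b hb
      exact hX1 _ _ _ (a3 b) _ (a4 b t ht hb)
    · refine ⟨Sum.inr ⟨i, hi⟩, ?_⟩
      rw [hf]
      exact hX1 _ _ _ (b3 ⟨i, hi⟩) _ (b4 ⟨i, hi⟩ t ht h)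
  -- negative tests
  have hfneg : ∀ u : Reg q r × (CP q r → Q0), u ∉ NE → ¬ NN χ r u.2 →
      ∀ i, ¬ f i (negL negV r u) := by
    intro u hu hu2 i hi
    have hT := not_TT_negL (negV := negV) hGn hGm r u hu2
    obtain ⟨hn1, hn2⟩ := hneg _ hT
    rcases i with ψ | i
    · apply hn1
      rw [hAcc]
      refine ⟨ψ, ?_⟩
      rw [hf] at hi
      refine hFm ψ _ _ ?_ hi
      intro b hb
      by_contra hcon
      obtain ⟨F, hF, hFu⟩ := a5 b u hu hcon
      obtain ⟨e, he, he'⟩ := hX2 _ _ _ (a3 b) _ hb F hF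
      exact hFu e he he'
    · rw [hf] at hi
      obtain ⟨F, hF, hFu⟩ := b5 i u hu (hn2 i i.isLt)
      obtain ⟨e, he, he'⟩ := hX2 _ _ _ (b3 i) _ hi F hF
      exact hFu e he he'
  -- counting
  have hΦ0 : 0 < Fintype.card (Fin k → Fin w) := by
    rw [Fintype.card_fun, Fintype.card_fin]
    exact Nat.pow_pos hw
  have hneS : ∀ r, Nonempty (Sel q r) := by
    intro r
    induction r with
    | zero => exact ⟨()⟩
    | succ r ih => exact ⟨fun j => (j, ih.some)⟩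
  have hT0 : 0 < Fintype.card (Sel q r × (CP q r → V)) := by
    have : Nonempty (Sel q r × (CP q r → V)) := ⟨((hneS r).some, fun _ => hV.some)⟩
    exact Fintype.card_pos
  have hB0 : 0 < B := by
    rcases Nat.eq_zero_or_pos B with h | h
    · rw [h, pow_zero] at hB; omega
    · exact h
  have hq0 : 0 < q := by omega
  have hneR : ∀ r, Nonempty (Reg q r) := by
    intro r
    induction r with
    | zero => exact ⟨()⟩
    | succ r ih => exact ⟨(⟨0, hq0⟩, fun _ => ih.some)⟩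
  have hQ0 : 0 < Fintype.card (Reg q r × (CP q r → Q0)) := by
    have : Nonempty (Reg q r × (CP q r → Q0)) := ⟨((hneR r).some, fun _ => hQ.some)⟩
    exact Fintype.card_pos
  have hPE2 : PE.card * 2 ≤ Fintype.card ((Fin k → Fin w) × (Sel q r × (CP q r → V))) := by
    refine Nat.le_of_mul_le_mul_left (c := s + 1) ?_ (Nat.succ_pos s)
    calc (s + 1) * (PE.card * 2) = PE.card * (2 * (s + 1)) := by ring
      _ ≤ s * Fintype.card ((Fin k → Fin w) × (Sel q r × (CP q r → V))) := hPE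
      _ ≤ _ := Nat.mul_le_mul_right _ (Nat.le_succ s)
  have hNE4 : NE.card * 4 ≤ Fintype.card (Reg q r × (CP q r → Q0)) := by
    refine Nat.le_of_mul_le_mul_left (c := s + 1) ?_ (Nat.succ_pos s)
    calc (s + 1) * (NE.card * 4) = NE.card * (4 * (s + 1)) := by ring
      _ ≤ s * Fintype.card (Reg q r × (CP q r → Q0)) := hNE
      _ ≤ _ := Nat.mul_le_mul_right _ (Nat.le_succ s)
  have hP0 : 0 < Fintype.card ((Fin k → Fin w) × (Sel q r × (CP q r → V))) := by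
    rw [Fintype.card_prod]
    exact Nat.mul_pos hΦ0 hT0
  have hUc : Fintype.card ((Fin k → Fin w) × (Sel q r × (CP q r → V))) ≤
      2 * ((univ : Finset ((Fin k → Fin w) × (Sel q r × (CP q r → V)))) \ PE).card := by
    rw [card_sdiff_of_subset (subset_univ _), card_univ]
    omega
  obtain ⟨i, hi⟩ := exists_avg ((univ : Finset ((Fin k → Fin w) × (Sel q r × (CP q r → V)))) \ PE)
    (fun i t => f i (posL posV r t.1 t.2)) (by
      intro t ht
      rw [mem_sdiff] at ht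
      exact hfpos t ht.2) (by omega)
  have hcntP : Fintype.card ((Fin k → Fin w) × (Sel q r × (CP q r → V))) ≤
      4 * N * cnt (fun t : (Fin k → Fin w) × (Sel q r × (CP q r → V)) =>
        f i (posL posV r t.1 t.2)) := by
    calc _ ≤ 2 * (Fintype.card (Ψ ⊕ Fin s) * cnt
          (fun t : (Fin k → Fin w) × (Sel q r × (CP q r → V)) =>
            f i (posL posV r t.1 t.2))) := hUc.trans (Nat.mul_le_mul_left _ hi)
      _ ≤ 2 * (2 * N * cnt
          (fun t : (Fin k → Fin w) × (Sel q r × (CP q r → V)) =>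
            f i (posL posV r t.1 t.2))) := Nat.mul_le_mul_left _ (Nat.mul_le_mul_right _ hΨ')
      _ = _ := by ring
  rw [cnt_prod, Fintype.card_prod] at hcntP
  obtain ⟨φ, hφ⟩ : ∃ φ : Fin k → Fin w, Fintype.card (Sel q r × (CP q r → V)) ≤
      4 * N * cnt (fun t : Sel q r × (CP q r → V) => f i (posL posV r φ t)) := by
    by_contra hcon
    push Not at hcon
    have h1 : ∑ φ : Fin k → Fin w,
        4 * N * cnt (fun t : Sel q r × (CP q r → V) => f i (posL posV r φ t)) <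
        ∑ _φ : Fin k → Fin w, Fintype.card (Sel q r × (CP q r → V)) := by
      apply sum_lt_sum_of_nonempty
      · have : Nonempty (Fin k → Fin w) := ⟨fun _ => ⟨0, hw⟩⟩
        exact univ_nonempty
      · intro φ _
        exact hcon φ
    rw [← mul_sum, sum_const, card_univ, smul_eq_mul] at h1
    exact absurd hcntP (not_le.2 h1)
  have hfin := tree_lemma M N B hMN hB hq hV φ Bs hBs (hbase φ) r _ (fun z => z) subLeaf_id
    (f i) (hfK i) hφ
  have hall : Fintype.card (Reg q r × (CP q r → Q0)) ≤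
      cnt (fun u : Reg q r × (CP q r → Q0) => u ∈ NE) +
      cnt (fun u : Reg q r × (CP q r → Q0) => NN χ r u.2 ∨ ¬ f i (negL negV r u)) := by
    have h1 : cnt (fun _ : Reg q r × (CP q r → Q0) => True) =
        Fintype.card (Reg q r × (CP q r → Q0)) := by
      rw [cnt_eq_card univ (fun _ => by simp), card_univ]
    rw [← h1]
    apply cnt_or
    intro u _
    by_cases hu : u ∈ NE
    · exact Or.inl hu
    · right
      by_cases hu2 : NN χ r u.2
      · exact Or.inl hu2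
      · exact Or.inr (hfneg u hu hu2 i)
  have hall2 : cnt (fun u : Reg q r × (CP q r → Q0) => NN χ r u.2 ∨ ¬ f i (negL negV r u)) ≤
      cnt (fun u : Reg q r × (CP q r → Q0) => NN χ r u.2) +
      cnt (fun u : Reg q r × (CP q r → Q0) => ¬ f i (negL negV r u)) :=
    cnt_or fun u h => h
  have hNEc : cnt (fun u : Reg q r × (CP q r → Q0) => u ∈ NE) = NE.card :=
    cnt_eq_card NE fun _ => Iff.rfl
  have hNNc : cnt (fun u : Reg q r × (CP q r → Q0) => NN χ r u.2) * 4 ≤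
      Fintype.card (Reg q r × (CP q r → Q0)) := by
    have h1 : cnt (fun u : Reg q r × (CP q r → Q0) => NN χ r u.2) =
        ∑ _κ : Reg q r, cnt (NN (q := q) χ r) := cnt_prod _
    rw [h1, sum_const, smul_eq_mul, card_univ, Fintype.card_prod, mul_assoc]
    exact Nat.mul_le_mul_left _ hNN
  omega

end

end Pool.Agent.T9h75.WX
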