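import Pool.Agent.T9h75.WX.Split
import Pool.Agent.T9h75.WT.Embed

set_option autoImplicit false
set_option linter.unusedSectionVars false

namespace Pool.Agent.T9h75.WX

open Finset Pool.Agent.T9h16 Pool.Agent.T9h75.WT
open scoped Classical

section reps
variable {n : ℕ} {K V : Type} [Fintype K]

theorem reps (e : V ↪ Fin n) (cl : V → K) (S : Finset (Fin n)) (hS : S.card = Fintype.card K)
    (h : ∀ c, ∃ R, e R ∈ S ∧ cl R = c) :
    ∃ R : K → V, (∀ c, cl (R c) = c) ∧ (S = univ.image fun c => e (R c)) ∧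
      ∀ R', e R' ∈ S → R' = R (cl R') := by
  choose R hRS hRc using h
  have hinj : Function.Injective fun c => e (R c) := by
    intro x y hxy
    have := e.injective hxy
    rw [← hRc x, ← hRc y, this]
  have hSeq : S = univ.image fun c => e (R c) := by
    symm
    apply eq_of_subset_of_card_le
    · intro v hv
      rw [mem_image] at hv
      obtain ⟨x, -, rfl⟩ := hv
      exact hRS x
    · rw [card_image_of_injective _ hinj, card_univ, hS]
  refine ⟨R, hRc, hSeq, fun R' hR' => ?_⟩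
  rw [hSeq, mem_image] at hR'
  obtain ⟨x, -, hx⟩ := hR'
  have := e.injective hx
  rw [← this, hRc]

theorem reps' (e : V ↪ Fin n) (cl : V → K) (S : Finset (Fin n)) (hS : S.card = Fintype.card K)
    (h1 : ∀ v ∈ S, ∃ R, e R = v)
    (h2 : ∀ R R' : V, e R ∈ S → e R' ∈ S → cl R = cl R' → R = R') :
    ∀ c, ∃ R, e R ∈ S ∧ cl R = c := by
  intro c
  rcases S.eq_empty_or_nonempty with hemp | ⟨v₀, hv₀⟩
  · rw [hemp, card_empty] at hS
    exact absurd (Fintype.card_pos_iff.2 ⟨c⟩) (by omega)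
  · obtain ⟨R₀, -⟩ := h1 v₀ hv₀
    have hne : Nonempty V := ⟨R₀⟩
    choose! R hR using h1
    have hinj : Set.InjOn (fun v => cl (R v)) (S : Set (Fin n)) := by
      intro v hv v' hv' hvv
      have := h2 (R v) (R v') (by rw [hR v hv]; exact hv) (by rw [hR v' hv']; exact hv') hvv
      rw [← hR v hv, ← hR v' hv', this]
    have huniv : (S.image fun v => cl (R v)) = univ := by
      apply eq_univ_of_card
      rw [card_image_of_injOn hinj, hS]
    have hx : c ∈ S.image fun v => cl (R v) := by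
      rw [huniv]
      exact mem_univ c
    rw [mem_image] at hx
    obtain ⟨v, hv, hvx⟩ := hx
    exact ⟨R v, by rw [hR v hv]; exact hv, hvx⟩

end reps

section
variable {p₀ k T q p n B : ℕ}

/-- The vertices: rows of the blocks, and selectors. -/
abbrev VV (p₀ k q T p : ℕ) : Type := (Fin p₀ × (Fin k × Fin q)) ⊕ (Fin T × Fin p)

/-- The class of a vertex. -/
def cls : VV p₀ k q T p → Fin k ⊕ Fin T :=
  Sum.elim (fun R => Sum.inl R.2.1) (fun s => Sum.inr s.1)

/-- The choice of one vertex of every class. -/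
def rep (P : Fin p₀) (φ : Fin k → Fin q) (σ : Fin T → Fin p) : Fin k ⊕ Fin T → VV p₀ k q T p :=
  Sum.elim (fun x => Sum.inl (P, (x, φ x))) (fun j => Sum.inr (j, σ j))

theorem cls_rep (P : Fin p₀) (φ : Fin k → Fin q) (σ : Fin T → Fin p) (c : Fin k ⊕ Fin T) :
    cls (rep P φ σ c) = c := by
  rcases c with x | j
  · rfl
  · rfl

/-- The set of vertices chosen by `φ` and `σ` in the block `P`. -/
noncomputable def SX (e : VV p₀ k q T p ↪ Fin n) (P : Fin p₀) (φ : Fin k → Fin q)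
    (σ : Fin T → Fin p) : Finset (Fin n) := univ.image fun c => e (rep P φ σ c)

theorem card_SX (e : VV p₀ k q T p ↪ Fin n) (P : Fin p₀) (φ : Fin k → Fin q)
    (σ : Fin T → Fin p) : (SX e P φ σ).card = k + T := by
  unfold SX
  rw [card_image_of_injective, card_univ, Fintype.card_sum, Fintype.card_fin, Fintype.card_fin]
  intro x y h
  rw [← cls_rep P φ σ x, ← cls_rep P φ σ y, e.injective h]

theorem mem_SX {e : VV p₀ k q T p ↪ Fin n} {P : Fin p₀} {φ : Fin k → Fin q}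
    {σ : Fin T → Fin p} {v : Fin n} : v ∈ SX e P φ σ ↔ ∃ c, e (rep P φ σ c) = v := by
  unfold SX
  rw [mem_image]
  exact ⟨fun ⟨x, _, h⟩ => ⟨x, h⟩, fun ⟨x, h⟩ => ⟨x, mem_univ _, h⟩⟩

theorem mem_SX_sel {e : VV p₀ k q T p ↪ Fin n} {P : Fin p₀} {φ : Fin k → Fin q}
    {σ : Fin T → Fin p} {j : Fin T} {Q : Fin p} :
    e (Sum.inr (j, Q)) ∈ SX e P φ σ ↔ Q = σ j := by
  rw [mem_SX]
  constructor
  · rintro ⟨c, hc⟩
    have h1 := e.injective hc
    rcases c with x | j'
    · exact absurd h1 (by simp [rep])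
    · have h2 : (j', σ j') = (j, Q) := by simpa [rep] using h1
      rw [Prod.mk.injEq] at h2
      rw [← h2.2, h2.1]
  · rintro rfl
    exact ⟨Sum.inr j, rfl⟩

theorem mem_SX_row {e : VV p₀ k q T p ↪ Fin n} {P : Fin p₀} {φ : Fin k → Fin q}
    {σ : Fin T → Fin p} {P' : Fin p₀} {R : Fin k × Fin q} :
    e (Sum.inl (P', R)) ∈ SX e P φ σ ↔ P' = P ∧ R = (R.1, φ R.1) := by
  rw [mem_SX]
  constructor
  · rintro ⟨c, hc⟩
    have h1 := e.injective hc
    rcases c with x | j'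
    · have h2 : (P, (x, φ x)) = (P', R) := by simpa [rep] using h1
      rw [Prod.mk.injEq] at h2
      refine ⟨h2.1.symm, ?_⟩
      rw [← h2.2]
    · exact absurd h1 (by simp [rep])
  · rintro ⟨rfl, h⟩
    refine ⟨Sum.inl R.1, ?_⟩
    change e (Sum.inl (P', (R.1, φ R.1))) = _
    rw [← h]

/-- A system of representatives of the classes whose rows lie in the same block. -/
theorem SX_of_reps (e : VV p₀ k q T p ↪ Fin n) (x₀ : Fin k) (S : Finset (Fin n))
    (R : Fin k ⊕ Fin T → VV p₀ k q T p) (hRc : ∀ c, cls (R c) = c)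
    (hS : S = univ.image fun c => e (R c))
    (hP : ∀ R' R'' : Fin p₀ × (Fin k × Fin q), e (Sum.inl R') ∈ S → e (Sum.inl R'') ∈ S →
      R'.1 = R''.1) : ∃ P φ σ, S = SX e P φ σ := by
  have h1 : ∀ x : Fin k, ∃ P i, R (Sum.inl x) = Sum.inl (P, (x, i)) := by
    intro x
    have h := hRc (Sum.inl x)
    rcases hR : R (Sum.inl x) with ⟨P, y, i⟩ | ⟨j, Q⟩
    · rw [hR] at h
      have h2 : y = x := by simpa [cls] using h
      rw [h2]
      exact ⟨P, i, rfl⟩
    · rw [hR] at h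
      exact absurd h (by simp [cls])
  have h2 : ∀ j : Fin T, ∃ Q, R (Sum.inr j) = Sum.inr (j, Q) := by
    intro j
    have h := hRc (Sum.inr j)
    rcases hR : R (Sum.inr j) with ⟨P, y, i⟩ | ⟨j', Q⟩
    · rw [hR] at h
      exact absurd h (by simp [cls])
    · rw [hR] at h
      have h2 : j' = j := by simpa [cls] using h
      rw [h2]
      exact ⟨Q, rfl⟩
  choose Pf φ hφ using h1
  choose σ hσ using h2
  have hmem : ∀ c, e (R c) ∈ S := fun c => by
    rw [hS]
    exact mem_image_of_mem _ (mem_univ c)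
  refine ⟨Pf x₀, φ, σ, ?_⟩
  rw [hS]
  unfold SX
  congr 1
  funext c
  congr 1
  rcases c with x | j
  · rw [hφ]
    have := hP (Pf x, (x, φ x)) (Pf x₀, (x₀, φ x₀)) (by rw [← hφ]; exact hmem _)
      (by rw [← hφ]; exact hmem _)
    change Sum.inl (Pf x, (x, φ x)) = Sum.inl (Pf x₀, (x, φ x))
    have h4 : Pf x = Pf x₀ := this
    rw [h4]
  · rw [hσ]
    rfl

/-- The gadgets of the even levels. -/
abbrev GE' (k T B : ℕ) : Type := (Fin k ⊕ Fin T) ⊕ (Fin k × (Fin B × Bool))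

/-- Membership in the gadget clauses of the even levels. -/
def memE' (e : VV p₀ k q T p ↪ Fin n) (x₀ : Fin k) : GE' k T B → Fin n → Prop
  | .inl c, v => ∃ R, e R = v ∧ cls R = c
  | .inr c, v => ∃ R : Fin p₀ × (Fin k × Fin q), e (Sum.inl R) = v ∧
      ((R.2.1 = x₀ ∧ R.1.val.testBit c.2.1.val = c.2.2) ∨
      (R.2.1 = c.1 ∧ R.1.val.testBit c.2.1.val ≠ c.2.2))

theorem gadE' (e : VV p₀ k q T p ↪ Fin n) (x₀ : Fin k) (hp : p₀ ≤ 2 ^ B)
    (S : Finset (Fin n)) (hS : S.card = k + T) :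
    (∀ γ : GE' k T B, ∃ v ∈ S, memE' e x₀ γ v) ↔ ∃ P φ σ, S = SX e P φ σ := by
  constructor
  · intro h
    obtain ⟨R, hRc, hSeq, hSm⟩ := reps e cls S
      (by rw [hS, Fintype.card_sum, Fintype.card_fin, Fintype.card_fin]) (by
      intro c
      obtain ⟨v, hv, R, hR, hx⟩ := h (Sum.inl c)
      exact ⟨R, by rw [hR]; exact hv, hx⟩)
    apply SX_of_reps e x₀ S R hRc hSeq
    -- all rows lie in the block of the row of the class `x₀`
    have key : ∀ R₁ R₂ : Fin p₀ × (Fin k × Fin q), e (Sum.inl R₁) ∈ S → e (Sum.inl R₂) ∈ S →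
        R₂.2.1 = x₀ → R₁.1 = R₂.1 := by
      intro R₁ R₂ hR₁ hR₂ hx₀
      apply Fin.ext
      refine testBit_ext (B := B) (lt_of_lt_of_le R₁.1.isLt hp)
        (lt_of_lt_of_le R₂.1.isLt hp) fun b => ?_
      obtain ⟨v, hv, R', hR', h3⟩ := h (Sum.inr (R₁.2.1, (b, R₁.1.val.testBit b.val)))
      rw [← hR'] at hv
      have e1 := hSm _ hv
      have e2 := hSm _ hR₁
      have e3 := hSm _ hR₂
      rcases h3 with ⟨h5, h6⟩ | ⟨h5, h6⟩
      · have e4 : cls (Sum.inl R' : VV p₀ k q T p) = cls (Sum.inl R₂ : VV p₀ k q T p) := by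
          change Sum.inl R'.2.1 = Sum.inl R₂.2.1
          rw [h5, hx₀]
        rw [e4, ← e3] at e1
        have e5 : R' = R₂ := Sum.inl_injective e1
        rw [e5] at h6
        exact h6.symm
      · have e4 : cls (Sum.inl R' : VV p₀ k q T p) = cls (Sum.inl R₁ : VV p₀ k q T p) := by
          change Sum.inl R'.2.1 = Sum.inl R₁.2.1
          rw [h5]
        rw [e4, ← e2] at e1
        have e5 : R' = R₁ := Sum.inl_injective e1
        rw [e5] at h6
        exact absurd rfl h6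
    intro R₁ R₂ hR₁ hR₂
    obtain ⟨v, hv, R₃, hR₃, hx⟩ := h (Sum.inl (Sum.inl x₀))
    rw [← hR₃] at hv
    rcases R₃ with R₃ | s
    · have hx' : R₃.2.1 = x₀ := by
        have : (Sum.inl R₃.2.1 : Fin k ⊕ Fin T) = Sum.inl x₀ := hx
        exact Sum.inl_injective this
      rw [key R₁ R₃ hR₁ hv hx', key R₂ R₃ hR₂ hv hx']
    · exact absurd hx (by simp [cls])
  · rintro ⟨P, φ, σ, rfl⟩ γ
    rcases γ with c | ⟨x, b, β⟩
    · exact ⟨_, mem_SX.2 ⟨c, rfl⟩, _, rfl, cls_rep P φ σ c⟩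
    · by_cases hb : P.val.testBit b.val = β
      · exact ⟨_, mem_SX.2 ⟨Sum.inl x₀, rfl⟩, (P, (x₀, φ x₀)), rfl, Or.inl ⟨rfl, hb⟩⟩
      · exact ⟨_, mem_SX.2 ⟨Sum.inl x, rfl⟩, (P, (x, φ x)), rfl, Or.inr ⟨rfl, hb⟩⟩

/-- The gadgets of the odd levels. -/
abbrev GO' (k T B : ℕ) : Type := ((Fin k ⊕ Fin T) × Fin B) ⊕ Fin B

/-- Membership in the gadget clauses of the odd levels. -/
def memO' (e : VV p₀ k q T p ↪ Fin n) : GO' k T B → Bool → Fin n → Prop
  | .inl c, β, v => ∃ R, e R = v ∧ (cls R = c.1 → v.val.testBit c.2.val = β)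
  | .inr b, β, v => ∃ R, e R = v ∧ ∀ R' : Fin p₀ × (Fin k × Fin q), R = Sum.inl R' →
      R'.1.val.testBit b.val = β

theorem gadO' (e : VV p₀ k q T p ↪ Fin n) (x₀ : Fin k) (hB : 1 ≤ B) (hn : n ≤ 2 ^ B)
    (hp : p₀ ≤ 2 ^ B) (S : Finset (Fin n)) (hS : S.card = k + T) :
    (∀ γ : GO' k T B, ∃ β, ∀ v ∈ S, memO' e γ β v) ↔ ∃ P φ σ, S = SX e P φ σ := by
  constructor
  · intro h
    have h1 : ∀ v ∈ S, ∃ R, e R = v := by
      obtain ⟨β, hβ⟩ := h (Sum.inr ⟨0, hB⟩)
      intro v hv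
      obtain ⟨R, hR, -⟩ := hβ v hv
      exact ⟨R, hR⟩
    have h2 : ∀ R R' : VV p₀ k q T p, e R ∈ S → e R' ∈ S → cls R = cls R' → R = R' := by
      intro R R' hR hR' hRR
      apply e.injective
      apply Fin.ext
      refine testBit_ext (B := B) (lt_of_lt_of_le (e R).isLt hn)
        (lt_of_lt_of_le (e R').isLt hn) fun b => ?_
      obtain ⟨β, hβ⟩ := h (Sum.inl (cls R, b))
      obtain ⟨R₁, hR₁, h3⟩ := hβ _ hR
      obtain ⟨R₂, hR₂, h4⟩ := hβ _ hR'
      rw [e.injective hR₁] at h3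
      rw [e.injective hR₂] at h4
      rw [h3 rfl, h4 hRR.symm]
    have hK : S.card = Fintype.card (Fin k ⊕ Fin T) := by
      rw [hS, Fintype.card_sum, Fintype.card_fin, Fintype.card_fin]
    obtain ⟨R, hRc, hSeq, hSm⟩ := reps e cls S hK (reps' e cls S hK h1 h2)
    apply SX_of_reps e x₀ S R hRc hSeq
    intro R₁ R₂ hR₁ hR₂
    apply Fin.ext
    refine testBit_ext (B := B) (lt_of_lt_of_le R₁.1.isLt hp)
      (lt_of_lt_of_le R₂.1.isLt hp) fun b => ?_
    obtain ⟨β, hβ⟩ := h (Sum.inr b)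
    obtain ⟨R', hR', h3⟩ := hβ _ hR₁
    obtain ⟨R'', hR'', h4⟩ := hβ _ hR₂
    rw [h3 _ (e.injective hR'), h4 _ (e.injective hR'')]
  · rintro ⟨P, φ, σ, rfl⟩ γ
    rcases γ with ⟨c, b⟩ | b
    · refine ⟨(e (rep P φ σ c)).val.testBit b.val, ?_⟩
      intro v hv
      rw [mem_SX] at hv
      obtain ⟨c', rfl⟩ := hv
      refine ⟨_, rfl, ?_⟩
      intro hyx
      rw [cls_rep] at hyx
      have hyx' : c' = c := hyx
      rw [hyx']
    · refine ⟨P.val.testBit b.val, ?_⟩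
      intro v hv
      rw [mem_SX] at hv
      obtain ⟨c', rfl⟩ := hv
      refine ⟨_, rfl, ?_⟩
      intro R' hR'
      rcases c' with x | j
      · have : (P, (x, φ x)) = R' := Sum.inl_injective hR'
        rw [← this]
      · exact absurd hR' (by simp [rep])

end

end Pool.Agent.T9h75.WX
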