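import Pool.Agent.T9h75.WT.HardE
import Pool.Agent.T9h75.WX.Core

set_option autoImplicit false
set_option linter.unusedSectionVars false

namespace Pool.Agent.T9h75.WX

open Finset Pool.Agent.T9h16 Pool.Agent.T9h75.WH Pool.Agent.T9h75.WT
open scoped Classical

/-- Hardness of the tree functions of even level. -/
theorem hard_even (k h r δ : ℕ) (hk : 1 ≤ k) (hh : 1 ≤ h) (hδ : 1 ≤ δ) : ∃ K, ∀ q ≥ K, ∀ s, K * s ≤ q ^ k →
    ∀ M N B, 0 < M → M ≤ N → 4 * N < 2 ^ B → 8 * B ≤ q →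
    ∀ (β Ψ : Type) [Fintype Ψ] (Fψ : Ψ → Set β → Prop), (∀ ψ, KC (BfE h) M r (Fψ ψ)) →
      Fintype.card Ψ + s ≤ 2 * N →
      ∀ Acc : (β → Prop) → Prop, (∀ v, Acc v ↔ ∃ ψ, Fψ ψ v) →
        Hard δ (TT (q := q) (GE (k := k) (w := q)) r) s Acc := by
  obtain ⟨c, hc⟩ : ∃ c, c = 2 * k ^ 2 + 1 := ⟨_, rfl⟩
  obtain ⟨c₁, hc₁⟩ : ∃ c₁, c₁ = δ * c := ⟨_, rfl⟩
  obtain ⟨a, ha⟩ : ∃ a, a = k ^ c₁ := ⟨_, rfl⟩
  have hc1 : 1 ≤ c := by omega
  have hc11 : 1 ≤ c₁ := by rw [hc₁]; exact Nat.mul_pos hδ hc1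
  have ha1 : 1 ≤ a := by rw [ha]; exact Nat.pow_pos hk
  obtain ⟨A₁, hA₁⟩ := asym 2 (2 * k * (k + r)) 1 1
  obtain ⟨A₂, hA₂⟩ := asym (k + 3) (2 * k ^ 2) 1 (4 * h * a * c₁ ^ 2)
  obtain ⟨A₃, hA₃⟩ := asym (k + 3) (2 * k ^ 2) (c + 1)
    (8 * 2 ^ (2 * k ^ 2) * (δ * a * c₁ ^ 2) ^ (c + 1))
  obtain ⟨A₀, hA₀⟩ : ∃ A₀, A₀ = A₁ + A₂ + A₃ + 1 := ⟨_, rfl⟩
  refine ⟨A₀ ^ (2 * k) + 8 * c₁ ^ k + 1, fun q hq s hs M N B hM hMN hB hqB β Ψ _ Fψ hFψ hΨ Acc hAcc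
    => ?_⟩
  have h2k : 2 * k ≠ 0 := by omega
  have hA₀1 : 1 ≤ A₀ := by omega
  have hq0 : A₀ ^ (2 * k) ≤ q := by omega
  have hq1 : 1 ≤ q := by omega
  have hA₀q : A₀ ≤ q := (Nat.le_self_pow h2k A₀).trans hq0
  obtain ⟨A, hAdef⟩ : ∃ A, A = Nat.findGreatest (fun A => A ^ (2 * k) ≤ q) q := ⟨_, rfl⟩
  have hAA₀ : A₀ ≤ A := by
    rw [hAdef]
    exact Nat.le_findGreatest hA₀q hq0
  have hA1 : 1 ≤ A := hA₀1.trans hAA₀
  have hAq : A ^ (2 * k) ≤ q := by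
    have := Nat.findGreatest_spec (P := fun A => A ^ (2 * k) ≤ q) hA₀q hq0
    rw [← hAdef] at this
    exact this
  have hqA : q < (A + 1) ^ (2 * k) := by
    by_cases hlt : A + 1 ≤ q
    · have := Nat.findGreatest_is_greatest (P := fun A => A ^ (2 * k) ≤ q) (n := q) (k := A + 1)
        (by rw [← hAdef]; omega) hlt
      simpa using this
    · have := Nat.le_self_pow h2k (A + 1)
      omega
  obtain ⟨L, hL⟩ : ∃ L, L = Nat.clog 2 (A + 1) := ⟨_, rfl⟩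
  have hAL : A + 1 ≤ 2 ^ L := by
    rw [hL]
    exact Nat.le_pow_clog (by norm_num) _
  have e1 := hA₁ A (by omega)
  have e2 := hA₂ A (by omega)
  have e3 := hA₃ A (by omega)
  rw [← hL] at e1 e2 e3
  have hqL : q ≤ 2 ^ (2 * k * L) := by
    calc q ≤ (A + 1) ^ (2 * k) := hqA.le
      _ ≤ (2 ^ L) ^ (2 * k) := Nat.pow_le_pow_left hAL _
      _ = 2 ^ (2 * k * L) := by rw [← pow_mul]; congr 1; ring
  have hqk1 : q ^ k ≤ (A + 1) ^ (2 * k ^ 2) := by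
    calc q ^ k ≤ ((A + 1) ^ (2 * k)) ^ k := Nat.pow_le_pow_left hqA.le _
      _ = _ := by rw [← pow_mul]; congr 1; ring
  have hqk2 : q ^ k ≤ 2 ^ (2 * k ^ 2 * L) := by
    refine hqk1.trans ((Nat.pow_le_pow_left hAL _).trans (le_of_eq ?_))
    rw [← pow_mul]
    congr 1
    ring
  have hqk3 : q ^ k ≤ 2 ^ (2 * k ^ 2) * A ^ (2 * k ^ 2) := by
    refine hqk1.trans ?_
    rw [← mul_pow]
    exact Nat.pow_le_pow_left (by omega) _
  have hs1 : s ≤ q ^ k := le_trans (Nat.le_mul_of_pos_left _ (by omega)) hs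
  have hqk0 : 1 ≤ q ^ k := Nat.pow_pos hq1
  have hs2 : s + 1 ≤ 2 * q ^ k := by omega
  obtain ⟨r', hr'⟩ : ∃ r', r' = k + 3 + 2 * k ^ 2 * L := ⟨_, rfl⟩
  have hM' : 1 ≤ a * r' := Nat.mul_pos ha1 (by omega)
  have hℓ : 1 ≤ a * r' * c₁ ^ 2 := Nat.mul_pos hM' (Nat.pow_pos hc11)
  have hℓ1 : 1 ≤ δ * (a * r' * c₁ ^ 2) := Nat.mul_pos hδ hℓ
  have hQne : Nonempty (Fin k × Fin q → Fin A) := ⟨fun _ => ⟨0, hA1⟩⟩
  refine core (q := q) (k := k) (w := q) (A₀ := A) (posV := posE) (negV := negE (A := A))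
    (A := parE (a * r' * c₁ ^ 2) c hℓ hc1) (G := GE) (χ := fun v => v) hq1 ⟨⟨0, hk⟩⟩ hQne
    ?_ ?_ ?_ hM hMN hB hqB (δ := δ) (c₁ := c₁) hδ (le_of_eq hc₁.symm) ?_
    (fun W => W.card ≤ δ * (a * r' * c₁ ^ 2)) (fun W => W.card ≤ δ * (a * r' * c₁ ^ 2))
    ?_ ?_ ?_ ?_ (BsE (h * (a * r' * c₁ ^ 2))) ?_ ?_
    (fun E 𝒲 𝒞 z => ∃ W ∈ 𝒲, ∀ e ∈ W, e ∈ z) ?_ ?_ ?_ (BfE h) ?_ ?_ Fψ hFψ hΨ hAcc
  · exact fun φ v => ⟨v, rfl, rfl⟩
  · rintro φ z z' hz ⟨x, hx⟩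
    exact ⟨x, hz hx⟩
  · rintro φ v ⟨x, hx⟩
    exact ⟨x, hx⟩
  · -- positive errors
    intro 𝒞 hC
    have h1 := card_badE (D := CP q r) (A := A) hk hq1 hM' hc11 ha.ge 𝒞 hC
    have haM : 0 < a ^ (a * r') := Nat.pow_pos ha1
    have hcond : 2 * (s + 1) * (c₁ ^ k * a ^ (a * r') + k * q ^ k * (a - 1) ^ (a * r')) ≤
        q ^ k * a ^ (a * r') := by
      have c1 : 4 * ((s + 1) * c₁ ^ k) ≤ q ^ k := by
        have c2 : 8 * c₁ ^ k * s ≤ q ^ k := le_trans (Nat.mul_le_mul_right _ (by omega)) hs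
        have c3 : 8 * c₁ ^ k ≤ q ^ k := by
          calc 8 * c₁ ^ k ≤ q := by omega
            _ ≤ q ^ k := Nat.le_self_pow (by omega) q
        have c4 : 4 * ((s + 1) * c₁ ^ k) = 4 * c₁ ^ k * s + 4 * c₁ ^ k := by ring
        have c5 : 8 * c₁ ^ k * s = 2 * (4 * c₁ ^ k * s) := by ring
        omega
      have c2 : 4 * ((s + 1) * k) * (a - 1) ^ (a * r') ≤ a ^ (a * r') := by
        have c3 : 4 * ((s + 1) * k) ≤ 2 ^ r' := by
          have c4 : k ≤ 2 ^ k := Nat.lt_two_pow_self.le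
          calc 4 * ((s + 1) * k) ≤ 4 * ((2 * 2 ^ (2 * k ^ 2 * L)) * 2 ^ k) :=
                Nat.mul_le_mul_left _ (Nat.mul_le_mul (hs2.trans (Nat.mul_le_mul_left _ hqk2)) c4)
            _ = 2 ^ r' := by rw [hr', pow_add, pow_add]; ring
        calc 4 * ((s + 1) * k) * (a - 1) ^ (a * r') ≤ 2 ^ r' * (a - 1) ^ (a * r') :=
              Nat.mul_le_mul_right _ c3
          _ = ((a - 1) ^ a * 2) ^ r' := by rw [mul_pow, pow_mul]; ring
          _ ≤ (a ^ a) ^ r' := Nat.pow_le_pow_left (two_mul_pow_le a ha1) _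
          _ = a ^ (a * r') := by rw [← pow_mul]
      have c3 : 2 * (2 * (s + 1) * (c₁ ^ k * a ^ (a * r') + k * q ^ k * (a - 1) ^ (a * r'))) ≤
          2 * (q ^ k * a ^ (a * r')) := by
        calc 2 * (2 * (s + 1) * (c₁ ^ k * a ^ (a * r') + k * q ^ k * (a - 1) ^ (a * r')))
            = (4 * ((s + 1) * c₁ ^ k)) * a ^ (a * r') +
                q ^ k * (4 * ((s + 1) * k) * (a - 1) ^ (a * r')) := by ring
          _ ≤ q ^ k * a ^ (a * r') + q ^ k * a ^ (a * r') :=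
              Nat.add_le_add (Nat.mul_le_mul_right _ c1) (Nat.mul_le_mul_left _ c2)
          _ = _ := by ring
      omega
    have h1' : (univ.filter ((baseSys (CP q r) (posE (k := k) (w := q)) (negE (A := A))
      (parE (a * r' * c₁ ^ 2) c hℓ hc1)).BadP 𝒞)).card * (q ^ k * a ^ (a * r')) ≤ _ := h1
    clear h1
    generalize (univ.filter ((baseSys (CP q r) (posE (k := k) (w := q)) (negE (A := A))
      (parE (a * r' * c₁ ^ 2) c hℓ hc1)).BadP 𝒞)).card = X at *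
    generalize Fintype.card ((Fin k → Fin q) × (CP q r → Fin k)) = Y at *
    have hpos : 0 < q ^ k * a ^ (a * r') := Nat.mul_pos hqk0 haM
    refine Nat.le_of_mul_le_mul_right ?_ hpos
    calc X * (2 * (s + 1)) * (q ^ k * a ^ (a * r'))
        = (X * (q ^ k * a ^ (a * r'))) * (2 * (s + 1)) := by ring
      _ ≤ ((c₁ ^ k * a ^ (a * r') + k * q ^ k * (a - 1) ^ (a * r')) * Y) * (2 * (s + 1)) :=
          Nat.mul_le_mul_right _ h1'
      _ = Y * (2 * (s + 1) * (c₁ ^ k * a ^ (a * r') + k * q ^ k * (a - 1) ^ (a * r'))) := by ring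
      _ ≤ Y * (q ^ k * a ^ (a * r')) := Nat.mul_le_mul_left _ hcond
  · -- pulling back
    exact fun κ' W hW => (card_pull _ _).trans hW
  · -- unions of terms
    intro W 𝒯 h𝒯 hW' hWe
    have hsub : W ⊆ 𝒯.biUnion id := fun e he => by
      rw [mem_biUnion]
      exact (hWe e).1 he
    refine (card_le_card hsub).trans (card_biUnion_le.trans ?_)
    calc ∑ W' ∈ 𝒯, (id W').card ≤ ∑ _W' ∈ 𝒯, a * r' * c₁ ^ 2 :=
          sum_le_sum fun W' hW'' => (hW' W' hW'').1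
      _ = 𝒯.card * (a * r' * c₁ ^ 2) := by rw [sum_const, smul_eq_mul]
      _ ≤ δ * (a * r' * c₁ ^ 2) := Nat.mul_le_mul_right _ h𝒯
  · -- negative errors
    intro 𝒲 hW
    have h1 : (univ.filter ((baseSys (CP q r) (posE (k := k) (w := q)) (negE (A := A))
      (parE (a * r' * c₁ ^ 2) c hℓ hc1)).BadN 𝒲)).card * A ^ (c + 1) ≤ _ :=
      card_badNE (D := CP q r) hA1 hℓ1 hc1 𝒲 hW
    have hcond : 4 * (s + 1) * (δ * (a * r' * c₁ ^ 2)) ^ (c + 1) ≤ A ^ (c + 1) := by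
      calc 4 * (s + 1) * (δ * (a * r' * c₁ ^ 2)) ^ (c + 1)
          ≤ 4 * (2 * (2 ^ (2 * k ^ 2) * A ^ (2 * k ^ 2))) * (δ * (a * r' * c₁ ^ 2)) ^ (c + 1) :=
            Nat.mul_le_mul_right _ (Nat.mul_le_mul_left _ (hs2.trans (Nat.mul_le_mul_left _ hqk3)))
        _ = A ^ (2 * k ^ 2) *
            ((8 * 2 ^ (2 * k ^ 2) * (δ * a * c₁ ^ 2) ^ (c + 1)) *
              (k + 3 + 2 * k ^ 2 * L) ^ (c + 1)) := by
            rw [← hr']
            have : δ * (a * r' * c₁ ^ 2) = (δ * a * c₁ ^ 2) * r' := by ring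
            rw [this, mul_pow (δ * a * c₁ ^ 2) r']
            ring
        _ ≤ A ^ (2 * k ^ 2) * A := Nat.mul_le_mul_left _ e3
        _ ≤ A ^ (2 * k ^ 2) * A ^ 2 := Nat.mul_le_mul_left _ (Nat.le_self_pow (by norm_num) A)
        _ = A ^ (c + 1) := by rw [← pow_add, hc]
    generalize (univ.filter ((baseSys (CP q r) (posE (k := k) (w := q)) (negE (A := A))
      (parE (a * r' * c₁ ^ 2) c hℓ hc1)).BadN 𝒲)).card = X at *
    generalize Fintype.card (CP q r → (Fin k × Fin q → Fin A)) = Y at *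
    refine Nat.le_of_mul_le_mul_right ?_ (Nat.pow_pos (n := c + 1) hA1)
    calc X * (4 * (s + 1)) * A ^ (c + 1) = (X * A ^ (c + 1)) * (4 * (s + 1)) := by ring
      _ ≤ ((δ * (a * r' * c₁ ^ 2)) ^ (c + 1) * Y) * (4 * (s + 1)) := Nat.mul_le_mul_right _ h1
      _ = Y * (4 * (s + 1) * (δ * (a * r' * c₁ ^ 2)) ^ (c + 1)) := by ring
      _ ≤ Y * A ^ (c + 1) := Nat.mul_le_mul_left _ hcond
  · -- negativity
    refine cnt_NN (L := 2 + 2 * k * (k + r) * L) hA1 hq1 hQne (fun v => v)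
      (fun φ => cnt_column hA1 φ) ?_ r 4 ?_
    · calc A ^ k * (2 + 2 * k * (k + r) * L) ≤ A ^ k * A := by
            apply Nat.mul_le_mul_left
            simpa using e1
        _ ≤ A ^ k * A ^ k := Nat.mul_le_mul_left _ (Nat.le_self_pow (by omega) A)
        _ = A ^ (2 * k) := by rw [← pow_add]; congr 1; ring
        _ ≤ q := hAq
    · calc q ^ k * (q ^ r * 4) = 4 * q ^ (k + r) := by rw [pow_add]; ring
        _ ≤ 4 * (2 ^ (2 * k * L)) ^ (k + r) :=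
            Nat.mul_le_mul_left _ (Nat.pow_le_pow_left hqL _)
        _ = 2 ^ (2 + 2 * k * (k + r) * L) := by
            rw [pow_add, ← pow_mul]
            ring
  · rintro E f ⟨𝒲, -, hf⟩ z z' hz h1
    rw [hf] at h1 ⊢
    obtain ⟨W, hW, hWz⟩ := h1
    exact ⟨W, hW, fun e he => hz (hWz e he)⟩
  · intro φ E s' hs' f hf hacc
    refine base_even hk hA1 ?_ φ E s' hs' f hf hacc
    calc 4 * (h * (a * r' * c₁ ^ 2)) = (4 * h * a * c₁ ^ 2) * (k + 3 + 2 * k ^ 2 * L) ^ 1 := by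
          rw [hr']; ring
      _ ≤ A := e2
  · exact fun E 𝒲 𝒞 _ z h => h
  · rintro E 𝒲 𝒞 hmeet z ⟨W, hW, hWz⟩ F hF
    obtain ⟨e, he, heW⟩ := hmeet W hW F hF
    exact ⟨e, he, hWz e heW⟩
  · intro E 𝒲 𝒞 hW _
    refine ⟨𝒲, fun W hW' => (hW W hW').trans (Nat.le_mul_of_pos_left _ hh), fun z => Iff.rfl⟩
  · rintro F ⟨O, -, ho⟩ v v' hv h1
    rw [ho] at h1 ⊢
    exact fun o hoO => hv (h1 o hoO)
  · rintro E 𝒲 𝒞 hW - F ⟨O, hO, ho⟩
    refine ⟨{W' | ∃ Wa : β → Finset E, (∀ o ∈ O, Wa o ∈ 𝒲 o) ∧ W' = O.biUnion Wa}, ?_, ?_⟩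
    · rintro W' ⟨Wa, hWa, rfl⟩
      refine card_biUnion_le.trans ?_
      calc ∑ o ∈ O, (Wa o).card ≤ ∑ _o ∈ O, a * r' * c₁ ^ 2 :=
            sum_le_sum fun o hoO => hW o _ (hWa o hoO)
        _ = O.card * (a * r' * c₁ ^ 2) := by rw [sum_const, smul_eq_mul]
        _ ≤ h * (a * r' * c₁ ^ 2) := Nat.mul_le_mul_right _ hO
    · intro z
      change F {b | ∃ W ∈ 𝒲 b, ∀ e ∈ W, e ∈ z} ↔ _
      rw [ho]
      constructor
      · intro h1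
        have h2 : ∀ o, ∃ W : Finset E, o ∈ O → W ∈ 𝒲 o ∧ ∀ e ∈ W, e ∈ z := by
          intro o
          by_cases hoO : o ∈ O
          · obtain ⟨W, hWo, hWz⟩ := h1 o hoO
            exact ⟨W, fun _ => ⟨hWo, hWz⟩⟩
          · exact ⟨∅, fun h => absurd h hoO⟩
        choose Wa hWa using h2
        refine ⟨_, ⟨Wa, fun o hoO => (hWa o hoO).1, rfl⟩, ?_⟩
        intro e he
        rw [mem_biUnion] at he
        obtain ⟨o, hoO, he⟩ := he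
        exact (hWa o hoO).2 e he
      · rintro ⟨W', ⟨Wa, hWa, rfl⟩, hWz⟩ o hoO
        exact ⟨Wa o, hWa o hoO, fun e he => hWz e (mem_biUnion.2 ⟨o, hoO, he⟩)⟩

end Pool.Agent.T9h75.WX
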