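import Pool.Agent.T9h75.WT.HardO
import Pool.Agent.T9h75.WX.Core

set_option autoImplicit false
set_option linter.unusedSectionVars false

namespace Pool.Agent.T9h75.WX

open Finset Pool.Agent.T9h16 Pool.Agent.T9h75.WH Pool.Agent.T9h75.WT
open scoped Classical

/-- Hardness of the tree functions of odd level. -/
theorem hard_odd (k h r : ℕ) (hk : 2 ≤ k) (hh : 1 ≤ h) : ∃ K, ∀ q ≥ K, ∀ s, s ≤ q ^ (k - 1) →
    ∀ M N B, 0 < M → M ≤ N → 4 * N < 2 ^ B → (4 * (B * k)) ^ (2 * k) ≤ q →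
    ∀ (β Ψ : Type) [Fintype Ψ] (Fψ : Ψ → Set β → Prop), (∀ ψ, KC (BfO h) M r (Fψ ψ)) →
      Fintype.card Ψ + s ≤ 2 * N →
      ∀ Acc : (β → Prop) → Prop, (∀ v, Acc v ↔ ∃ ψ, Fψ ψ v) →
        Hard 1 (TT (q := q) (GO (k := k) (w := q) (n := q)) r) s Acc := by
  obtain ⟨b, hb⟩ : ∃ b, b = 2 * k ^ 2 := ⟨_, rfl⟩
  obtain ⟨a, ha⟩ : ∃ a, a = k ^ (k * k) := ⟨_, rfl⟩
  obtain ⟨α, hα⟩ : ∃ α, α = 4 + b * (1 + k) := ⟨_, rfl⟩
  obtain ⟨γ, hγ⟩ : ∃ γ, γ = 2 * k ^ 2 + 2 * k * (r + 2) * b := ⟨_, rfl⟩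
  have hkk : 1 ≤ k * k := Nat.mul_pos (by omega) (by omega)
  have hb1 : 1 ≤ b := by
    rw [hb]
    exact Nat.mul_pos (by norm_num) (Nat.pow_pos (by omega))
  have ha1 : 1 ≤ a := by rw [ha]; exact Nat.pow_pos (by omega)
  obtain ⟨A₁, hA₁⟩ := asym 2 (2 * k * (k + r)) 1 1
  obtain ⟨A₂, hA₂⟩ := asym α γ 1 (2 * h * (a * (k * k) ^ 2 * b))
  obtain ⟨A₃, hA₃⟩ := asym α γ k (4 * (k + 1) * (a * (k * k) ^ 2 * b) ^ k)
  obtain ⟨A₀, hA₀⟩ : ∃ A₀, A₀ = A₁ + A₂ + A₃ + 16 * 2 ^ (2 * k ^ 2) * (k * k) ^ (b + 1) + 1 :=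
    ⟨_, rfl⟩
  refine ⟨A₀ ^ (2 * k) + 1, fun q hq s hs M N B hM hMN hB hqB β Ψ _ Fψ hFψ hΨ Acc hAcc => ?_⟩
  have h2k : 2 * k ≠ 0 := by omega
  have hA₀1 : 1 ≤ A₀ := by omega
  have hq0 : A₀ ^ (2 * k) ≤ q := by omega
  have hq1 : 1 ≤ q := by omega
  have hA₀q : A₀ ≤ q := (Nat.le_self_pow h2k A₀).trans hq0
  obtain ⟨A, hAdef⟩ : ∃ A, A = Nat.findGreatest (fun A => A ^ (2 * k) ≤ q) q := ⟨_, rfl⟩
  have hAA₀ : A₀ ≤ A := by
    rw [hAdef]
    exact Nat.le_findGreatest hA₀q hq0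
  have hBA : 4 * (B * k) ≤ A := by
    rw [hAdef]
    exact Nat.le_findGreatest ((Nat.le_self_pow h2k _).trans hqB) hqB
  have hA1 : 1 ≤ A := hA₀1.trans hAA₀
  have hAq : A ^ (2 * k) ≤ q := by
    have := Nat.findGreatest_spec (P := fun A => A ^ (2 * k) ≤ q) hA₀q hq0
    rw [← hAdef] at this
    exact this
  have hAq' : A ≤ q := (Nat.le_self_pow h2k A).trans hAq
  have hqA : q < (A + 1) ^ (2 * k) := by
    by_cases hlt : A + 1 ≤ q
    · have := Nat.findGreatest_is_greatest (P := fun A => A ^ (2 * k) ≤ q) (n := q) (k := A + 1)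
        (by rw [← hAdef]; omega) hlt
      simpa using this
    · have := Nat.le_self_pow h2k (A + 1)
      omega
  obtain ⟨L, hL⟩ : ∃ L, L = Nat.clog 2 (A + 1) := ⟨_, rfl⟩
  have hAL : A + 1 ≤ 2 ^ L := by
    rw [hL]
    exact Nat.le_pow_clog (by norm_num) _
  have e1 := hA₁ A (by omega)
  have e2 := hA₂ A (by omega)
  have e3 := hA₃ A (by omega)
  rw [← hL] at e1 e2 e3
  have hqL : q ≤ 2 ^ (2 * k * L) := by
    calc q ≤ (A + 1) ^ (2 * k) := hqA.le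
      _ ≤ (2 ^ L) ^ (2 * k) := Nat.pow_le_pow_left hAL _
      _ = 2 ^ (2 * k * L) := by rw [← pow_mul]; congr 1; ring
  have hqk1 : q ^ k ≤ (A + 1) ^ (2 * k ^ 2) := by
    calc q ^ k ≤ ((A + 1) ^ (2 * k)) ^ k := Nat.pow_le_pow_left hqA.le _
      _ = _ := by rw [← pow_mul]; congr 1; ring
  have hqk2 : q ^ k ≤ 2 ^ (2 * k ^ 2 * L) := by
    refine hqk1.trans ((Nat.pow_le_pow_left hAL _).trans (le_of_eq ?_))
    rw [← pow_mul]
    congr 1
    ring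
  have hqk3 : q ^ k ≤ 2 ^ (2 * k ^ 2) * A ^ (2 * k ^ 2) := by
    refine hqk1.trans ?_
    rw [← mul_pow]
    exact Nat.pow_le_pow_left (by omega) _
  have hqkp : q ^ (k - 1) * q = q ^ k := by
    rw [← pow_succ]
    congr 1
    omega
  have hqk0 : 1 ≤ q ^ k := Nat.pow_pos hq1
  have hs1 : s + 1 ≤ 2 * q ^ (k - 1) := by
    have : 1 ≤ q ^ (k - 1) := Nat.pow_pos hq1
    omega
  have hs2 : s + 1 ≤ 2 * q ^ k := by
    refine hs1.trans (Nat.mul_le_mul_left _ ?_)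
    exact Nat.pow_le_pow_right hq1 (Nat.sub_le _ _)
  obtain ⟨r', hr'⟩ : ∃ r', r' = α + γ * L := ⟨_, rfl⟩
  rw [← hr'] at e2 e3
  have hr1 : 1 ≤ r' := by omega
  have hM' : 1 ≤ a * r' := Nat.mul_pos ha1 hr1
  obtain ⟨c, hc⟩ : ∃ c, c = a * r' * (k * k) ^ 2 * b := ⟨_, rfl⟩
  have hc1 : 1 ≤ c := by
    rw [hc]
    exact Nat.mul_pos (Nat.mul_pos hM' (Nat.pow_pos hkk)) hb1
  have hQne : Nonempty ((Fin k × Fin q → Fin A) × (Fin q → Fin k)) :=
    ⟨(fun _ => ⟨0, hA1⟩, fun _ => ⟨0, by omega⟩)⟩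
  have hCPc : ∀ r : ℕ, Fintype.card (CP q r) = q ^ (r + 1) := by
    intro r
    induction r with
    | zero =>
      rw [zero_add, pow_one]
      exact Fintype.card_fin q
    | succ r ih =>
      have : Fintype.card (CP q (r + 1)) = Fintype.card (Fin q × CP q r) := rfl
      rw [this, Fintype.card_prod, Fintype.card_fin, ih, pow_succ q (r + 1), mul_comm]
  refine core (q := q) (k := k) (w := q) (A₀ := A) (posV := posO) (negV := negO (A := A))
    (A := parO k q q (k * k) c hk hkk hc1) (G := GO) (χ := fun v => v.1) hq1 ⟨⟨0, hq1⟩⟩ hQne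
    ?_ ?_ ?_ hM hMN hB ?_ (δ := 1) (c₁ := c) le_rfl (le_of_eq (one_mul c)) ?_
    (fun W => W.card ≤ k * k ∧ ∃ x₀, ∀ e ∈ W, e.2.1.1 ≠ x₀)
    (fun W => W.card ≤ k * k ∧ ∃ x₀, ∀ e ∈ W, e.2.1.1 ≠ x₀)
    ?_ ?_ ?_ ?_ (BsO (h * c)) ?_ ?_
    (fun E 𝒲 𝒞 z => ∀ F ∈ 𝒞, ∃ e ∈ F, e ∈ z) ?_ ?_ ?_ (BfO h) ?_ ?_ Fψ hFψ hΨ hAcc
  · exact fun φ v => ⟨v, fun x => ⟨rfl, rfl⟩⟩
  · rintro φ z z' hz ⟨l, hl⟩
    exact ⟨l, fun x => hz (hl x)⟩
  · rintro φ v ⟨l, hl⟩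
    refine ⟨v.2 l, fun hcon => hl (v.2 l) ⟨hcon, rfl⟩⟩
  · -- the number of columns
    calc 8 * B ≤ 4 * (B * k) := by
          have := Nat.mul_le_mul_left B hk
          omega
      _ ≤ A := hBA
      _ ≤ q := hAq'
  · -- positive errors
    intro 𝒞 hC
    have h1 := card_badO (D := CP q r) (A := A) hk hq1 hq1 le_rfl hkk hc1 𝒞 hC
    have hcond : 2 * (s + 1) * ((k + 1) * c ^ k) ≤ q ^ k := by
      calc 2 * (s + 1) * ((k + 1) * c ^ k) ≤ 2 * (2 * q ^ (k - 1)) * ((k + 1) * c ^ k) :=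
            Nat.mul_le_mul_right _ (Nat.mul_le_mul_left _ hs1)
        _ = q ^ (k - 1) * (4 * (k + 1) * (a * (k * k) ^ 2 * b) ^ k * r' ^ k) := by
            have : c = (a * (k * k) ^ 2 * b) * r' := by rw [hc]; ring
            rw [this, mul_pow _ r' k]
            ring
        _ ≤ q ^ (k - 1) * q := Nat.mul_le_mul_left _ (e3.trans hAq')
        _ = q ^ k := hqkp
    generalize (univ.filter ((baseSys (CP q r) posO negO
      (parO k q q (k * k) c hk hkk hc1)).BadP 𝒞)).card = X at *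
    generalize Fintype.card ((Fin k → Fin q) × (CP q r → Fin q)) = Y at *
    refine Nat.le_of_mul_le_mul_right ?_ hqk0
    calc X * (2 * (s + 1)) * q ^ k = (X * q ^ k) * (2 * (s + 1)) := by ring
      _ ≤ ((k + 1) * c ^ k * Y) * (2 * (s + 1)) := Nat.mul_le_mul_right _ h1
      _ = Y * (2 * (s + 1) * ((k + 1) * c ^ k)) := by ring
      _ ≤ Y * q ^ k := Nat.mul_le_mul_left _ hcond
  · -- pulling back
    rintro κ' W ⟨hW, x₀, hx₀⟩
    refine ⟨(card_pull _ _).trans hW, x₀, fun e he => ?_⟩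
    exact hx₀ _ ((mem_pull _ _ _).1 he)
  · -- at most one term
    intro W 𝒯 h𝒯 hW' hWe
    rcases Nat.eq_zero_or_pos 𝒯.card with h0 | h0
    · rw [card_eq_zero] at h0
      have hW0 : W = ∅ := by
        apply eq_empty_of_forall_notMem
        intro e he
        obtain ⟨W', hW'', -⟩ := (hWe e).1 he
        rw [h0] at hW''
        exact absurd hW'' (notMem_empty _)
      rw [hW0]
      exact ⟨by simp, ⟨0, by omega⟩, fun e he => absurd he (notMem_empty _)⟩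
    · obtain ⟨W', hW''⟩ := card_eq_one.1 (le_antisymm h𝒯 h0)
      have hWW : W = W' := by
        ext e
        rw [hWe, hW'']
        simp
      rw [hWW]
      obtain ⟨h1, x₀, h2⟩ := hW' W' (by rw [hW'']; exact mem_singleton_self _)
      exact ⟨h1, x₀, fun e he => h2 e.2 ((@mem_image _ _ (_) _ _ _).2 ⟨e, he, rfl⟩)⟩
  · -- negative errors
    intro 𝒲 hW
    have h1 := card_badNO (D := CP q r) (M := a * r') (b := b) (a := a) hk hA1 hkk hc1
      (le_of_eq hc.symm) (le_of_eq ha.symm) 𝒲 hW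
    have hcard : Fintype.card (CP q r × (Fin k × Fin q)) + 1 ≤ 2 ^ (1 + k) * q ^ (r + 2) := by
      rw [Fintype.card_prod, Fintype.card_prod, Fintype.card_fin, Fintype.card_fin, hCPc]
      have c1 : k ≤ 2 ^ k := Nat.lt_two_pow_self.le
      have c2 : 1 ≤ 2 ^ k * q ^ (r + 2) := Nat.mul_pos (Nat.pow_pos (by norm_num)) (Nat.pow_pos hq1)
      have c3 : q ^ (r + 1) * (k * q) ≤ 2 ^ k * q ^ (r + 2) := by
        calc q ^ (r + 1) * (k * q) = k * q ^ (r + 2) := by ring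
          _ ≤ _ := Nat.mul_le_mul_right _ c1
      have c4 : 2 ^ (1 + k) * q ^ (r + 2) = 2 * (2 ^ k * q ^ (r + 2)) := by
        rw [pow_add]; ring
      omega
    have hcond1 : 8 * (s + 1) * (k * k) ^ (b + 1) ≤ A ^ (b + 1) := by
      calc 8 * (s + 1) * (k * k) ^ (b + 1)
          ≤ 8 * (2 * (2 ^ (2 * k ^ 2) * A ^ (2 * k ^ 2))) * (k * k) ^ (b + 1) :=
            Nat.mul_le_mul_right _ (Nat.mul_le_mul_left _ (hs2.trans (Nat.mul_le_mul_left _ hqk3)))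
        _ = A ^ (2 * k ^ 2) * (16 * 2 ^ (2 * k ^ 2) * (k * k) ^ (b + 1)) := by ring
        _ ≤ A ^ (2 * k ^ 2) * A := Nat.mul_le_mul_left _ (by omega)
        _ = A ^ (b + 1) := by rw [← pow_succ, hb]
    have hcond2 : 8 * (s + 1) * (Fintype.card (CP q r × (Fin k × Fin q)) + 1) ^ b *
        (a - 1) ^ (a * r') ≤ a ^ (a * r') := by
      have c3 : 8 * (s + 1) * (Fintype.card (CP q r × (Fin k × Fin q)) + 1) ^ b ≤ 2 ^ r' := by
        calc 8 * (s + 1) * (Fintype.card (CP q r × (Fin k × Fin q)) + 1) ^ b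
            ≤ 8 * (2 * 2 ^ (2 * k ^ 2 * L)) * (2 ^ (1 + k) * (2 ^ (2 * k * L)) ^ (r + 2)) ^ b :=
              Nat.mul_le_mul (Nat.mul_le_mul_left _ (hs2.trans (Nat.mul_le_mul_left _ hqk2)))
                (Nat.pow_le_pow_left (hcard.trans (Nat.mul_le_mul_left _
                  (Nat.pow_le_pow_left hqL _))) _)
          _ = 2 ^ r' := by
              rw [hr', hα, hγ, mul_pow, ← pow_mul, ← pow_mul, ← pow_mul]
              have : (4 + b * (1 + k)) + (2 * k ^ 2 + 2 * k * (r + 2) * b) * L =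
                  4 + (2 * k ^ 2 * L) + ((1 + k) * b + 2 * k * L * (r + 2) * b) := by ring
              rw [this, pow_add, pow_add, pow_add]
              ring
      calc _ ≤ 2 ^ r' * (a - 1) ^ (a * r') := Nat.mul_le_mul_right _ c3
        _ = ((a - 1) ^ a * 2) ^ r' := by rw [mul_pow, pow_mul]; ring
        _ ≤ (a ^ a) ^ r' := Nat.pow_le_pow_left (two_mul_pow_le a ha1) _
        _ = a ^ (a * r') := by rw [← pow_mul]
    have hpos : 0 < A ^ (b + 1) * a ^ (a * r') := Nat.mul_pos (Nat.pow_pos hA1) (Nat.pow_pos ha1)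
    generalize (univ.filter ((baseSys (CP q r) posO negO
      (parO k q q (k * k) c hk hkk hc1)).BadN 𝒲)).card = X at *
    generalize Fintype.card (CP q r → (Fin k × Fin q → Fin A) × (Fin q → Fin k)) = Y at *
    generalize (Fintype.card (CP q r × (Fin k × Fin q)) + 1) ^ b = Z at *
    generalize (a - 1) ^ (a * r') = a' at *
    generalize a ^ (a * r') = a'' at *
    generalize A ^ (b + 1) = A' at *
    generalize (k * k) ^ (b + 1) = k' at *
    refine Nat.le_of_mul_le_mul_right ?_ hpos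
    have hfin : 2 * (4 * (s + 1) * (k' * a'' + Z * A' * a')) ≤ 2 * (A' * a'') := by
      calc 2 * (4 * (s + 1) * (k' * a'' + Z * A' * a'))
          = (8 * (s + 1) * k') * a'' + A' * (8 * (s + 1) * Z * a') := by ring
        _ ≤ A' * a'' + A' * a'' :=
            Nat.add_le_add (Nat.mul_le_mul_right _ hcond1) (Nat.mul_le_mul_left _ hcond2)
        _ = _ := by ring
    calc X * (4 * (s + 1)) * (A' * a'') = (X * (A' * a'')) * (4 * (s + 1)) := by ring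
      _ ≤ ((k' * a'' + Z * A' * a') * Y) * (4 * (s + 1)) := Nat.mul_le_mul_right _ h1
      _ = Y * (4 * (s + 1) * (k' * a'' + Z * A' * a')) := by ring
      _ ≤ Y * (A' * a'') := Nat.mul_le_mul_left _ (by omega)
  · -- negativity
    refine cnt_NN (L := 2 + 2 * k * (k + r) * L) hA1 hq1 hQne (fun v => v.1)
      (fun φ => cnt_columnO hA1 φ) ?_ r 4 ?_
    · calc A ^ k * (2 + 2 * k * (k + r) * L) ≤ A ^ k * A := by
            apply Nat.mul_le_mul_left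
            simpa using e1
        _ ≤ A ^ k * A ^ k := Nat.mul_le_mul_left _ (Nat.le_self_pow (by omega) A)
        _ = A ^ (2 * k) := by rw [← pow_add]; congr 1; ring
        _ ≤ q := hAq
    · calc q ^ k * (q ^ r * 4) = 4 * q ^ (k + r) := by rw [pow_add]; ring
        _ ≤ 4 * (2 ^ (2 * k * L)) ^ (k + r) :=
            Nat.mul_le_mul_left _ (Nat.pow_le_pow_left hqL _)
        _ = 2 ^ (2 + 2 * k * (k + r) * L) := by
            rw [pow_add, ← pow_mul]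
            ring
  · rintro E f ⟨𝒞, -, hf⟩ z z' hz h1
    rw [hf] at h1 ⊢
    intro F hF
    obtain ⟨e, he, hez⟩ := h1 F hF
    exact ⟨e, he, hz hez⟩
  · intro φ E s' hs' f hf hacc
    have hcA : 2 * (h * c) ≤ A := by
      calc 2 * (h * c) = 2 * h * (a * (k * k) ^ 2 * b) * r' ^ 1 := by rw [hc]; ring
        _ ≤ A := e2
    exact base_odd (by omega) hA1 hB hBA hq1 (Nat.mul_pos hh hc1) (hcA.trans hAq') φ E s' hs' f hf
      hacc
  · rintro E 𝒲 𝒞 hmeet z ⟨W, hW, hWz⟩ F hF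
    obtain ⟨e, he, heW⟩ := hmeet W hW F hF
    exact ⟨e, he, hWz e heW⟩
  · exact fun E 𝒲 𝒞 _ z h => h
  · intro E 𝒲 𝒞 _ hC
    refine ⟨𝒞, fun F hF => (hC F hF).trans (Nat.le_mul_of_pos_left _ hh), fun z => Iff.rfl⟩
  · rintro F ⟨𝒪, -, ho⟩ v v' hv h1
    rw [ho] at h1 ⊢
    intro O hO
    obtain ⟨o, hoO, hov⟩ := h1 O hO
    exact ⟨o, hoO, hv hov⟩
  · rintro E 𝒲 𝒞 - hC F ⟨𝒪, hOh, ho⟩
    refine ⟨{F' | ∃ O ∈ 𝒪, ∃ Fa : β → Finset E, (∀ o ∈ O, Fa o ∈ 𝒞 o) ∧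
      F' = O.biUnion Fa}, ?_, ?_⟩
    · rintro F' ⟨O, hO, Fa, hFa, rfl⟩
      refine card_biUnion_le.trans ?_
      calc ∑ o ∈ O, (Fa o).card ≤ ∑ _o ∈ O, c :=
            sum_le_sum fun o hoO => hC o _ (hFa o hoO)
        _ = O.card * c := by rw [sum_const, smul_eq_mul]
        _ ≤ h * c := Nat.mul_le_mul_right _ (hOh O hO)
    · intro z
      change F {b | ∀ F ∈ 𝒞 b, ∃ e ∈ F, e ∈ z} ↔ _
      rw [ho]
      constructor
      · rintro h1 F' ⟨O, hO, Fa, hFa, rfl⟩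
        obtain ⟨o, hoO, hoz⟩ := h1 O hO
        obtain ⟨e, he, hez⟩ := hoz _ (hFa o hoO)
        exact ⟨e, mem_biUnion.2 ⟨o, hoO, he⟩, hez⟩
      · intro h1 O hO
        by_contra hcon
        have hcon' : ∀ o, ∃ F : Finset E, o ∈ O → F ∈ 𝒞 o ∧ ∀ e ∈ F, e ∉ z := by
          intro o
          by_cases hoO : o ∈ O
          · have : ¬ ∀ F ∈ 𝒞 o, ∃ e ∈ F, e ∈ z := fun h => hcon ⟨o, hoO, h⟩
            push Not at this
            obtain ⟨F, hF, hFz⟩ := this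
            exact ⟨F, fun _ => ⟨hF, hFz⟩⟩
          · exact ⟨∅, fun h => absurd h hoO⟩
        choose Fa hFa using hcon'
        obtain ⟨e, he, hez⟩ := h1 _ ⟨O, hO, Fa, fun o hoO => (hFa o hoO).1, rfl⟩
        rw [mem_biUnion] at he
        obtain ⟨o, hoO, he⟩ := he
        exact (hFa o hoO).2 e he hez

end Pool.Agent.T9h75.WX
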