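import Pool.Agent.T9h75.WH.Param
import Pool.Agent.T9h75.WT.Accept

set_option autoImplicit false
set_option linter.unusedSectionVars false

namespace Pool.Agent.T9h75.WX

open Finset Pool.Agent.T9h16 Pool.Agent.T9h75.WH
open scoped Classical

/-- The choice of the parameters. -/
theorem exists_params' (d c e k D K₀ T : ℕ) (he : 1 ≤ e) (hk : c * e + 2 ≤ k) :
    ∃ m₀, ∀ m ≥ m₀, ∃ q B B₁, 2 ≤ m ∧ K₀ ≤ q ∧ 1 ≤ q ∧ T ≤ q ∧
      (K₀ + 1) * m ^ c ≤ q ^ (k - 1) ∧ 4 * m ^ D < 2 ^ B ∧ 8 * B ≤ q ∧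
      (4 * (B * k)) ^ (2 * k) ≤ q ∧ m ^ d ≤ 2 ^ B₁ ∧ 1 ≤ B₁ ∧
      2 * ((k + T + 1) * (2 * B₁ + 1)) ≤ m ∧ 4 * k * q ≤ m ∧ q ^ e ≤ m := by
  have hE1 : e ≠ 0 := by omega
  obtain ⟨C₀, hC₀⟩ : ∃ C₀, C₀ = 8 * k := ⟨_, rfl⟩
  have hC₀1 : 1 ≤ C₀ := by omega
  obtain ⟨m₁, hm₁⟩ := asym 3 D e ((C₀ * 8) ^ e)
  obtain ⟨m₂, hm₂⟩ := asym 3 D (2 * k * e) (C₀ ^ e * (4 * k) ^ (2 * k * e))
  obtain ⟨m₃, hm₃⟩ := asym 3 (2 * d) 1 (2 * (k + T + 1))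
  obtain ⟨x₁, hx₁⟩ : ∃ x, x = (C₀ * (C₀ ^ (e * c) * (K₀ + 1))) ^ e := ⟨_, rfl⟩
  obtain ⟨x₂, hx₂⟩ : ∃ x, x = (C₀ * T) ^ e := ⟨_, rfl⟩
  obtain ⟨x₃, hx₃⟩ : ∃ x, x = (C₀ * 2) ^ e := ⟨_, rfl⟩
  obtain ⟨x₄, hx₄⟩ : ∃ x, x = (C₀ * K₀) ^ e := ⟨_, rfl⟩
  refine ⟨m₁ + m₂ + m₃ + x₁ + x₂ + x₃ + x₄ + C₀ + 3, fun m hm => ?_⟩
  obtain ⟨L, hL⟩ : ∃ L, L = Nat.clog 2 (m + 1) := ⟨_, rfl⟩
  have hmL : m ≤ 2 ^ L := by
    have := Nat.le_pow_clog (b := 2) (by norm_num) (m + 1)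
    rw [hL]
    omega
  have e1 := hm₁ m (by omega)
  have e2 := hm₂ m (by omega)
  have e3 := hm₃ m (by omega)
  rw [← hL] at e1 e2 e3
  have hex : ∃ q, m ≤ (C₀ * q) ^ e :=
    ⟨m, (Nat.le_mul_of_pos_left m hC₀1).trans (Nat.le_self_pow hE1 _)⟩
  obtain ⟨q, hq⟩ : ∃ q, q = Nat.find hex := ⟨_, rfl⟩
  have hq1 : m ≤ (C₀ * q) ^ e := by
    rw [hq]
    exact Nat.find_spec hex
  have hlow : ∀ x, (C₀ * x) ^ e ≤ m → x ≤ q := by
    intro x hx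
    have h1 := (Nat.pow_le_pow_iff_left hE1).1 (hx.trans hq1)
    exact Nat.le_of_mul_le_mul_left h1 hC₀1
  have hq2 : 2 ≤ q := hlow 2 (by rw [← hx₃]; omega)
  have hq3 : (C₀ * (q - 1)) ^ e < m := by
    have := Nat.find_min hex (m := q - 1) (by rw [← hq]; omega)
    omega
  have hq4 : C₀ * (q - 1) < m := lt_of_le_of_lt (Nat.le_self_pow hE1 _) hq3
  refine ⟨q, 3 + D * L, 1 + d * L, by omega, ?_, by omega, ?_, ?_, ?_, ?_, ?_, ?_, by omega, ?_,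
    ?_, ?_⟩
  · exact hlow K₀ (by rw [← hx₄]; omega)
  · exact hlow T (by rw [← hx₂]; omega)
  · have h1 : C₀ ^ (e * c) * (K₀ + 1) ≤ q := hlow _ (by rw [← hx₁]; omega)
    calc (K₀ + 1) * m ^ c ≤ (K₀ + 1) * ((C₀ * q) ^ e) ^ c :=
          Nat.mul_le_mul_left _ (Nat.pow_le_pow_left hq1 _)
      _ = (C₀ ^ (e * c) * (K₀ + 1)) * q ^ (e * c) := by rw [← pow_mul, mul_pow]; ring
      _ ≤ q * q ^ (e * c) := Nat.mul_le_mul_right _ h1
      _ = q ^ (e * c + 1) := by rw [pow_succ, mul_comm]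
      _ ≤ q ^ (k - 1) := by
          apply Nat.pow_le_pow_right (by omega)
          have : e * c = c * e := mul_comm e c
          omega
  · calc 4 * m ^ D ≤ 4 * (2 ^ L) ^ D := Nat.mul_le_mul_left _ (Nat.pow_le_pow_left hmL _)
      _ < 8 * (2 ^ L) ^ D := Nat.mul_lt_mul_of_pos_right (by norm_num)
          (Nat.pow_pos (Nat.pow_pos (by norm_num)))
      _ = 2 ^ (3 + D * L) := by rw [pow_add, ← pow_mul, mul_comm D L]; norm_num
  · exact hlow (8 * (3 + D * L)) (by rw [← mul_assoc, mul_pow]; exact e1)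
  · have h2 : 4 * ((3 + D * L) * k) = 4 * k * (3 + D * L) := by ring
    rw [h2]
    apply hlow
    rw [mul_pow, ← pow_mul, mul_pow, ← mul_assoc]
    exact e2
  · calc m ^ d ≤ (2 ^ L) ^ d := Nat.pow_le_pow_left hmL _
      _ = 2 ^ (d * L) := by rw [← pow_mul, mul_comm]
      _ ≤ 2 ^ (1 + d * L) := Nat.pow_le_pow_right (by norm_num) (by omega)
  · have h2 : 2 * (k + T + 1) * (3 + 2 * d * L) ^ 1 = 2 * ((k + T + 1) * (2 * (1 + d * L) + 1)) := by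
      ring
    omega
  · have h1 : C₀ * q = C₀ * (q - 1) + C₀ := by
      obtain ⟨u, rfl⟩ : ∃ u, q = u + 1 := ⟨q - 1, by omega⟩
      rw [Nat.add_sub_cancel]
      ring
    have h2 : 2 * (4 * k * q) = C₀ * q := by rw [hC₀]; ring
    omega
  · refine (Nat.pow_le_pow_left ?_ e).trans hq3.le
    calc q ≤ 2 * (q - 1) := by omega
      _ ≤ C₀ * (q - 1) := Nat.mul_le_mul_right _ (by omega)

/-- From the number of blocks to the final bound. -/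
theorem final_bound' {n m k k' q T e X : ℕ} (he : 1 ≤ e) (hk : 1 ≤ k) (hkk : k ≤ k') (hq : 1 ≤ q)
    (hnm : m ≤ n) (h4 : 4 * k * q ≤ m) (hT : q ^ e ≤ m)
    (h : n / (2 * (k * q)) * (m / (2 * q)) ^ T + 1 ≤ X) :
    (n * m ^ T) ^ e < m ^ (T + 1) * (4 ^ (T + 1) * k' * X) ^ e := by
  have hq4 : 4 * q ≤ 4 * k * q := by
    rw [mul_assoc]
    exact Nat.mul_le_mul_left _ (Nat.le_mul_of_pos_left _ hk)
  have h1 : m ≤ 4 * q * (m / (2 * q)) := by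
    have h5 : 0 < 2 * q := by omega
    have h6 := Nat.lt_mul_div_succ m h5
    have h7 : 1 ≤ m / (2 * q) := (Nat.one_le_div_iff h5).2 (by omega)
    calc m ≤ 2 * q * (m / (2 * q) + 1) := h6.le
      _ ≤ 2 * q * (m / (2 * q) + m / (2 * q)) := Nat.mul_le_mul_left _ (by omega)
      _ = 4 * q * (m / (2 * q)) := by ring
  have h2 : n ≤ 4 * k * q * (n / (2 * (k * q))) := by
    have h5 : 0 < 2 * (k * q) := Nat.mul_pos (by norm_num) (Nat.mul_pos hk hq)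
    have h6 := Nat.lt_mul_div_succ n h5
    have h7 : 1 ≤ n / (2 * (k * q)) := (Nat.one_le_div_iff h5).2 (by
      have : 4 * k * q = 2 * (k * q) + 2 * (k * q) := by ring
      omega)
    calc n ≤ 2 * (k * q) * (n / (2 * (k * q)) + 1) := h6.le
      _ ≤ 2 * (k * q) * (n / (2 * (k * q)) + n / (2 * (k * q))) := Nat.mul_le_mul_left _ (by omega)
      _ = 4 * k * q * (n / (2 * (k * q))) := by ring
  have h3 : n * m ^ T < 4 ^ (T + 1) * k * q ^ (T + 1) * X := by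
    have hc : 0 < 4 ^ (T + 1) * k * q ^ (T + 1) :=
      Nat.mul_pos (Nat.mul_pos (Nat.pow_pos (by norm_num)) hk) (Nat.pow_pos hq)
    calc n * m ^ T ≤ (4 * k * q * (n / (2 * (k * q)))) * (4 * q * (m / (2 * q))) ^ T :=
          Nat.mul_le_mul h2 (Nat.pow_le_pow_left h1 _)
      _ = 4 ^ (T + 1) * k * q ^ (T + 1) * (n / (2 * (k * q)) * (m / (2 * q)) ^ T) := by
          rw [mul_pow, mul_pow, pow_succ, pow_succ]
          ring
      _ < 4 ^ (T + 1) * k * q ^ (T + 1) * X := Nat.mul_lt_mul_of_pos_left (by omega) hc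
  calc (n * m ^ T) ^ e < (4 ^ (T + 1) * k * q ^ (T + 1) * X) ^ e :=
        Nat.pow_lt_pow_left h3 (by omega)
    _ = (q ^ e) ^ (T + 1) * (4 ^ (T + 1) * k * X) ^ e := by
        rw [← pow_mul, mul_comm e (T + 1), pow_mul, ← mul_pow]
        congr 1
        ring
    _ ≤ m ^ (T + 1) * (4 ^ (T + 1) * k' * X) ^ e :=
        Nat.mul_le_mul (Nat.pow_le_pow_left hT _)
          (Nat.pow_le_pow_left (Nat.mul_le_mul_right _ (Nat.mul_le_mul_left _ hkk)) _)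

/-- The vertices fit. -/
theorem fits {n m k q T : ℕ} (hT : T ≤ q) (hnm : m ≤ n) :
    n / (2 * (k * q)) * (k * q) + T * (m / (2 * q)) ≤ n := by
  have h1 : n / (2 * (k * q)) * (k * q) * 2 ≤ n := by
    calc n / (2 * (k * q)) * (k * q) * 2 = n / (2 * (k * q)) * (2 * (k * q)) := by ring
      _ ≤ n := Nat.div_mul_le_self _ _
  have h2 : T * (m / (2 * q)) * 2 ≤ n := by
    calc T * (m / (2 * q)) * 2 ≤ q * (m / (2 * q)) * 2 :=
          Nat.mul_le_mul_right _ (Nat.mul_le_mul_right _ hT)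
      _ = m / (2 * q) * (2 * q) := by ring
      _ ≤ m := Nat.div_mul_le_self _ _
      _ ≤ n := hnm
  omega

end Pool.Agent.T9h75.WX
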