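import Pool.Agent.T9h75.WX.Gadget

set_option autoImplicit false
set_option linter.unusedSectionVars false

namespace Pool.Agent.T9h75.WX

open Finset Pool.Agent.T9h16 Pool.Agent.T9h75.WT
open Pool.Agent.T9h75.WH (Emb)
open scoped Classical

section
variable {p₀ k T q p n m B : ℕ}

/-- The vertex `v` selects the value `Q` for the block coordinate `j`. -/
def AS (e : VV p₀ k q T p ↪ Fin n) (v : Fin n) (j : ℕ) (Q : Fin p) : Prop :=
  ∃ h : j < T, e (Sum.inr (⟨j, h⟩, Q)) = v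

/-- The selection made by a set of vertices. -/
theorem AS_SX (e : VV p₀ k q T p ↪ Fin n) (P : Fin p₀) (φ : Fin k → Fin q)
    (σ : Fin T → Fin p) (hT : 0 < T) : ∃ sel : ℕ → Fin p, (∀ j : Fin T, sel j.val = σ j) ∧
      ∀ j < T, ∀ Q, (∃ v, v ∈ SX e P φ σ ∧ AS e v j Q) ↔ Q = sel j := by
  refine ⟨fun j => if h : j < T then σ ⟨j, h⟩ else σ ⟨0, hT⟩, fun j => dif_pos j.isLt,
    fun j hj Q => ?_⟩
  change _ ↔ Q = (if h : j < T then σ ⟨j, h⟩ else σ ⟨0, hT⟩)
  rw [dif_pos hj]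
  constructor
  · rintro ⟨v, hv, h, rfl⟩
    exact mem_SX_sel.1 hv
  · rintro rfl
    exact ⟨_, mem_SX_sel.2 rfl, hj, rfl⟩

end

section even
variable {p₀ k q p n m B r : ℕ}

/-- The literal of a row (even level). -/
def YE (e : VV p₀ k q (lv r + 1) p ↪ Fin n)
    (y : Fin p₀ × (Fin (lv r + 1) → Fin p) → Set (DC q r × (Fin k × Fin q))) (v : Fin n)
    (w : Fin (lv r + 1) → Fin p × Fin q) : Prop :=
  ∃ P R, e (Sum.inl (P, R)) = v ∧ (dd r (fun l => (w l).2), R) ∈ y (P, fun l => (w l).1)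

/-- The variables of the instance written by the blocks (even level). -/
def XE' (e : VV p₀ k q (lv r + 1) p ↪ Fin n) (x₀ : Fin k)
    (dec : Fin m → GE' k (lv r + 1) B ⊕ (Fin p × Fin q))
    (y : Fin p₀ × (Fin (lv r + 1) → Fin p) → Set (DC q r × (Fin k × Fin q)))
    (a : (Fin 1 → Fin n) × (Fin (lv r + 1) → Fin m)) : Prop :=
  mE r (fun γ => memE' e x₀ γ (a.1 0)) (AS e (a.1 0)) False (YE e y (a.1 0)) (fun l => dec (a.2 l))

/-- The embedding of the blocks (even level). -/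
def embE' (e : VV p₀ k q (lv r + 1) p ↪ Fin n) (x₀ : Fin k)
    (dec : Fin m → GE' k (lv r + 1) B ⊕ (Fin p × Fin q)) :
    Emb ((Fin 1 → Fin n) × (Fin (lv r + 1) → Fin m)) (Fin p₀ × (Fin (lv r + 1) → Fin p))
      (DC q r × (Fin k × Fin q)) where
  X := XE' e x₀ dec
  mono := by
    intro y y' h a
    exact mE_mono r _ _ _ (fun w ⟨P, R, hR, h1⟩ => ⟨P, R, hR, h _ h1⟩) _
  leaf := by
    intro a
    unfold XE'
    by_cases hrow : ∃ P R, e (Sum.inl (P, R)) = a.1 0
    · obtain ⟨P, R, hR⟩ := hrow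
      have hY : ∀ y w, YE e y (a.1 0) w ↔
          (dd r (fun l => (w l).2), R) ∈ y (P, fun l => (w l).1) := by
        intro y w
        constructor
        · rintro ⟨P', R', hR', h1⟩
          rw [← hR] at hR'
          have h2 : (P', R') = (P, R) := Sum.inl_injective (e.injective hR')
          rw [Prod.mk.injEq] at h2
          rw [h2.1, h2.2] at h1
          exact h1
        · exact fun h1 => ⟨P, R, hR, h1⟩
      rcases mE_leaf r (fun γ => memE' (B := B) e x₀ γ (a.1 0)) (AS e (a.1 0)) False (by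
          rintro j Q ⟨h, h1⟩
          rw [← hR] at h1
          exact absurd (e.injective h1) (by simp)) (fun h => h) (fun l => dec (a.2 l)) with
        ⟨c, hc⟩ | ⟨w, hw⟩
      · exact Or.inl ⟨c, fun y => hc _⟩
      · exact Or.inr ⟨_, _, fun y => (hw _).trans (hY y w)⟩
    · refine Or.inl ⟨mE r (fun γ => memE' e x₀ γ (a.1 0)) (AS e (a.1 0)) False (fun _ => False)
        (fun l => dec (a.2 l)), fun y => ?_⟩
      have : YE e y (a.1 0) = fun _ => False := by
        funext w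
        refine propext ⟨?_, fun h => h.elim⟩
        rintro ⟨P, R, hR, -⟩
        exact hrow ⟨P, R, hR⟩
      rw [this]

theorem WSat_XE' (hq : 0 < q) (e : VV p₀ k q (lv r + 1) p ↪ Fin n) (x₀ : Fin k)
    (dec : Fin m → GE' k (lv r + 1) B ⊕ (Fin p × Fin q)) (hdec : Function.Surjective dec)
    (hp : p₀ ≤ 2 ^ B)
    (y : Fin p₀ × (Fin (lv r + 1) → Fin p) → Set (DC q r × (Fin k × Fin q))) :
    WSat (lv r + 1) 1 (k + (lv r + 1)) (XE' e x₀ dec y) ↔ ∃ P, TT GE r (y P) := by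
  have hodd : ¬ Even (lv r + 1) := by
    rw [lv_eq, Nat.not_even_iff_odd]
    exact odd_two_mul_add_one r
  have hΓ : Nonempty (GE' k (lv r + 1) B) := ⟨Sum.inl (Sum.inl x₀)⟩
  -- the value of a set of vertices
  have hval : ∀ S : Finset (Fin n), (Alt m (lv r + 1) true fun i =>
      (Even (lv r + 1) → ∀ a : Fin 1 → Fin n, (∀ l, a l ∈ S) → XE' e x₀ dec y (a, i)) ∧
      (¬ Even (lv r + 1) → ∃ a : Fin 1 → Fin n, (∀ l, a l ∈ S) ∧ XE' e x₀ dec y (a, i))) ↔
      AltX (GE' k (lv r + 1) B ⊕ (Fin p × Fin q)) (lv r + 1) true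
        (mE r (fun γ => ∃ v, v ∈ S ∧ memE' e x₀ γ v) (fun j Q => ∃ v, v ∈ S ∧ AS e v j Q)
          (∃ v, v ∈ S ∧ False) (fun w => ∃ v, v ∈ S ∧ YE e y v w)) := by
    intro S
    rw [← Alt_decX dec hdec]
    apply Alt_congr
    intro i
    rw [← mE_dist (fun v => v ∈ S) r (fun v γ => memE' e x₀ γ v) (fun v => AS e v)
      (fun _ => False) (fun v => YE e y v)]
    constructor
    · intro h
      obtain ⟨a, ha, h2⟩ := h.2 hodd
      exact ⟨a 0, ha 0, h2⟩
    · rintro ⟨v, hv, h2⟩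
      exact ⟨fun h => absurd h hodd, fun _ => ⟨fun _ => v, fun _ => hv, h2⟩⟩
  have hSX : ∀ P φ σ, (AltX (GE' k (lv r + 1) B ⊕ (Fin p × Fin q)) (lv r + 1) true
        (mE r (fun γ => ∃ v, v ∈ SX e P φ σ ∧ memE' e x₀ γ v)
          (fun j Q => ∃ v, v ∈ SX e P φ σ ∧ AS e v j Q)
          (∃ v, v ∈ SX e P φ σ ∧ False) (fun w => ∃ v, v ∈ SX e P φ σ ∧ YE e y v w))) ↔
      Out r fun d => GE φ {z | (d, z) ∈ y (P, σ)} := by
    intro P φ σ
    obtain ⟨sel, hsel, hA⟩ := AS_SX e P φ σ (by omega)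
    rw [mE_alt hΓ hq r _ _ _ _ sel hA, ← Alt_out]
    have hg : ∀ γ : GE' k (lv r + 1) B, ∃ v, v ∈ SX e P φ σ ∧ memE' e x₀ γ v :=
      (gadE' e x₀ hp _ (card_SX e P φ σ)).2 ⟨P, φ, σ, rfl⟩
    have hY : ∀ i : Fin (lv r + 1) → Fin q,
        (∃ v, v ∈ SX e P φ σ ∧ YE e y v fun l => (sel l.val, i l)) ↔
        GE φ {z | (dd r i, z) ∈ y (P, σ)} := by
      intro i
      constructor
      · rintro ⟨v, hv, P', R, rfl, h1⟩
        obtain ⟨rfl, h2⟩ := mem_SX_row.1 hv
        refine ⟨R.1, ?_⟩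
        rw [h2] at h1
        have h3 : (fun l : Fin (lv r + 1) => sel l.val) = σ := funext hsel
        change (dd r i, (R.1, φ R.1)) ∈ y (P', fun l => sel l.val) at h1
        rw [h3] at h1
        exact h1
      · rintro ⟨x, hx⟩
        refine ⟨_, mem_SX_row.2 ⟨rfl, rfl⟩, P, (x, φ x), rfl, ?_⟩
        have h3 : (fun l : Fin (lv r + 1) => sel l.val) = σ := funext hsel
        change (dd r i, (x, φ x)) ∈ y (P, fun l => sel l.val)
        rw [h3]
        exact hx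
    constructor
    · rintro ⟨-, ⟨v, -, h⟩ | h⟩
      · exact h.elim
      · exact (Alt_congr _ _ hY).1 h
    · intro h
      exact ⟨hg, Or.inr ((Alt_congr _ _ hY).2 h)⟩
  constructor
  · rintro ⟨S, hS, h⟩
    have h1 := (hval S).1 h
    obtain ⟨P, φ, σ, rfl⟩ := (gadE' e x₀ hp S hS).1 (mE_gadget hΓ r _ _ _ _ h1)
    exact ⟨(P, σ), φ, (hSX P φ σ).1 h1⟩
  · rintro ⟨⟨P, σ⟩, φ, h⟩
    exact ⟨SX e P φ σ, card_SX e P φ σ, (hval _).2 ((hSX P φ σ).2 h)⟩

end even

section odd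
variable {p₀ k q p n m B r : ℕ}

/-- The literal of a row (odd level). -/
def YO (e : VV p₀ k q (lv r + 2) p ↪ Fin n)
    (y : Fin p₀ × (Fin (lv r + 2) → Fin p) → Set (DC q r × ((Fin k × Fin q) × Fin q))) (v : Fin n)
    (w : Fin (lv r + 2) → Fin p × Fin q) : Prop :=
  ∀ P R, e (Sum.inl (P, R)) = v → ((de r fun l => (w l).2).1,
    (R, (de r fun l => (w l).2).2)) ∈ y (P, fun l => (w l).1)

/-- The variables of the instance written by the blocks (odd level). -/
def XO' (e : VV p₀ k q (lv r + 2) p ↪ Fin n)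
    (bl : GO' k (lv r + 2) B ⊕ (Fin p × Fin q) → Bool)
    (dec : Fin m → GO' k (lv r + 2) B ⊕ (Fin p × Fin q))
    (y : Fin p₀ × (Fin (lv r + 2) → Fin p) → Set (DC q r × ((Fin k × Fin q) × Fin q)))
    (a : (Fin 1 → Fin n) × (Fin (lv r + 2) → Fin m)) : Prop :=
  mO bl r (fun γ β => memO' e γ β (a.1 0)) (AS e (a.1 0)) True (YO e y (a.1 0))
    (fun l => dec (a.2 l))

/-- The embedding of the blocks (odd level). -/
def embO' (e : VV p₀ k q (lv r + 2) p ↪ Fin n)
    (bl : GO' k (lv r + 2) B ⊕ (Fin p × Fin q) → Bool)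
    (dec : Fin m → GO' k (lv r + 2) B ⊕ (Fin p × Fin q)) :
    Emb ((Fin 1 → Fin n) × (Fin (lv r + 2) → Fin m)) (Fin p₀ × (Fin (lv r + 2) → Fin p))
      (DC q r × ((Fin k × Fin q) × Fin q)) where
  X := XO' e bl dec
  mono := by
    intro y y' h a
    exact mO_mono bl r _ _ _ (fun w h1 P R hR => h _ (h1 P R hR)) _
  leaf := by
    intro a
    unfold XO'
    by_cases hrow : ∃ P R, e (Sum.inl (P, R)) = a.1 0
    · obtain ⟨P, R, hR⟩ := hrow
      have hY : ∀ y w, YO e y (a.1 0) w ↔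
          ((de r fun l => (w l).2).1, (R, (de r fun l => (w l).2).2)) ∈
            y (P, fun l => (w l).1) := by
        intro y w
        constructor
        · exact fun h1 => h1 P R hR
        · intro h1 P' R' hR'
          rw [← hR] at hR'
          have h2 : (P', R') = (P, R) := Sum.inl_injective (e.injective hR')
          rw [Prod.mk.injEq] at h2
          rw [h2.1, h2.2]
          exact h1
      rcases mO_leaf bl r (fun γ β => memO' (B := B) e γ β (a.1 0)) (AS e (a.1 0)) True (by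
          rintro j Q ⟨h, h1⟩
          rw [← hR] at h1
          exact absurd (e.injective h1) (by simp)) trivial (fun l => dec (a.2 l)) with
        ⟨c, hc⟩ | ⟨w, hw⟩
      · exact Or.inl ⟨c, fun y => hc _⟩
      · exact Or.inr ⟨_, _, fun y => (hw _).trans (hY y w)⟩
    · refine Or.inl ⟨mO bl r (fun γ β => memO' e γ β (a.1 0)) (AS e (a.1 0)) True (fun _ => True)
        (fun l => dec (a.2 l)), fun y => ?_⟩
      have : YO e y (a.1 0) = fun _ => True := by
        funext w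
        refine propext ⟨fun _ => trivial, fun _ P R hR => ?_⟩
        exact absurd ⟨P, R, hR⟩ hrow
      rw [this]

theorem WSat_XO' (hq : 0 < q) (e : VV p₀ k q (lv r + 2) p ↪ Fin n) (x₀ : Fin k)
    (bl : GO' k (lv r + 2) B ⊕ (Fin p × Fin q) → Bool) (hbl : Function.Surjective bl)
    (dec : Fin m → GO' k (lv r + 2) B ⊕ (Fin p × Fin q)) (hdec : Function.Surjective dec)
    (hB : 1 ≤ B) (hn : n ≤ 2 ^ B) (hp : p₀ ≤ 2 ^ B)
    (y : Fin p₀ × (Fin (lv r + 2) → Fin p) → Set (DC q r × ((Fin k × Fin q) × Fin q))) :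
    WSat (lv r + 2) 1 (k + (lv r + 2)) (XO' e bl dec y) ↔ ∃ P, TT GO r (y P) := by
  have heven : Even (lv r + 2) := by
    rw [lv_eq]
    exact ⟨r + 1, by ring⟩
  have hΓ : Nonempty (GO' k (lv r + 2) B) := ⟨Sum.inl (Sum.inl x₀, ⟨0, hB⟩)⟩
  -- the value of a set of vertices
  have hval : ∀ S : Finset (Fin n), (Alt m (lv r + 2) true fun i =>
      (Even (lv r + 2) → ∀ a : Fin 1 → Fin n, (∀ l, a l ∈ S) → XO' e bl dec y (a, i)) ∧
      (¬ Even (lv r + 2) → ∃ a : Fin 1 → Fin n, (∀ l, a l ∈ S) ∧ XO' e bl dec y (a, i))) ↔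
      AltX (GO' k (lv r + 2) B ⊕ (Fin p × Fin q)) (lv r + 2) true
        (mO bl r (fun γ β => ∀ v, v ∈ S → memO' e γ β v) (fun j Q => ∃ v, v ∈ S ∧ AS e v j Q)
          (∀ v, v ∈ S → True) (fun w => ∀ v, v ∈ S → YO e y v w)) := by
    intro S
    rw [← Alt_decX dec hdec]
    apply Alt_congr
    intro i
    rw [← mO_dist bl (fun v => v ∈ S) r (fun v γ β => memO' e γ β v) (fun v => AS e v)
      (fun _ => True) (fun v => YO e y v)]
    constructor
    · intro h v hv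
      exact h.1 heven (fun _ => v) fun _ => hv
    · intro h
      refine ⟨fun _ a ha => ?_, fun h' => absurd heven h'⟩
      exact h (a 0) (ha 0)
  have hSX : ∀ P φ σ, (AltX (GO' k (lv r + 2) B ⊕ (Fin p × Fin q)) (lv r + 2) true
        (mO bl r (fun γ β => ∀ v, v ∈ SX e P φ σ → memO' e γ β v)
          (fun j Q => ∃ v, v ∈ SX e P φ σ ∧ AS e v j Q)
          (∀ v, v ∈ SX e P φ σ → True) (fun w => ∀ v, v ∈ SX e P φ σ → YO e y v w))) ↔
      Out r fun d => GO φ {z | (d, z) ∈ y (P, σ)} := by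
    intro P φ σ
    obtain ⟨sel, hsel, hA⟩ := AS_SX e P φ σ (by omega)
    have h0 := Alt_out' (q := q) r
      fun c : DC q r × Fin q => ∀ x, (c.1, ((x, φ x), c.2)) ∈ y (P, σ)
    rw [mO_alt bl hbl hΓ hq r _ _ _ _ sel hA]
    have hg : ∀ γ : GO' k (lv r + 2) B, ∃ β, ∀ v, v ∈ SX e P φ σ → memO' e γ β v :=
      (gadO' e x₀ hB hn hp _ (card_SX e P φ σ)).2 ⟨P, φ, σ, rfl⟩
    have hY : ∀ i : Fin (lv r + 2) → Fin q,
        (∀ v, v ∈ SX e P φ σ → YO e y v fun l => (sel l.val, i l)) ↔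
        ∀ x, ((de r i).1, ((x, φ x), (de r i).2)) ∈ y (P, σ) := by
      intro i
      have h3 : (fun l : Fin (lv r + 2) => sel l.val) = σ := funext hsel
      constructor
      · intro h x
        have h1 := h _ (mem_SX_row.2 ⟨rfl, rfl⟩ : e (Sum.inl (P, (x, φ x))) ∈ SX e P φ σ) P
          (x, φ x) rfl
        change ((de r i).1, ((x, φ x), (de r i).2)) ∈ y (P, fun l => sel l.val) at h1
        rw [h3] at h1
        exact h1
      · rintro h v hv P' R rfl
        obtain ⟨rfl, h2⟩ := mem_SX_row.1 hv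
        change ((de r i).1, (R, (de r i).2)) ∈ y (P', fun l => sel l.val)
        rw [h3, h2]
        exact h R.1
    constructor
    · rintro ⟨-, -, h⟩
      exact h0.1 ((Alt_congr _ _ hY).1 h)
    · intro h
      exact ⟨hg, fun _ _ => trivial, (Alt_congr _ _ hY).2 (h0.2 h)⟩
  constructor
  · rintro ⟨S, hS, h⟩
    have h1 := (hval S).1 h
    obtain ⟨P, φ, σ, rfl⟩ := (gadO' e x₀ hB hn hp S hS).1 (mO_gadget bl hΓ r _ _ _ _ h1)
    exact ⟨(P, σ), φ, (hSX P φ σ).1 h1⟩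
  · rintro ⟨⟨P, σ⟩, φ, h⟩
    exact ⟨SX e P φ σ, card_SX e P φ σ, (hval _).2 ((hSX P φ σ).2 h)⟩

end odd

end Pool.Agent.T9h75.WX
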