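import Pool.Agent.T9h75.WX.Problem
import Pool.Agent.T9h75.WX.Chain
import Pool.Agent.T9h75.WX.Source
import Pool.Agent.T9h75.WX.Param
import Pool.Agent.T9h75.WX.HardE
import Pool.Agent.T9h75.WX.HardO

set_option autoImplicit false
set_option linter.unusedSectionVars false

namespace Pool.Agent.T9h75.WX

open Finset Pool.Agent.T9h16 Pool.Agent.T9h75.WT
open Pool.Agent.T9h75.WH (Emb)
open scoped Classical

theorem exists_surj' {m : ℕ} {Y : Type} [Fintype Y] (hY : Nonempty Y) (h : Fintype.card Y ≤ m) :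
    ∃ f : Fin m → Y, Function.Surjective f := by
  obtain ⟨i⟩ := Function.Embedding.nonempty_of_card_le (α := Y) (β := Fin m)
    (by rw [Fintype.card_fin]; exact h)
  exact ⟨Function.invFun i, Function.invFun_surjective i.injective⟩

theorem exists_embV {p₀ k q T p n : ℕ} (h : p₀ * (k * q) + T * p ≤ n) :
    Nonempty (VV p₀ k q T p ↪ Fin n) := by
  apply Function.Embedding.nonempty_of_card_le
  rw [Fintype.card_sum, Fintype.card_prod, Fintype.card_prod, Fintype.card_prod, Fintype.card_fin,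
    Fintype.card_fin, Fintype.card_fin, Fintype.card_fin, Fintype.card_fin, Fintype.card_fin]
  exact h

theorem sizes_bound' {N M m d c g D s : ℕ} (hm : 2 ≤ m) (hN : N ≤ m ^ d) (hM : M ≤ m ^ d)
    (hD : d * g + c + d = D) (hs : s ≤ m ^ c) :
    max M 1 ≤ m ^ D ∧ Fintype.card {S : Finset (Fin N) // S.card = g} + s ≤ 2 * m ^ D := by
  have h1 : ∀ x, x ≤ D → m ^ x ≤ m ^ D := fun x hx => Nat.pow_le_pow_right (by omega) hx
  refine ⟨?_, ?_⟩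
  · apply max_le
    · exact hM.trans (h1 _ (by omega))
    · exact Nat.one_le_pow _ _ (by omega)
  · have h2 : Fintype.card {S : Finset (Fin N) // S.card = g} ≤ m ^ (d * g) := by
      refine card_sets.trans ?_
      rw [pow_mul]
      exact Nat.pow_le_pow_left hN _
    have h3 := h1 (d * g) (by omega)
    have h4 := h1 c (by omega)
    omega

/-- A family of instances with many blocks, each of which is a hard problem. -/
def Blocks {α : Type} (Src : (α → Prop) → Prop) {β : Type} (Acc : (β → Prop) → Prop) (δ s : ℕ)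
    (Bd : ℕ → Prop) : Prop :=
  ∃ (ι : Type) (_ : Fintype ι) (E : Type) (F : Set E → Prop) (M : Emb α ι E),
    ¬ F ∅ ∧ Hard δ F s Acc ∧ (∀ y, Src (M.X y) ↔ ∃ i, F (y i)) ∧
    ∀ X, Fintype.card ι + 1 ≤ X → Bd X

theorem blocks_even (r ρ c d e k g δ : ℕ) (hδ : 1 ≤ δ) (he : 1 ≤ e)
    (hk : c * e + 2 ≤ k) : ∃ m₀, ∀ m ≥ m₀,
    ∀ n, m ≤ n → n ≤ m ^ d → ∀ N ≤ m ^ d, ∀ M ≤ m ^ d, ∀ s ≤ m ^ c,
    Blocks (WSat (n := n) (m := m) (lv r + 1) 1 (k + (lv r + 1)))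
      (WSat (n := N) (m := M) (lv r) ρ g) δ s
      fun X => (n * m ^ (lv r + 1)) ^ e <
        m ^ (lv r + 2) * (4 ^ (lv r + 2) * (k + (lv r + 1)) * X) ^ e := by
  obtain ⟨K, hK⟩ := hard_even k (g ^ ρ + 1) r δ (by omega) (by omega) hδ
  obtain ⟨D, hD⟩ : ∃ D, d * g + c + d = D := ⟨_, rfl⟩
  obtain ⟨m₀, hm₀⟩ := exists_params' d c e k D K (lv r + 1) he hk
  refine ⟨m₀, fun m hm n hmn hn N hN M hM s hs => ?_⟩
  obtain ⟨q, B, B₁, hm2, hqK, hq1, hqT, hsize, hB, h8B, -, hB₁, hB₁1, hfit, h4, hbd⟩ := hm₀ m hm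
  have hk1 : 1 ≤ k := by omega
  obtain ⟨p₀, hp₀⟩ : ∃ p₀, p₀ = n / (2 * (k * q)) := ⟨_, rfl⟩
  obtain ⟨p, hp⟩ : ∃ p, p = m / (2 * q) := ⟨_, rfl⟩
  have hp2 : p₀ ≤ 2 ^ B₁ := by
    rw [hp₀]
    exact (Nat.div_le_self _ _).trans (hn.trans hB₁)
  obtain ⟨f⟩ := exists_embV (p₀ := p₀) (k := k) (q := q) (T := lv r + 1) (p := p) (n := n)
    (by rw [hp₀, hp]; exact fits hqT hmn)
  have hpq : 2 * (p * q) ≤ m := by
    rw [hp]
    calc 2 * (m / (2 * q) * q) = m / (2 * q) * (2 * q) := by ring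
      _ ≤ m := Nat.div_mul_le_self _ _
  obtain ⟨dec, hdec⟩ := exists_surj' (m := m) (Y := GE' k (lv r + 1) B₁ ⊕ (Fin p × Fin q))
    ⟨Sum.inl (Sum.inl (Sum.inl ⟨0, hk1⟩))⟩ (by
    rw [Fintype.card_sum, Fintype.card_sum, Fintype.card_sum, Fintype.card_prod, Fintype.card_prod,
      Fintype.card_prod, Fintype.card_fin,
      Fintype.card_fin, Fintype.card_fin, Fintype.card_fin, Fintype.card_fin, Fintype.card_bool]
    have h1 : k + (lv r + 1) + k * (B₁ * 2) ≤ (k + (lv r + 1) + 1) * (2 * B₁ + 1) := by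
      have : (k + (lv r + 1) + 1) * (2 * B₁ + 1) =
          (k + (lv r + 1) + k * (B₁ * 2)) + ((lv r + 2) * (2 * B₁) + 1) := by ring
      omega
    omega)
  obtain ⟨hMN, hΨ⟩ := sizes_bound' (g := g) hm2 hN hM hD hs
  refine ⟨Fin p₀ × (Fin (lv r + 1) → Fin p), inferInstance, DC q r × (Fin k × Fin q),
    TT (q := q) (GE (k := k) (w := q)) r, embE' f ⟨0, hk1⟩ dec,
    not_TT_empty (fun φ ⟨x, hx⟩ => hx) hq1 r, ?_, ?_, ?_⟩
  · refine hK q hqK s ?_ (max M 1) (m ^ D) B (by omega) hMN hB h8B _ _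
      (fun ψ : {S : Finset (Fin N) // S.card = g} => FS (ρ := ρ) (M := M) (lv r) ψ.1)
      (fun ψ => KC_FS_even r ψ.1 ψ.2) hΨ _ (WSat_iff _)
    calc K * s ≤ (K + 1) * m ^ c := Nat.mul_le_mul (by omega) hs
      _ ≤ q ^ (k - 1) := hsize
      _ ≤ q ^ k := Nat.pow_le_pow_right hq1 (by omega)
  · exact fun y => WSat_XE' hq1 f ⟨0, hk1⟩ dec hdec hp2 y
  · intro X hX
    refine final_bound' he hk1 (Nat.le_add_right _ _) hq1 hmn h4 hbd ?_
    rw [Fintype.card_prod, Fintype.card_fun, Fintype.card_fin, Fintype.card_fin,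
      Fintype.card_fin, hp₀, hp] at hX
    exact hX

theorem blocks_odd (r ρ c d e k g : ℕ) (he : 1 ≤ e)
    (hk : c * e + 2 ≤ k) : ∃ m₀, ∀ m ≥ m₀,
    ∀ n, m ≤ n → n ≤ m ^ d → ∀ N ≤ m ^ d, ∀ M ≤ m ^ d, ∀ s ≤ m ^ c,
    Blocks (WSat (n := n) (m := m) (lv r + 2) 1 (k + (lv r + 2)))
      (WSat (n := N) (m := M) (lv r + 1) ρ g) 1 s
      fun X => (n * m ^ (lv r + 2)) ^ e <
        m ^ (lv r + 3) * (4 ^ (lv r + 3) * (k + (lv r + 2)) * X) ^ e := by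
  obtain ⟨K, hK⟩ := hard_odd k (g ^ ρ + 1) r (by omega) (by omega)
  obtain ⟨D, hD⟩ : ∃ D, d * g + c + d = D := ⟨_, rfl⟩
  obtain ⟨m₀, hm₀⟩ := exists_params' d c e k D K (lv r + 2) he hk
  refine ⟨m₀, fun m hm n hmn hn N hN M hM s hs => ?_⟩
  obtain ⟨q, B, B₁, hm2, hqK, hq1, hqT, hsize, hB, -, hBk, hB₁, hB₁1, hfit, h4, hbd⟩ := hm₀ m hm
  have hk1 : 1 ≤ k := by omega
  obtain ⟨p₀, hp₀⟩ : ∃ p₀, p₀ = n / (2 * (k * q)) := ⟨_, rfl⟩
  obtain ⟨p, hp⟩ : ∃ p, p = m / (2 * q) := ⟨_, rfl⟩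
  have hn2 : n ≤ 2 ^ B₁ := hn.trans hB₁
  have hp2 : p₀ ≤ 2 ^ B₁ := by
    rw [hp₀]
    exact (Nat.div_le_self _ _).trans hn2
  obtain ⟨f⟩ := exists_embV (p₀ := p₀) (k := k) (q := q) (T := lv r + 2) (p := p) (n := n)
    (by rw [hp₀, hp]; exact fits hqT hmn)
  have hpq : 2 * (p * q) ≤ m := by
    rw [hp]
    calc 2 * (m / (2 * q) * q) = m / (2 * q) * (2 * q) := by ring
      _ ≤ m := Nat.div_mul_le_self _ _
  obtain ⟨dec, hdec⟩ := exists_surj' (m := m) (Y := GO' k (lv r + 2) B₁ ⊕ (Fin p × Fin q))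
    ⟨Sum.inl (Sum.inr ⟨0, hB₁1⟩)⟩ (by
    rw [Fintype.card_sum, Fintype.card_sum, Fintype.card_prod, Fintype.card_sum, Fintype.card_prod,
      Fintype.card_fin, Fintype.card_fin, Fintype.card_fin, Fintype.card_fin, Fintype.card_fin]
    have h1 : (k + (lv r + 2)) * B₁ + B₁ ≤ (k + (lv r + 2) + 1) * (2 * B₁ + 1) := by
      have : (k + (lv r + 2) + 1) * (2 * B₁ + 1) =
          ((k + (lv r + 2)) * B₁ + B₁) + ((k + (lv r + 2) + 1) * (B₁ + 1)) := by ring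
      omega
    omega)
  have hq0 : 0 < q := hq1
  have hp1 : 1 ≤ p := by
    have h3 : 2 * q ≤ m := by
      refine le_trans ?_ h4
      rw [mul_assoc]
      exact Nat.mul_le_mul (by norm_num) (Nat.le_mul_of_pos_left _ hk1)
    rw [hp]
    exact (Nat.one_le_div_iff (by omega)).2 h3
  obtain ⟨bl, hbl⟩ : ∃ bl : GO' k (lv r + 2) B₁ ⊕ (Fin p × Fin q) → Bool,
      Function.Surjective bl := by
    refine ⟨Sum.elim (fun _ => true) (fun _ => false), ?_⟩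
    intro b
    rcases b with _ | _
    · exact ⟨Sum.inr (⟨0, hp1⟩, ⟨0, hq1⟩), rfl⟩
    · exact ⟨Sum.inl (Sum.inr ⟨0, hB₁1⟩), rfl⟩
  obtain ⟨hMN, hΨ⟩ := sizes_bound' (g := g) hm2 hN hM hD hs
  refine ⟨Fin p₀ × (Fin (lv r + 2) → Fin p), inferInstance, DC q r × ((Fin k × Fin q) × Fin q),
    TT (q := q) (GO (k := k) (w := q) (n := q)) r, embO' f bl dec,
    not_TT_empty (fun φ ⟨l, hl⟩ => hl ⟨0, hk1⟩) hq1 r, ?_, ?_, ?_⟩
  · refine hK q hqK s ?_ (max M 1) (m ^ D) B (by omega) hMN hB hBk _ _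
      (fun ψ : {S : Finset (Fin N) // S.card = g} => FS (ρ := ρ) (M := M) (lv r + 1) ψ.1)
      (fun ψ => KC_FS_odd r ψ.1 ψ.2) hΨ _ (WSat_iff _)
    calc s ≤ m ^ c := hs
      _ ≤ (K + 1) * m ^ c := Nat.le_mul_of_pos_left _ (by omega)
      _ ≤ q ^ (k - 1) := hsize
  · exact fun y => WSat_XO' hq1 f ⟨0, hk1⟩ bl hbl dec hdec hB₁1 hn2 hp2 y
  · intro X hX
    refine final_bound' he hk1 (Nat.le_add_right _ _) hq1 hmn h4 hbd ?_
    rw [Fintype.card_prod, Fintype.card_fun, Fintype.card_fin, Fintype.card_fin,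
      Fintype.card_fin, hp₀, hp] at hX
    exact hX

theorem blocks (t ρ c d e k g δ : ℕ) (hδ : δ ≤ 1 ∨ Even t) (he : 1 ≤ e)
    (hk : c * e + t + 3 ≤ k) :
    ∃ m₀, ∀ m ≥ m₀, ∀ n, m ≤ n → n ≤ m ^ d → ∀ N ≤ m ^ d, ∀ M ≤ m ^ d, ∀ s ≤ m ^ c,
    Blocks (WSat (n := n) (m := m) (t + 1) 1 k) (WSat (n := N) (m := M) t ρ g) (max δ 1) s
      fun X => (n * m ^ (t + 1)) ^ e < m ^ (t + 2) * (4 ^ (t + 2) * k * X) ^ e := by
  rcases Nat.even_or_odd' t with ⟨r, h | h⟩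
  · rw [← lv_eq] at h
    subst h
    obtain ⟨k₁, rfl⟩ : ∃ k₁, k = k₁ + (lv r + 1) := ⟨k - (lv r + 1), by omega⟩
    exact blocks_even r ρ c d e k₁ g (max δ 1) (le_max_right _ _) he (by omega)
  · have hodd : ¬ Even t := by
      rw [h, Nat.not_even_iff_odd]
      exact odd_two_mul_add_one r
    have hδ1 : max δ 1 = 1 := max_eq_right (hδ.resolve_right hodd)
    rw [hδ1]
    rw [← lv_eq] at h
    subst h
    obtain ⟨k₁, rfl⟩ : ∃ k₁, k = k₁ + (lv r + 2) := ⟨k - (lv r + 2), by omega⟩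
    exact blocks_odd r ρ c d e k₁ g he (by omega)

theorem Gate.Width.mono {α : Type} {h h' : ℕ} (hh : h ≤ h') {G : Gate α} (hG : G.Width h) :
    G.Width h' := by
  cases G with
  | cnf F => exact fun U hU => (hG U hU).trans hh
  | dnf F => exact fun U hU => (hG U hU).trans hh
  | not u => trivial

theorem Circuit.Width.mono {α β : Type} {h h' : ℕ} (hh : h ≤ h') {C : Circuit α β}
    (hC : C.Width h) : C.Width h' := fun G hG => (hC G hG).mono hh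

theorem Alt_mono {m : ℕ} : ∀ (t : ℕ) (b : Bool) {y y' : (Fin t → Fin m) → Prop},
    (∀ i, y i → y' i) → Alt m t b y → Alt m t b y'
  | 0, _, _, _, h => h _
  | t + 1, true, _, _, h => fun H j => Alt_mono t false (fun _ => h _) (H j)
  | t + 1, false, _, _, h => fun ⟨j, H⟩ => ⟨j, Alt_mono t true (fun _ => h _) H⟩

theorem WSat_mono {n m t ρ k : ℕ} (v v' : (Fin ρ → Fin n) × (Fin t → Fin m) → Prop)
    (h : ∀ b, v b → v' b) : WSat t ρ k v → WSat t ρ k v' := by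
  rintro ⟨S, hS, H⟩
  refine ⟨S, hS, Alt_mono t true ?_ H⟩
  rintro i ⟨h1, h2⟩
  refine ⟨fun he a ha => h _ (h1 he a ha), fun he => ?_⟩
  obtain ⟨a, ha, hz⟩ := h2 he
  exact ⟨a, ha, h _ hz⟩

/-- The theorem on NOT gates. -/
theorem main_nots (t ρ c d e k g δ : ℕ) (hδ : δ ≤ 1 ∨ Even t) (he : 1 ≤ e)
    (hk : c * e + t + 3 ≤ k) :
    ∃ m₀, ∀ m ≥ m₀, ∀ n, m ≤ n → n ≤ m ^ d → ∀ N ≤ m ^ d, ∀ M ≤ m ^ d,
    ∀ C : Circuit ((Fin 1 → Fin n) × (Fin (t + 1) → Fin m)) ((Fin ρ → Fin N) × (Fin t → Fin M)),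
    C.Width δ → C.size ≤ m ^ c → Reduces C k g →
      (n * m ^ (t + 1)) ^ e < m ^ (t + 2) * (4 ^ (t + 2) * k * 2 ^ C.nots) ^ e := by
  obtain ⟨m₀, hm₀⟩ := blocks t ρ c d e k g δ hδ he hk
  refine ⟨m₀, fun m hm n hmn hn N hN M hM C hw hC hred => ?_⟩
  obtain ⟨ι, hι, E, F, Me, hF0, hhard, hout, hX⟩ := hm₀ m hm n hmn hn N hN M hM C.size hC
  apply hX
  exact chain_count hF0 C (hw.mono (le_max_left _ _)) hhard Me fun y =>
    (hred _).symm.trans (hout y)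

/-- The theorem on antitone functions. -/
theorem main_oracle (t ρ c d e k g δ : ℕ) (hδ : δ ≤ 1 ∨ Even t) (he : 1 ≤ e)
    (hk : c * e + t + 3 ≤ k) :
    ∃ m₀, ∀ m ≥ m₀, ∀ n, m ≤ n → n ≤ m ^ d → ∀ N ≤ m ^ d, ∀ M ≤ m ^ d, ∀ τ : ℕ,
    ∀ O : Fin τ → ((Fin 1 → Fin n) × (Fin (t + 1) → Fin m) → Prop) → Prop,
    (∀ j, Antitone (O j)) →
    ∀ C : Circuit (((Fin 1 → Fin n) × (Fin (t + 1) → Fin m)) ⊕ Fin τ)
      ((Fin ρ → Fin N) × (Fin t → Fin M)),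
    C.Width δ → C.nots = 0 → C.size ≤ m ^ c → ReducesWith O C k g →
      (n * m ^ (t + 1)) ^ e < m ^ (t + 2) * (4 ^ (t + 2) * k * (τ + 1)) ^ e := by
  obtain ⟨m₀, hm₀⟩ := blocks t ρ c d e k g δ hδ he hk
  refine ⟨m₀, fun m hm n hmn hn N hN M hM τ O hO C hw hC0 hC hred => ?_⟩
  obtain ⟨ι, hι, E, F, Me, hF0, hhard, hout, hX⟩ := hm₀ m hm n hmn hn N hN M hM C.size hC
  apply hX
  apply Nat.succ_le_succ
  exact oracle_count hF0 (fun v v' h => WSat_mono v v' h) O (fun j x x' h => hO j h) C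
    (hw.mono (le_max_left _ _)) hC0 hhard Me fun y => (hred _).symm.trans (hout y)

end Pool.Agent.T9h75.WX
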