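import Mathlib

/-!
# Boolean circuits with gates of unbounded fan-in

The gates are ANDs of ORs of wires, ORs of ANDs of wires, and NOT gates.
-/

set_option autoImplicit false

namespace Pool.Agent.T9h75.WX

/-- A wire: an input variable, a constant, or the output of the gate with number `k`. -/
inductive Wire (α : Type) : Type
  | var (a : α) : Wire α
  | const (b : Bool) : Wire α
  | gate (k : ℕ) : Wire α

/-- A gate: an AND of ORs of wires, an OR of ANDs of wires (any number of them), or NOT of a
wire. -/
inductive Gate (α : Type) : Type
  | cnf (F : Set (Finset (Wire α))) : Gate α
  | dnf (F : Set (Finset (Wire α))) : Gate α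
  | not (u : Wire α) : Gate α

/-- A circuit: its gates in the order of evaluation, and its output wires. -/
structure Circuit (α β : Type) : Type where
  gates : List (Gate α)
  out : β → Wire α

/-- The value of a wire on the input `x`, given the list `vs` of the values of the gates evaluated
so far (a gate that has not been evaluated yet counts as false). -/
def Wire.value {α : Type} (x : α → Prop) (vs : List Prop) : Wire α → Prop
  | .var a => x a
  | .const b => b = true
  | .gate k => vs.getD k False

/-- The value of a gate on the input `x`, given the list `vs` of the values of the earlier gates. -/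
def Gate.value {α : Type} (x : α → Prop) (vs : List Prop) : Gate α → Prop
  | .cnf F => ∀ U ∈ F, ∃ w ∈ U, w.value x vs
  | .dnf F => ∃ U ∈ F, ∀ w ∈ U, w.value x vs
  | .not u => ¬ u.value x vs

/-- Evaluate the gates of a list one after the other, appending their values to `vs`. -/
def run {α : Type} (x : α → Prop) : List (Gate α) → List Prop → List Prop
  | [], vs => vs
  | g :: gs, vs => run x gs (vs ++ [g.value x vs])

/-- The outputs of a circuit on the input `x`. -/
def Circuit.eval {α β : Type} (C : Circuit α β) (x : α → Prop) (b : β) : Prop :=
  (C.out b).value x (run x C.gates [])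

/-- The number of gates of a circuit. -/
def Circuit.size {α β : Type} (C : Circuit α β) : ℕ := C.gates.length

/-- The gate is a NOT gate. -/
def Gate.isNot {α : Type} : Gate α → Bool
  | .cnf _ => false
  | .dnf _ => false
  | .not _ => true

/-- The number of NOT gates of a circuit. -/
def Circuit.nots {α β : Type} (C : Circuit α β) : ℕ := C.gates.countP Gate.isNot

/-- All ORs in the AND (or all ANDs in the OR) have at most `h` wires. -/
def Gate.Width {α : Type} (h : ℕ) : Gate α → Prop
  | .cnf F => ∀ U ∈ F, U.card ≤ h
  | .dnf F => ∀ U ∈ F, U.card ≤ h
  | .not _ => True

/-- Every gate other than a NOT gate is an AND of ORs of at most `h` wires or an OR of ANDs of at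
most `h` wires.  For `h = 1` these are the AND and OR gates of unbounded fan-in. -/
def Circuit.Width {α β : Type} (h : ℕ) (C : Circuit α β) : Prop := ∀ g ∈ C.gates, g.Width h

end Pool.Agent.T9h75.WX
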