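import Pool.Agent.T9h75.WH.DomDefs
import Pool.Agent.T9h75.WX.Model

/-!
# Circuits with oracle gates for p-Clique
-/

set_option autoImplicit false

namespace Pool.Agent.T9h75.WX

open Pool.Agent.T9h75.WH (outGraph HasDomSet edgeInput)

/-- A gate: an AND of ORs of wires, an OR of ANDs of wires (any number of them), NOT of a wire, or
an oracle gate for the clique problem. -/
inductive OGate (α : Type) : Type
  | cnf (F : Set (Finset (Wire α))) : OGate α
  | dnf (F : Set (Finset (Wire α))) : OGate α
  | not (u : Wire α) : OGate α
  | clique (g N : ℕ) (w : Fin N × Fin N → Wire α) : OGate α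

/-- An oracle circuit: its gates in the order of evaluation, and its output wire. -/
structure OCircuit (α : Type) : Type where
  gates : List (OGate α)
  out : Wire α

/-- The value of a gate on the input `x`, given the list `vs` of the values of the earlier gates.
The oracle gate `clique g N w` tells whether the graph on `N` vertices in which, for `a < b`, the
wire `w (a, b)` tells whether `a` and `b` are adjacent has a clique with `g` vertices. -/
def OGate.value {α : Type} (x : α → Prop) (vs : List Prop) : OGate α → Prop
  | .cnf F => ∀ U ∈ F, ∃ w ∈ U, w.value x vs
  | .dnf F => ∃ U ∈ F, ∀ w ∈ U, w.value x vs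
  | .not u => ¬ u.value x vs
  | .clique g N w => ∃ S : Finset (Fin N), (outGraph fun p => (w p).value x vs).IsNClique g S

/-- Evaluate the gates of a list one after the other, appending their values to `vs`. -/
def orun {α : Type} (x : α → Prop) : List (OGate α) → List Prop → List Prop
  | [], vs => vs
  | g :: gs, vs => orun x gs (vs ++ [g.value x vs])

/-- The output of a circuit on the input `x`. -/
def OCircuit.eval {α : Type} (C : OCircuit α) (x : α → Prop) : Prop :=
  C.out.value x (orun x C.gates [])

/-- The number of gates of a circuit. -/
def OCircuit.size {α : Type} (C : OCircuit α) : ℕ := C.gates.length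

/-- The gate is a NOT gate. -/
def OGate.isNot {α : Type} : OGate α → Bool
  | .cnf _ => false
  | .dnf _ => false
  | .not _ => true
  | .clique _ _ _ => false

/-- The number of NOT gates of a circuit. -/
def OCircuit.nots {α : Type} (C : OCircuit α) : ℕ := C.gates.countP OGate.isNot

/-- All ORs in the AND (or all ANDs in the OR) have at most `h` wires; the cliques asked for have at
most `h` vertices (in a graph with any number of vertices). -/
def OGate.Width {α : Type} (h : ℕ) : OGate α → Prop
  | .cnf F => ∀ U ∈ F, U.card ≤ h
  | .dnf F => ∀ U ∈ F, U.card ≤ h
  | .not _ => True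
  | .clique g _ _ => g ≤ h

/-- Every gate has width at most `h`. -/
def OCircuit.Width {α : Type} (h : ℕ) (C : OCircuit α) : Prop := ∀ g ∈ C.gates, g.Width h

/-- The circuit decides whether a graph on `n` vertices has a dominating set with at most `k`
vertices. -/
def OCircuit.DecidesDomSet {n : ℕ} (C : OCircuit (Fin n × Fin n)) (k : ℕ) : Prop :=
  ∀ G : SimpleGraph (Fin n), C.eval (edgeInput G) ↔ HasDomSet G k

end Pool.Agent.T9h75.WX
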