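import Pool.Agent.T9h75.WT.Problem
import Pool.Agent.T9h75.WX.Model

/-!
# Reductions between the complete problems of consecutive levels of the W-hierarchy

The circuits have gates of unbounded fan-in.
-/

set_option autoImplicit false

namespace Pool.Agent.T9h75.WX

open Pool.Agent.T9h75.WT (WSat)

/-- The circuit `C` computes a reduction from the complete problem of `W[t + 2]` with parameter `k`
to the complete problem of `W[t + 1]` with parameter `g`, on instances with `n` variables and `m`
values for every index. -/
def Reduces {n m N M t ρ : ℕ}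
    (C : Circuit ((Fin 1 → Fin n) × (Fin (t + 1) → Fin m)) ((Fin ρ → Fin N) × (Fin t → Fin M)))
    (k g : ℕ) : Prop :=
  ∀ z, WSat (t + 1) 1 k z ↔ WSat t ρ g (C.eval z)

/-- The same, for a circuit that reads, besides the instance `z`, also the values `O j z` of `τ`
Boolean functions of the instance. -/
def ReducesWith {n m N M t ρ τ : ℕ}
    (O : Fin τ → ((Fin 1 → Fin n) × (Fin (t + 1) → Fin m) → Prop) → Prop)
    (C : Circuit (((Fin 1 → Fin n) × (Fin (t + 1) → Fin m)) ⊕ Fin τ)
      ((Fin ρ → Fin N) × (Fin t → Fin M)))
    (k g : ℕ) : Prop :=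
  ∀ z, WSat (t + 1) 1 k z ↔ WSat t ρ g (C.eval (Sum.elim z fun j => O j z))

end Pool.Agent.T9h75.WX
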