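import Pool.Agent.T9h75.WX.Model
import Pool.Agent.T9h75.WX.Core

set_option autoImplicit false
set_option linter.unusedSectionVars false

namespace Pool.Agent.T9h75.WX

open Finset Pool.Agent.T9h16
open scoped Classical

section basic
variable {α β : Type}

theorem run_length (x : α → Prop) (gs : List (Gate α)) (vs : List Prop) :
    (run x gs vs).length = vs.length + gs.length := by
  induction gs generalizing vs with
  | nil => simp [run]
  | cons g gs ih =>
    rw [run, ih]
    simp
    omega

theorem run_take (x : α → Prop) (gs : List (Gate α)) (vs : List Prop) :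
    (run x gs vs).take vs.length = vs := by
  induction gs generalizing vs with
  | nil => simp [run]
  | cons g gs ih =>
    have h := congrArg (List.take vs.length) (ih (vs ++ [g.value x vs]))
    rw [List.take_take, List.length_append] at h
    rw [run]
    rw [min_eq_left (Nat.le_add_right _ _)] at h
    rw [h]
    simp

theorem run_get (x : α → Prop) (gs : List (Gate α)) (vs : List Prop) (i : ℕ)
    (hi : i < gs.length) :
    (run x gs vs).getD (vs.length + i) False =
      (gs[i]).value x ((run x gs vs).take (vs.length + i)) := by
  induction gs generalizing vs i with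
  | nil => simp at hi
  | cons g gs ih =>
    rcases i with _ | i
    · rw [run]
      have h := run_take x gs (vs ++ [g.value x vs])
      rw [List.length_append, List.length_singleton] at h
      have h1 : (run x gs (vs ++ [g.value x vs])).getD (vs.length + 0) False = g.value x vs := by
        have h2 : ((run x gs (vs ++ [g.value x vs])).take (vs.length + 1)).getD vs.length False =
            (run x gs (vs ++ [g.value x vs])).getD vs.length False := by
          simp [List.getD_eq_getElem?_getD]
        rw [Nat.add_zero, ← h2, h]
        simp [List.getD_eq_getElem?_getD]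
      have h3 : (run x gs (vs ++ [g.value x vs])).take (vs.length + 0) = vs := by
        have := congrArg (List.take vs.length) h
        rw [List.take_take, min_eq_left (Nat.le_succ _)] at this
        rw [Nat.add_zero, this]
        simp
      rw [h1, h3]
      rfl
    · have h := ih (vs ++ [g.value x vs]) i (by simpa using hi)
      rw [List.length_append, List.length_singleton] at h
      have e : vs.length + 1 + i = vs.length + (i + 1) := by omega
      rw [e] at h
      rw [run, h]
      rfl

/-- The value of a wire, given the values `v` of the gates with numbers below `i`. -/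
def Wire.val (x : α → Prop) (v : ℕ → Prop) (i : ℕ) : Wire α → Prop
  | .var a => x a
  | .const b => b = true
  | .gate k => k < i ∧ v k

/-- The value of a gate, given the values `v` of the gates with numbers below `i`. -/
def Gate.val (x : α → Prop) (v : ℕ → Prop) (i : ℕ) : Gate α → Prop
  | .cnf F => ∀ U ∈ F, ∃ w ∈ U, w.val x v i
  | .dnf F => ∃ U ∈ F, ∀ w ∈ U, w.val x v i
  | .not u => ¬ u.val x v i

theorem Wire.value_take (x : α → Prop) (L : List Prop) (i : ℕ) (w : Wire α) :
    w.value x (L.take i) ↔ w.val x (fun k => L.getD k False) i := by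
  cases w with
  | var a => exact Iff.rfl
  | const b => exact Iff.rfl
  | gate k =>
    by_cases hk : k < i
    · simp [Wire.value, Wire.val, List.getD_eq_getElem?_getD, hk]
    · simp [Wire.value, Wire.val, List.getD_eq_getElem?_getD, hk]

theorem Gate.value_take (x : α → Prop) (L : List Prop) (i : ℕ) (g : Gate α) :
    g.value x (L.take i) ↔ g.val x (fun k => L.getD k False) i := by
  cases g with
  | cnf F =>
    exact forall_congr' fun U => imp_congr_right fun _ => exists_congr fun w =>
      and_congr_right fun _ => Wire.value_take x L i w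
  | dnf F =>
    exact exists_congr fun U => and_congr_right fun _ => forall_congr' fun w =>
      imp_congr_right fun _ => Wire.value_take x L i w
  | not u => exact not_congr (Wire.value_take x L i u)

/-- The value of the gate with number `i`. -/
def gval (gs : List (Gate α)) (x : α → Prop) (i : ℕ) : Prop := (run x gs []).getD i False

theorem gval_iff (gs : List (Gate α)) (x : α → Prop) (i : ℕ) (hi : i < gs.length) :
    gval gs x i ↔ (gs[i]).val x (gval gs x) i := by
  have h := run_get x gs [] i hi
  simp only [List.length_nil, Nat.zero_add] at h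
  change (run x gs []).getD i False ↔ _
  rw [h]
  exact Gate.value_take x _ i _

theorem Circuit.eval_iff (C : Circuit α β) (x : α → Prop) (b : β) :
    C.eval x b ↔ (C.out b).val x (gval C.gates x) C.size := by
  have h := Wire.value_take x (run x C.gates []) C.size (C.out b)
  rw [List.take_of_length_le (by rw [run_length]; simp [Circuit.size])] at h
  exact h

theorem Wire.val_congr {x : α → Prop} {v v' : ℕ → Prop} {i : ℕ} (h : ∀ k < i, v k ↔ v' k)
    (w : Wire α) : w.val x v i ↔ w.val x v' i := by
  cases w with
  | var a => exact Iff.rfl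
  | const b => exact Iff.rfl
  | gate k => exact and_congr_right fun hk => h k hk

theorem Wire.val_mono {x x' : α → Prop} (hx : ∀ a, x a → x' a) {v v' : ℕ → Prop} {i : ℕ}
    (h : ∀ k < i, v k → v' k) (w : Wire α) : w.val x v i → w.val x' v' i := by
  cases w with
  | var a => exact hx a
  | const b => exact id
  | gate k => exact fun hk => ⟨hk.1, h k hk.1 hk.2⟩

theorem Gate.val_congr {x : α → Prop} {v v' : ℕ → Prop} {i : ℕ} (h : ∀ k < i, v k ↔ v' k)
    (g : Gate α) : g.val x v i ↔ g.val x v' i := by
  cases g with
  | cnf F =>
    exact forall_congr' fun U => imp_congr_right fun _ => exists_congr fun w =>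
      and_congr_right fun _ => Wire.val_congr h w
  | dnf F =>
    exact exists_congr fun U => and_congr_right fun _ => forall_congr' fun w =>
      imp_congr_right fun _ => Wire.val_congr h w
  | not u => exact not_congr (Wire.val_congr h u)

theorem Gate.val_mono {x x' : α → Prop} (hx : ∀ a, x a → x' a) {v v' : ℕ → Prop} {i : ℕ}
    (h : ∀ k < i, v k → v' k) (g : Gate α) (hg : g.isNot = false) :
    g.val x v i → g.val x' v' i := by
  cases g with
  | cnf F =>
    intro h1 U hU
    obtain ⟨w, hw, hwv⟩ := h1 U hU
    exact ⟨w, hw, Wire.val_mono hx h w hwv⟩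
  | dnf F =>
    rintro ⟨U, hU, h1⟩
    exact ⟨U, hU, fun w hw => Wire.val_mono hx h w (h1 w hw)⟩
  | not u => simp [Gate.isNot] at hg

/-- Replace the NOT gates of a list of gates by constants. -/
noncomputable def freeze (gs : List (Gate α)) (c : ℕ → Prop) : List (Gate α) :=
  gs.mapIdx fun i g => if g.isNot then (if c i then .cnf ∅ else .dnf ∅) else g

theorem freeze_length (gs : List (Gate α)) (c : ℕ → Prop) : (freeze gs c).length = gs.length := by
  simp [freeze]

theorem freeze_mono (gs : List (Gate α)) (c : ℕ → Prop) (x : α → Prop) (i : ℕ) (hi : i < gs.length)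
    (h : gs[i].isNot = false) :
    gval (freeze gs c) x i ↔ (gs[i]).val x (gval (freeze gs c) x) i := by
  rw [gval_iff _ x i (by rw [freeze_length]; exact hi)]
  simp [freeze, h]

theorem freeze_not (gs : List (Gate α)) (c : ℕ → Prop) (x : α → Prop) (i : ℕ) (hi : i < gs.length)
    (h : gs[i].isNot = true) :
    gval (freeze gs c) x i ↔ c i := by
  rw [gval_iff _ x i (by rw [freeze_length]; exact hi)]
  by_cases hc : c i
  · simp [freeze, h, hc, Gate.val]
  · simp [freeze, h, hc, Gate.val]

theorem isNot_eq {g : Gate α} (h : g.isNot = true) : ∃ u, g = .not u := by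
  cases g with
  | cnf F => simp [Gate.isNot] at h
  | dnf F => simp [Gate.isNot] at h
  | not u => exact ⟨u, rfl⟩

end basic

section
variable {α β E : Type}

/-- Wires of a circuit are available. -/
theorem avail_wire {gs : List (Gate α)} {X : Set E → α → Prop}
    (hX : ∀ a, Leaf fun z => X z a) (i : ℕ) (w : Wire α) :
    Avail (fun k z => gval gs (X z) k) i (fun z => w.val (X z) (gval gs (X z)) i) := by
  cases w with
  | var a => exact Or.inl (hX a)
  | const b => exact Or.inl (Or.inr ⟨b = true, fun _ => Iff.rfl⟩)
  | gate k =>
    by_cases hk : k < i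
    · exact Or.inr ⟨k, hk, fun z => ⟨fun h => h.2, fun h => ⟨hk, h⟩⟩⟩
    · exact Or.inl (Or.inr ⟨False, fun z => ⟨fun h => hk h.1, fun h => h.elim⟩⟩)

/-- A frozen circuit is a monotone straight-line program. -/
theorem slp_freeze {δ : ℕ} {gs : List (Gate α)} (hw : ∀ g ∈ gs, g.Width δ) {X : Set E → α → Prop}
    (hX : ∀ a, Leaf fun z => X z a) (c : ℕ → Prop) :
    IsMSLP δ (fun k z => gval (freeze gs c) (X z) k) gs.length := by
  intro i hi
  have hwi := hw _ (List.getElem_mem hi)
  by_cases hn : gs[i].isNot = true
  · by_cases hc : c i
    · refine ⟨∅, fun U hU => absurd hU (Set.notMem_empty _), Or.inl fun z => ?_⟩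
      change gval (freeze gs c) (X z) i ↔ _
      rw [freeze_not gs c (X z) i hi hn]
      exact ⟨fun _ U hU => absurd hU (Set.notMem_empty _), fun _ => hc⟩
    · refine ⟨∅, fun U hU => absurd hU (Set.notMem_empty _), Or.inr fun z => ?_⟩
      change gval (freeze gs c) (X z) i ↔ _
      rw [freeze_not gs c (X z) i hi hn]
      exact ⟨fun h => absurd h hc, fun ⟨U, hU, _⟩ => absurd hU (Set.notMem_empty _)⟩
  · have hn' : gs[i].isNot = false := by simpa using hn
    rcases hg : gs[i] with F | F | u
    · rw [hg] at hwi
      refine ⟨{U' | ∃ U ∈ F, U' = U.image fun w z => w.val (X z) (gval (freeze gs c) (X z)) i},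
        ?_, Or.inl fun z => ?_⟩
      · rintro U' ⟨U, hU, rfl⟩
        refine ⟨card_image_le.trans (hwi U hU), ?_⟩
        intro p hp
        rw [mem_image] at hp
        obtain ⟨w, -, rfl⟩ := hp
        exact avail_wire hX i w
      · change gval (freeze gs c) (X z) i ↔ _
        rw [freeze_mono gs c (X z) i hi hn', hg]
        constructor
        · rintro h U' ⟨U, hU, rfl⟩
          obtain ⟨w, hw, hwv⟩ := h U hU
          exact ⟨_, mem_image_of_mem _ hw, hwv⟩
        · intro h U hU
          obtain ⟨p, hp, hpz⟩ := h _ ⟨U, hU, rfl⟩
          rw [mem_image] at hp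
          obtain ⟨w, hw, rfl⟩ := hp
          exact ⟨w, hw, hpz⟩
    · rw [hg] at hwi
      refine ⟨{U' | ∃ U ∈ F, U' = U.image fun w z => w.val (X z) (gval (freeze gs c) (X z)) i},
        ?_, Or.inr fun z => ?_⟩
      · rintro U' ⟨U, hU, rfl⟩
        refine ⟨card_image_le.trans (hwi U hU), ?_⟩
        intro p hp
        rw [mem_image] at hp
        obtain ⟨w, -, rfl⟩ := hp
        exact avail_wire hX i w
      · change gval (freeze gs c) (X z) i ↔ _
        rw [freeze_mono gs c (X z) i hi hn', hg]
        constructor
        · rintro ⟨U, hU, h⟩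
          refine ⟨_, ⟨U, hU, rfl⟩, ?_⟩
          intro p hp
          rw [mem_image] at hp
          obtain ⟨w, hw, rfl⟩ := hp
          exact h w hw
        · rintro ⟨U', ⟨U, hU, rfl⟩, h⟩
          exact ⟨U, hU, fun w hw => h _ (mem_image_of_mem _ hw)⟩
    · rw [hg] at hn
      simp [Gate.isNot] at hn

end

end Pool.Agent.T9h75.WX
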