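import Pool.Agent.T9h75.WT.Accept

set_option autoImplicit false
set_option linter.unusedSectionVars false

namespace Pool.Agent.T9h75.WX

open Finset Pool.Agent.T9h16 Pool.Agent.T9h75.WT
open scoped Classical

/-- Alternating quantifiers over a type. -/
def AltX (X : Type) : (t : ℕ) → Bool → ((Fin t → X) → Prop) → Prop
  | 0, _, y => y Fin.elim0
  | t + 1, true, y => ∀ j : X, AltX X t false fun i => y (Fin.cons j i)
  | t + 1, false, y => ∃ j : X, AltX X t true fun i => y (Fin.cons j i)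

theorem AltX_congr {X : Type} : ∀ (t : ℕ) (b : Bool) {y y' : (Fin t → X) → Prop},
    (∀ i, y i ↔ y' i) → (AltX X t b y ↔ AltX X t b y')
  | 0, _, _, _, h => h _
  | t + 1, true, _, _, h => forall_congr' fun _ => AltX_congr t false fun _ => h _
  | t + 1, false, _, _, h => exists_congr fun _ => AltX_congr t true fun _ => h _

theorem AltX_const {X : Type} (x₀ : X) : ∀ (t : ℕ) (b : Bool) (Q : Prop),
    (AltX X t b fun _ => Q) ↔ Q
  | 0, _, _ => Iff.rfl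
  | t + 1, true, Q => ⟨fun h => (AltX_const x₀ t false Q).1 (h x₀),
      fun h _ => (AltX_const x₀ t false Q).2 h⟩
  | t + 1, false, Q => ⟨fun ⟨_, h⟩ => (AltX_const x₀ t true Q).1 h,
      fun h => ⟨x₀, (AltX_const x₀ t true Q).2 h⟩⟩

theorem comp_consX {m t : ℕ} {X : Type} (π : Fin m → X) (j : Fin m) (i : Fin t → Fin m) :
    (fun l => π (Fin.cons (α := fun _ => Fin m) j i l)) =
      Fin.cons (α := fun _ => X) (π j) fun l => π (i l) := by
  funext l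
  refine Fin.cases ?_ (fun l => ?_) l
  · rfl
  · rfl

/-- Decoding the indices by a surjection. -/
theorem Alt_decX {m : ℕ} {X : Type} (π : Fin m → X) (hπ : Function.Surjective π) :
    ∀ (t : ℕ) (b : Bool) (y : (Fin t → X) → Prop),
      (Alt m t b fun i => y fun l => π (i l)) ↔ AltX X t b y
  | 0, _, y => by
    have : (fun l => π (Fin.elim0 l)) = (Fin.elim0 : Fin 0 → X) := by
      funext l
      exact l.elim0
    change y (fun l => π (Fin.elim0 l)) ↔ y Fin.elim0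
    rw [this]
  | t + 1, true, y => by
    have h : ∀ j : Fin m, (Alt m t false fun i => y fun l => π (Fin.cons (α := fun _ => Fin m) j i l))
        ↔ AltX X t false fun i => y (Fin.cons (π j) i) := by
      intro j
      rw [← Alt_decX π hπ t false fun i => y (Fin.cons (π j) i)]
      apply Alt_congr
      intro i
      rw [comp_consX]
    constructor
    · intro H j
      obtain ⟨j', rfl⟩ := hπ j
      exact (h j').1 (H j')
    · intro H j
      exact (h j).2 (H (π j))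
  | t + 1, false, y => by
    have h : ∀ j : Fin m, (Alt m t true fun i => y fun l => π (Fin.cons (α := fun _ => Fin m) j i l))
        ↔ AltX X t true fun i => y (Fin.cons (π j) i) := by
      intro j
      rw [← Alt_decX π hπ t true fun i => y (Fin.cons (π j) i)]
      apply Alt_congr
      intro i
      rw [comp_consX]
    constructor
    · rintro ⟨j, H⟩
      exact ⟨π j, (h j).1 H⟩
    · rintro ⟨j, H⟩
      obtain ⟨j', rfl⟩ := hπ j
      exact ⟨j', (h j').2 H⟩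

section even
variable {Γ : Type} {p q : ℕ}

/-- The matrix of the formula written by the blocks (even level). -/
def mE : (r : ℕ) → (Γ → Prop) → (ℕ → Fin p → Prop) → Prop →
    ((Fin (lv r + 1) → Fin p × Fin q) → Prop) → (Fin (lv r + 1) → Γ ⊕ (Fin p × Fin q)) → Prop
  | 0, g, A, h, Y, i =>
    Sum.elim g (fun c => h ∨ (∃ Q, Q ≠ c.1 ∧ A 0 Q) ∨ Y (fun _ => c)) (i 0)
  | r + 1, g, A, h, Y, i =>
    Sum.elim g (fun c => Sum.elim (fun _ => False) (fun c' =>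
      mE r (fun _ => A 1 c'.1) (fun j => A (j + 2)) (h ∨ ∃ Q, Q ≠ c.1 ∧ A 0 Q)
        (fun w => Y (Fin.cons (α := fun _ => Fin p × Fin q) c
          (Fin.cons (α := fun _ => Fin p × Fin q) c' w)))
        (fun l => i (l.succ.succ : Fin (lv r + 3)))) (i (Fin.succ (0 : Fin (lv r + 2))))) (i 0)

theorem mE_mono : ∀ (r : ℕ) (g : Γ → Prop) (A : ℕ → Fin p → Prop) (h : Prop)
    {Y Y' : (Fin (lv r + 1) → Fin p × Fin q) → Prop}, (∀ w, Y w → Y' w) →
    ∀ i, mE r g A h Y i → mE r g A h Y' i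
  | 0, g, A, h, Y, Y', hY, i => by
    unfold mE
    rcases i 0 with γ | c
    · exact fun h => h
    · rintro (h1 | h1 | h1)
      · exact Or.inl h1
      · exact Or.inr (Or.inl h1)
      · exact Or.inr (Or.inr (hY _ h1))
  | r + 1, g, A, h, Y, Y', hY, i => by
    unfold mE
    rcases i 0 with γ | c
    · exact fun h => h
    · rcases i (Fin.succ (0 : Fin (lv r + 2))) with γ | c'
      · exact fun h => h
      · exact mE_mono r _ _ _ (fun w => hY _) _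

theorem mE_leaf : ∀ (r : ℕ) (g : Γ → Prop) (A : ℕ → Fin p → Prop) (h : Prop),
    (∀ j Q, ¬ A j Q) → ¬ h → ∀ i : Fin (lv r + 1) → Γ ⊕ (Fin p × Fin q),
    (∃ c : Prop, ∀ Y, mE r g A h Y i ↔ c) ∨ ∃ w, ∀ Y, mE r g A h Y i ↔ Y w
  | 0, g, A, h, hA, hh, i => by
    unfold mE
    rcases i 0 with γ | c
    · exact Or.inl ⟨g γ, fun Y => Iff.rfl⟩
    · refine Or.inr ⟨fun _ => c, fun Y => ?_⟩
      constructor
      · rintro (h1 | ⟨Q, -, h1⟩ | h1)
        · exact absurd h1 hh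
        · exact absurd h1 (hA _ _)
        · exact h1
      · exact fun h1 => Or.inr (Or.inr h1)
  | r + 1, g, A, h, hA, hh, i => by
    unfold mE
    rcases i 0 with γ | c
    · exact Or.inl ⟨g γ, fun Y => Iff.rfl⟩
    · rcases i (Fin.succ (0 : Fin (lv r + 2))) with γ | c'
      · exact Or.inl ⟨False, fun Y => Iff.rfl⟩
      · rcases mE_leaf r (fun _ : Γ => A 1 c'.1) (fun j => A (j + 2)) (h ∨ ∃ Q, Q ≠ c.1 ∧ A 0 Q)
          (fun j Q => hA _ _) (by
            rintro (h1 | ⟨Q, -, h1⟩)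
            · exact hh h1
            · exact hA _ _ h1) (fun l => i (l.succ.succ : Fin (lv r + 3))) with ⟨e, he⟩ | ⟨w, hw⟩
        · exact Or.inl ⟨e, fun Y => he _⟩
        · exact Or.inr ⟨_, fun Y => hw _⟩

theorem mE_dist {I : Type} (S : I → Prop) : ∀ (r : ℕ) (g : I → Γ → Prop)
    (A : I → ℕ → Fin p → Prop) (h : I → Prop)
    (Y : I → (Fin (lv r + 1) → Fin p × Fin q) → Prop) (i : Fin (lv r + 1) → Γ ⊕ (Fin p × Fin q)),
    (∃ v, S v ∧ mE r (g v) (A v) (h v) (Y v) i) ↔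
      mE r (fun γ => ∃ v, S v ∧ g v γ) (fun j Q => ∃ v, S v ∧ A v j Q) (∃ v, S v ∧ h v)
        (fun w => ∃ v, S v ∧ Y v w) i
  | 0, g, A, h, Y, i => by
    unfold mE
    rcases i 0 with γ | c
    · exact Iff.rfl
    · simp only [Sum.elim_inr]
      constructor
      · rintro ⟨v, hv, h1 | ⟨Q, hQ, h1⟩ | h1⟩
        · exact Or.inl ⟨v, hv, h1⟩
        · exact Or.inr (Or.inl ⟨Q, hQ, v, hv, h1⟩)
        · exact Or.inr (Or.inr ⟨v, hv, h1⟩)
      · rintro (⟨v, hv, h1⟩ | ⟨Q, hQ, v, hv, h1⟩ | ⟨v, hv, h1⟩)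
        · exact ⟨v, hv, Or.inl h1⟩
        · exact ⟨v, hv, Or.inr (Or.inl ⟨Q, hQ, h1⟩)⟩
        · exact ⟨v, hv, Or.inr (Or.inr h1)⟩
  | r + 1, g, A, h, Y, i => by
    unfold mE
    rcases i 0 with γ | c
    · exact Iff.rfl
    · rcases i (Fin.succ (0 : Fin (lv r + 2))) with γ | c'
      · simp
      · simp only [Sum.elim_inr]
        rw [mE_dist S r (fun v _ => A v 1 c'.1) (fun v j => A v (j + 2))
          (fun v => h v ∨ ∃ Q, Q ≠ c.1 ∧ A v 0 Q)]
        have e1 : (∃ v, S v ∧ (h v ∨ ∃ Q, Q ≠ c.1 ∧ A v 0 Q)) =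
            ((∃ v, S v ∧ h v) ∨ ∃ Q, Q ≠ c.1 ∧ ∃ v, S v ∧ A v 0 Q) := by
          apply propext
          constructor
          · rintro ⟨v, hv, h1 | ⟨Q, hQ, h1⟩⟩
            · exact Or.inl ⟨v, hv, h1⟩
            · exact Or.inr ⟨Q, hQ, v, hv, h1⟩
          · rintro (⟨v, hv, h1⟩ | ⟨Q, hQ, v, hv, h1⟩)
            · exact ⟨v, hv, Or.inl h1⟩
            · exact ⟨v, hv, Or.inr ⟨Q, hQ, h1⟩⟩
        rw [e1]

/-- The value of the formula, if exactly one block coordinate is selected at every level. -/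
theorem mE_alt (hΓ : Nonempty Γ) (hq : 0 < q) : ∀ (r : ℕ) (g : Γ → Prop) (A : ℕ → Fin p → Prop)
    (h : Prop) (Y : (Fin (lv r + 1) → Fin p × Fin q) → Prop) (sel : ℕ → Fin p),
    (∀ j < lv r + 1, ∀ Q, A j Q ↔ Q = sel j) →
    (AltX (Γ ⊕ (Fin p × Fin q)) (lv r + 1) true (mE r g A h Y) ↔
      (∀ γ, g γ) ∧ (h ∨ Alt q (lv r + 1) true fun i => Y fun l => (sel l.val, i l)))
  | 0, g, A, h, Y, sel, hA => by
    change (∀ x : Γ ⊕ (Fin p × Fin q),
      Sum.elim g (fun c => h ∨ (∃ Q, Q ≠ c.1 ∧ A 0 Q) ∨ Y (fun _ => c)) x) ↔ (∀ γ, g γ) ∧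
      (h ∨ ∀ j : Fin q, Y fun l => (sel l.val, (Fin.cons j Fin.elim0 : Fin 1 → Fin q) l))
    have hY : ∀ j : Fin q, (Y fun l => (sel l.val, (Fin.cons j Fin.elim0 : Fin 1 → Fin q) l)) ↔
        Y fun _ => (sel 0, j) := by
      intro j
      refine Iff.of_eq (congrArg Y ?_)
      funext l
      have hl : l = (0 : Fin 1) := Subsingleton.elim (α := Fin 1) l 0
      rw [hl]
      rfl
    constructor
    · intro H
      refine ⟨fun γ => H (Sum.inl γ), ?_⟩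
      by_cases hh : h
      · exact Or.inl hh
      · refine Or.inr fun j => (hY j).2 ?_
        rcases H (Sum.inr (sel 0, j)) with h1 | ⟨Q, hQ, h1⟩ | h1
        · exact absurd h1 hh
        · exact absurd ((hA 0 (by omega) Q).1 h1) hQ
        · exact h1
    · rintro ⟨H1, H2⟩ (γ | ⟨Q, j⟩)
      · exact H1 γ
      · rcases H2 with H2 | H2
        · exact Or.inl H2
        · by_cases hQ : Q = sel 0
          · subst hQ
            exact Or.inr (Or.inr ((hY j).1 (H2 j)))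
          · exact Or.inr (Or.inl ⟨sel 0, fun h' => hQ h'.symm, (hA 0 (by omega) _).2 rfl⟩)
  | r + 1, g, A, h, Y, sel, hA => by
    change (∀ x : Γ ⊕ (Fin p × Fin q), ∃ x₂ : Γ ⊕ (Fin p × Fin q),
      AltX (Γ ⊕ (Fin p × Fin q)) (lv r + 1) true fun i => mE (r + 1) g A h Y
        (Fin.cons (α := fun _ => Γ ⊕ (Fin p × Fin q)) x
          (Fin.cons (α := fun _ => Γ ⊕ (Fin p × Fin q)) x₂ i))) ↔ (∀ γ, g γ) ∧
      (h ∨ ∀ j : Fin q, ∃ l : Fin q, Alt q (lv r + 1) true fun i => Y fun l' : Fin (lv r + 3) =>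
        (sel l'.val, (Fin.cons (α := fun _ => Fin q) j (Fin.cons (α := fun _ => Fin q) l i) :
          Fin (lv r + 3) → Fin q) l'))
    have hcst : ∀ (Q : Prop), (AltX (Γ ⊕ (Fin p × Fin q)) (lv r + 1) true fun _ => Q) ↔ Q :=
      fun Q => AltX_const (Sum.inl hΓ.some) _ _ Q
    have h1 : ∀ γ x₂, (AltX (Γ ⊕ (Fin p × Fin q)) (lv r + 1) true fun i => mE (r + 1) g A h Y
        (Fin.cons (α := fun _ => Γ ⊕ (Fin p × Fin q)) (Sum.inl γ)
          (Fin.cons (α := fun _ => Γ ⊕ (Fin p × Fin q)) x₂ i))) ↔ g γ := fun γ x₂ => hcst (g γ)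
    have h2 : ∀ c γ, (AltX (Γ ⊕ (Fin p × Fin q)) (lv r + 1) true fun i => mE (r + 1) g A h Y
        (Fin.cons (α := fun _ => Γ ⊕ (Fin p × Fin q)) (Sum.inr c)
          (Fin.cons (α := fun _ => Γ ⊕ (Fin p × Fin q)) (Sum.inl γ) i))) ↔ False :=
      fun c γ => hcst False
    have h3 : ∀ c c', (AltX (Γ ⊕ (Fin p × Fin q)) (lv r + 1) true fun i => mE (r + 1) g A h Y
        (Fin.cons (α := fun _ => Γ ⊕ (Fin p × Fin q)) (Sum.inr c)
          (Fin.cons (α := fun _ => Γ ⊕ (Fin p × Fin q)) (Sum.inr c') i))) ↔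
        (∀ _ : Γ, A 1 c'.1) ∧ ((h ∨ ∃ Q, Q ≠ c.1 ∧ A 0 Q) ∨
          Alt q (lv r + 1) true fun i => Y (Fin.cons (α := fun _ => Fin p × Fin q) c
          (Fin.cons (α := fun _ => Fin p × Fin q) c' fun l => (sel (l.val + 2), i l)))) := by
      intro c c'
      exact mE_alt hΓ hq r (fun _ : Γ => A 1 c'.1) (fun j => A (j + 2))
        (h ∨ ∃ Q, Q ≠ c.1 ∧ A 0 Q) (fun w => Y (Fin.cons (α := fun _ => Fin p × Fin q) c
          (Fin.cons (α := fun _ => Fin p × Fin q) c' w))) (fun j => sel (j + 2))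
        (fun j hj Q => hA (j + 2) (by change j + 2 < lv r + 2 + 1; omega) Q)
    have hcons : ∀ (j l : Fin q) (i : Fin (lv r + 1) → Fin q),
        (fun l' : Fin (lv r + 3) => (sel l'.val, (Fin.cons (α := fun _ => Fin q) j
          (Fin.cons (α := fun _ => Fin q) l i) : Fin (lv r + 3) → Fin q) l')) =
        (Fin.cons (α := fun _ => Fin p × Fin q) (sel 0, j)
          (Fin.cons (α := fun _ => Fin p × Fin q) (sel 1, l)
            fun l => (sel (l.val + 2), i l)) : Fin (lv r + 3) → Fin p × Fin q) := by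
      intro j l i
      funext l'
      refine Fin.cases ?_ (fun l' => ?_) l'
      · rfl
      · refine Fin.cases ?_ (fun l' => ?_) l'
        · rfl
        · rfl
    have h0 : ∀ Q, A 0 Q ↔ Q = sel 0 := hA 0 (by omega)
    have h01 : ∀ Q, A 1 Q ↔ Q = sel 1 := hA 1 (by change 1 < lv r + 2 + 1; omega)
    constructor
    · intro H
      refine ⟨fun γ => ?_, ?_⟩
      · obtain ⟨x₂, hx₂⟩ := H (Sum.inl γ)
        exact (h1 γ x₂).1 hx₂
      · by_cases hh : h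
        · exact Or.inl hh
        · refine Or.inr fun j => ?_
          obtain ⟨x₂, hx₂⟩ := H (Sum.inr (sel 0, j))
          rcases x₂ with γ | ⟨Q', l⟩
          · exact ((h2 _ γ).1 hx₂).elim
          · obtain ⟨h4, h5⟩ := (h3 _ _).1 hx₂
            have hQ' : Q' = sel 1 := (h01 _).1 (h4 hΓ.some)
            subst hQ'
            refine ⟨l, ?_⟩
            rcases h5 with (h5 | ⟨Q, hQ, h5⟩) | h5
            · exact absurd h5 hh
            · exact absurd ((h0 Q).1 h5) hQ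
            · simp only [hcons]
              exact h5
    · rintro ⟨H1, H2⟩ (γ | ⟨Q, j⟩)
      · exact ⟨Sum.inl γ, (h1 γ _).2 (H1 γ)⟩
      · by_cases hQ : Q = sel 0
        · subst hQ
          rcases H2 with H2 | H2
          · exact ⟨Sum.inr (sel 1, ⟨0, hq⟩), (h3 _ _).2
              ⟨fun _ => (h01 _).2 rfl, Or.inl (Or.inl H2)⟩⟩
          · obtain ⟨l, hl⟩ := H2 j
            simp only [hcons] at hl
            exact ⟨Sum.inr (sel 1, l), (h3 _ _).2 ⟨fun _ => (h01 _).2 rfl, Or.inr hl⟩⟩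
        · exact ⟨Sum.inr (sel 1, ⟨0, hq⟩), (h3 _ _).2 ⟨fun _ => (h01 _).2 rfl,
            Or.inl (Or.inr ⟨sel 0, fun h' => hQ h'.symm, (h0 _).2 rfl⟩)⟩⟩

theorem mE_gadget (hΓ : Nonempty Γ) : ∀ (r : ℕ) (g : Γ → Prop) (A : ℕ → Fin p → Prop)
    (h : Prop) (Y : (Fin (lv r + 1) → Fin p × Fin q) → Prop),
    AltX (Γ ⊕ (Fin p × Fin q)) (lv r + 1) true (mE r g A h Y) → ∀ γ, g γ
  | 0, _, _, _, _, H, γ => H (Sum.inl γ)
  | r + 1, g, A, h, Y, H, γ => by
    obtain ⟨x₂, hx₂⟩ := (H (Sum.inl γ) : ∃ x₂ : Γ ⊕ (Fin p × Fin q),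
      AltX (Γ ⊕ (Fin p × Fin q)) (lv r + 1) true fun _ => g γ)
    exact (AltX_const (Sum.inl hΓ.some) _ _ _).1 hx₂

end even

section odd
variable {Γ : Type} {p q : ℕ}

/-- The matrix of the formula written by the blocks (odd level). -/
def mO (bl : Γ ⊕ (Fin p × Fin q) → Bool) : (r : ℕ) → (Γ → Bool → Prop) → (ℕ → Fin p → Prop) →
    Prop → ((Fin (lv r + 2) → Fin p × Fin q) → Prop) →
    (Fin (lv r + 2) → Γ ⊕ (Fin p × Fin q)) → Prop
  | 0, g, A, h, Y, i =>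
    Sum.elim (fun γ => g γ (bl (i 1))) (fun c => Sum.elim (fun _ => ∀ Q, A 0 Q → Q ≠ c.1)
      (fun c' => h ∧ (∀ Q, A 1 Q → Q = c'.1) ∧
        Y (Fin.cons (α := fun _ => Fin p × Fin q) c fun _ => c')) (i 1)) (i 0)
  | r + 1, g, A, h, Y, i =>
    Sum.elim (fun γ => g γ (bl (i (Fin.succ (0 : Fin (lv r + 3))))))
      (fun c => Sum.elim (fun _ => ∀ Q, A 0 Q → Q ≠ c.1)
      (fun c' => mO bl r (fun _ _ => True) (fun j => A (j + 2)) (h ∧ ∀ Q, A 1 Q → Q = c'.1)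
        (fun w => Y (Fin.cons (α := fun _ => Fin p × Fin q) c
          (Fin.cons (α := fun _ => Fin p × Fin q) c' w)))
        (fun l => i (l.succ.succ : Fin (lv r + 4)))) (i (Fin.succ (0 : Fin (lv r + 3))))) (i 0)

theorem mO_mono (bl : Γ ⊕ (Fin p × Fin q) → Bool) : ∀ (r : ℕ) (g : Γ → Bool → Prop)
    (A : ℕ → Fin p → Prop) (h : Prop)
    {Y Y' : (Fin (lv r + 2) → Fin p × Fin q) → Prop}, (∀ w, Y w → Y' w) →
    ∀ i, mO bl r g A h Y i → mO bl r g A h Y' i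
  | 0, g, A, h, Y, Y', hY, i => by
    unfold mO
    rcases i 0 with γ | c
    · exact fun h => h
    · change Sum.elim _ _ (i 1) → Sum.elim _ _ (i 1)
      rcases i 1 with γ | c'
      · exact fun h => h
      · rintro ⟨h1, h2, h3⟩
        exact ⟨h1, h2, hY _ h3⟩
  | r + 1, g, A, h, Y, Y', hY, i => by
    unfold mO
    rcases i 0 with γ | c
    · exact fun h => h
    · rcases i (Fin.succ (0 : Fin (lv r + 3))) with γ | c'
      · exact fun h => h
      · exact mO_mono bl r _ _ _ (fun w => hY _) _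

theorem mO_leaf (bl : Γ ⊕ (Fin p × Fin q) → Bool) : ∀ (r : ℕ) (g : Γ → Bool → Prop)
    (A : ℕ → Fin p → Prop) (h : Prop),
    (∀ j Q, ¬ A j Q) → h → ∀ i : Fin (lv r + 2) → Γ ⊕ (Fin p × Fin q),
    (∃ c : Prop, ∀ Y, mO bl r g A h Y i ↔ c) ∨ ∃ w, ∀ Y, mO bl r g A h Y i ↔ Y w
  | 0, g, A, h, hA, hh, i => by
    unfold mO
    rcases i 0 with γ | c
    · exact Or.inl ⟨_, fun Y => Iff.rfl⟩
    · change (∃ d : Prop, ∀ Y : (Fin (lv 0 + 2) → Fin p × Fin q) → Prop,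
        Sum.elim _ _ (i 1) ↔ d) ∨ ∃ w, ∀ Y : (Fin (lv 0 + 2) → Fin p × Fin q) → Prop,
        Sum.elim _ _ (i 1) ↔ Y w
      rcases i 1 with γ | c'
      · exact Or.inl ⟨_, fun Y => Iff.rfl⟩
      · exact Or.inr ⟨Fin.cons (α := fun _ => Fin p × Fin q) c fun _ => c', fun Y =>
          ⟨fun h1 => h1.2.2, fun h1 => ⟨hh, fun Q hQ => absurd hQ (hA _ _), h1⟩⟩⟩
  | r + 1, g, A, h, hA, hh, i => by
    unfold mO
    rcases i 0 with γ | c
    · exact Or.inl ⟨_, fun Y => Iff.rfl⟩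
    · rcases i (Fin.succ (0 : Fin (lv r + 3))) with γ | c'
      · exact Or.inl ⟨_, fun Y => Iff.rfl⟩
      · rcases mO_leaf bl r (fun _ _ => True) (fun j => A (j + 2)) (h ∧ ∀ Q, A 1 Q → Q = c'.1)
          (fun j Q => hA _ _) ⟨hh, fun Q hQ => absurd hQ (hA _ _)⟩
          (fun l => i (l.succ.succ : Fin (lv r + 4))) with ⟨e, he⟩ | ⟨w, hw⟩
        · exact Or.inl ⟨e, fun Y => he _⟩
        · exact Or.inr ⟨_, fun Y => hw _⟩

theorem mO_dist (bl : Γ ⊕ (Fin p × Fin q) → Bool) {I : Type} (S : I → Prop) : ∀ (r : ℕ)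
    (g : I → Γ → Bool → Prop) (A : I → ℕ → Fin p → Prop) (h : I → Prop)
    (Y : I → (Fin (lv r + 2) → Fin p × Fin q) → Prop) (i : Fin (lv r + 2) → Γ ⊕ (Fin p × Fin q)),
    (∀ v, S v → mO bl r (g v) (A v) (h v) (Y v) i) ↔
      mO bl r (fun γ β => ∀ v, S v → g v γ β) (fun j Q => ∃ v, S v ∧ A v j Q) (∀ v, S v → h v)
        (fun w => ∀ v, S v → Y v w) i
  | 0, g, A, h, Y, i => by
    unfold mO
    rcases i 0 with γ | c
    · exact Iff.rfl
    · change (∀ v, S v → Sum.elim _ _ (i 1)) ↔ Sum.elim _ _ (i 1)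
      rcases i 1 with γ | c'
      · exact ⟨fun h1 Q ⟨v, hv, hQ⟩ => h1 v hv Q hQ, fun h1 v hv Q hQ => h1 Q ⟨v, hv, hQ⟩⟩
      · exact ⟨fun h1 => ⟨fun v hv => (h1 v hv).1, fun Q ⟨v, hv, hQ⟩ => (h1 v hv).2.1 Q hQ,
          fun v hv => (h1 v hv).2.2⟩, fun h1 v hv => ⟨h1.1 v hv, fun Q hQ => h1.2.1 Q ⟨v, hv, hQ⟩,
          h1.2.2 v hv⟩⟩
  | r + 1, g, A, h, Y, i => by
    unfold mO
    rcases i 0 with γ | c
    · exact Iff.rfl
    · rcases i (Fin.succ (0 : Fin (lv r + 3))) with γ | c'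
      · exact ⟨fun h1 Q ⟨v, hv, hQ⟩ => h1 v hv Q hQ, fun h1 v hv Q hQ => h1 Q ⟨v, hv, hQ⟩⟩
      · simp only [Sum.elim_inr]
        rw [mO_dist bl S r (fun _ _ _ => True) (fun v j => A v (j + 2))
          (fun v => h v ∧ ∀ Q, A v 1 Q → Q = c'.1)]
        have e1 : (∀ v, S v → (h v ∧ ∀ Q, A v 1 Q → Q = c'.1)) =
            ((∀ v, S v → h v) ∧ ∀ Q, (∃ v, S v ∧ A v 1 Q) → Q = c'.1) := by
          apply propext
          exact ⟨fun h1 => ⟨fun v hv => (h1 v hv).1, fun Q ⟨v, hv, hQ⟩ => (h1 v hv).2 Q hQ⟩,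
            fun h1 v hv => ⟨h1.1 v hv, fun Q hQ => h1.2 Q ⟨v, hv, hQ⟩⟩⟩
        have e2 : (fun (_ : Γ) (_ : Bool) => ∀ v, S v → True) = fun _ _ => True := by
          funext _ _
          exact propext ⟨fun _ => trivial, fun _ _ _ => trivial⟩
        rw [e1, e2]

/-- The value of the formula, if exactly one block coordinate is selected at every level. -/
theorem mO_alt (bl : Γ ⊕ (Fin p × Fin q) → Bool) (hbl : Function.Surjective bl)
    (hΓ : Nonempty Γ) (hq : 0 < q) : ∀ (r : ℕ) (g : Γ → Bool → Prop)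
    (A : ℕ → Fin p → Prop)
    (h : Prop) (Y : (Fin (lv r + 2) → Fin p × Fin q) → Prop) (sel : ℕ → Fin p),
    (∀ j < lv r + 2, ∀ Q, A j Q ↔ Q = sel j) →
    (AltX (Γ ⊕ (Fin p × Fin q)) (lv r + 2) true (mO bl r g A h Y) ↔
      (∀ γ, ∃ β, g γ β) ∧ h ∧ Alt q (lv r + 2) true fun i => Y fun l => (sel l.val, i l))
  | 0, g, A, h, Y, sel, hA => by
    change (∀ x : Γ ⊕ (Fin p × Fin q), ∃ x₂ : Γ ⊕ (Fin p × Fin q),
      Sum.elim (fun γ => g γ (bl x₂)) (fun c => Sum.elim (fun _ => ∀ Q, A 0 Q → Q ≠ c.1)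
      (fun c' => h ∧ (∀ Q, A 1 Q → Q = c'.1) ∧
        Y (Fin.cons (α := fun _ => Fin p × Fin q) c fun _ => c')) x₂) x) ↔
      (∀ γ, ∃ β, g γ β) ∧ h ∧ ∀ j : Fin q, ∃ l : Fin q, Y fun l' : Fin 2 =>
        (sel l'.val, (Fin.cons (α := fun _ => Fin q) j (Fin.cons (α := fun _ => Fin q) l
          Fin.elim0) : Fin 2 → Fin q) l')
    have hY : ∀ j l : Fin q, (Y fun l' : Fin 2 =>
        (sel l'.val, (Fin.cons (α := fun _ => Fin q) j (Fin.cons (α := fun _ => Fin q) l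
          Fin.elim0) : Fin 2 → Fin q) l')) ↔
        Y (Fin.cons (α := fun _ => Fin p × Fin q) (sel 0, j) fun _ => (sel 1, l)) := by
      intro j l
      refine Iff.of_eq (congrArg Y ?_)
      funext l'
      refine Fin.cases ?_ (fun l' => ?_) l'
      · rfl
      · have hl : l' = (0 : Fin 1) := Subsingleton.elim (α := Fin 1) l' 0
        rw [hl]
        rfl
    have h0 : ∀ Q, A 0 Q ↔ Q = sel 0 := hA 0 (by omega)
    have h01 : ∀ Q, A 1 Q ↔ Q = sel 1 := hA 1 (by change 1 < 0 + 2; omega)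
    constructor
    · intro H
      have H2 : ∀ j : Fin q, ∃ l : Fin q, h ∧
          Y (Fin.cons (α := fun _ => Fin p × Fin q) (sel 0, j) fun _ => (sel 1, l)) := by
        intro j
        obtain ⟨x₂, hx₂⟩ := H (Sum.inr (sel 0, j))
        rcases x₂ with γ | ⟨Q', l⟩
        · exact absurd rfl (hx₂ (sel 0) ((h0 _).2 rfl))
        · obtain ⟨h1, h2, h3⟩ := hx₂
          have hQ' : sel 1 = Q' := h2 (sel 1) ((h01 _).2 rfl)
          subst hQ'
          exact ⟨l, h1, h3⟩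
      refine ⟨fun γ => ?_, ?_, fun j => ?_⟩
      · obtain ⟨x₂, hx₂⟩ := H (Sum.inl γ)
        exact ⟨_, hx₂⟩
      · obtain ⟨l, h1, -⟩ := H2 ⟨0, hq⟩
        exact h1
      · obtain ⟨l, -, h1⟩ := H2 j
        exact ⟨l, (hY j l).2 h1⟩
    · rintro ⟨H1, H2, H3⟩ (γ | ⟨Q, j⟩)
      · obtain ⟨β, hβ⟩ := H1 γ
        obtain ⟨x₂, rfl⟩ := hbl β
        exact ⟨x₂, hβ⟩
      · by_cases hQ : Q = sel 0
        · subst hQ
          obtain ⟨l, hl⟩ := H3 j
          exact ⟨Sum.inr (sel 1, l), H2, fun Q hQ => (h01 Q).1 hQ, (hY j l).1 hl⟩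
        · refine ⟨Sum.inl hΓ.some, fun Q' hQ' => ?_⟩
          rw [(h0 Q').1 hQ']
          exact fun h' => hQ h'.symm
  | r + 1, g, A, h, Y, sel, hA => by
    change (∀ x : Γ ⊕ (Fin p × Fin q), ∃ x₂ : Γ ⊕ (Fin p × Fin q),
      AltX (Γ ⊕ (Fin p × Fin q)) (lv r + 2) true fun i => mO bl (r + 1) g A h Y
        (Fin.cons (α := fun _ => Γ ⊕ (Fin p × Fin q)) x
          (Fin.cons (α := fun _ => Γ ⊕ (Fin p × Fin q)) x₂ i))) ↔ (∀ γ, ∃ β, g γ β) ∧ h ∧
      ∀ j : Fin q, ∃ l : Fin q, Alt q (lv r + 2) true fun i => Y fun l' : Fin (lv r + 4) =>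
        (sel l'.val, (Fin.cons (α := fun _ => Fin q) j (Fin.cons (α := fun _ => Fin q) l i) :
          Fin (lv r + 4) → Fin q) l')
    have hcst : ∀ (Q : Prop), (AltX (Γ ⊕ (Fin p × Fin q)) (lv r + 2) true fun _ => Q) ↔ Q :=
      fun Q => AltX_const (Sum.inl hΓ.some) _ _ Q
    have h1 : ∀ γ x₂, (AltX (Γ ⊕ (Fin p × Fin q)) (lv r + 2) true fun i => mO bl (r + 1) g A h Y
        (Fin.cons (α := fun _ => Γ ⊕ (Fin p × Fin q)) (Sum.inl γ)
          (Fin.cons (α := fun _ => Γ ⊕ (Fin p × Fin q)) x₂ i))) ↔ g γ (bl x₂) :=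
      fun γ x₂ => hcst (g γ (bl x₂))
    have h2 : ∀ c γ, (AltX (Γ ⊕ (Fin p × Fin q)) (lv r + 2) true fun i => mO bl (r + 1) g A h Y
        (Fin.cons (α := fun _ => Γ ⊕ (Fin p × Fin q)) (Sum.inr c)
          (Fin.cons (α := fun _ => Γ ⊕ (Fin p × Fin q)) (Sum.inl γ) i))) ↔
          ∀ Q, A 0 Q → Q ≠ c.1 :=
      fun c γ => hcst (∀ Q, A 0 Q → Q ≠ c.1)
    have h3 : ∀ c c', (AltX (Γ ⊕ (Fin p × Fin q)) (lv r + 2) true fun i => mO bl (r + 1) g A h Y
        (Fin.cons (α := fun _ => Γ ⊕ (Fin p × Fin q)) (Sum.inr c)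
          (Fin.cons (α := fun _ => Γ ⊕ (Fin p × Fin q)) (Sum.inr c') i))) ↔
        (∀ _ : Γ, ∃ _ : Bool, True) ∧ (h ∧ ∀ Q, A 1 Q → Q = c'.1) ∧
          Alt q (lv r + 2) true fun i => Y (Fin.cons (α := fun _ => Fin p × Fin q) c
          (Fin.cons (α := fun _ => Fin p × Fin q) c' fun l => (sel (l.val + 2), i l))) := by
      intro c c'
      exact mO_alt bl hbl hΓ hq r (fun _ _ => True) (fun j => A (j + 2))
        (h ∧ ∀ Q, A 1 Q → Q = c'.1) (fun w => Y (Fin.cons (α := fun _ => Fin p × Fin q) c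
          (Fin.cons (α := fun _ => Fin p × Fin q) c' w))) (fun j => sel (j + 2))
        (fun j hj Q => hA (j + 2) (by change j + 2 < lv r + 2 + 2; omega) Q)
    have hcons : ∀ (j l : Fin q) (i : Fin (lv r + 2) → Fin q),
        (fun l' : Fin (lv r + 4) => (sel l'.val, (Fin.cons (α := fun _ => Fin q) j
          (Fin.cons (α := fun _ => Fin q) l i) : Fin (lv r + 4) → Fin q) l')) =
        (Fin.cons (α := fun _ => Fin p × Fin q) (sel 0, j)
          (Fin.cons (α := fun _ => Fin p × Fin q) (sel 1, l)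
            fun l => (sel (l.val + 2), i l)) : Fin (lv r + 4) → Fin p × Fin q) := by
      intro j l i
      funext l'
      refine Fin.cases ?_ (fun l' => ?_) l'
      · rfl
      · refine Fin.cases ?_ (fun l' => ?_) l'
        · rfl
        · rfl
    have h0 : ∀ Q, A 0 Q ↔ Q = sel 0 := hA 0 (by omega)
    have h01 : ∀ Q, A 1 Q ↔ Q = sel 1 := hA 1 (by change 1 < lv r + 2 + 2; omega)
    constructor
    · intro H
      have H2 : ∀ j : Fin q, ∃ l : Fin q, h ∧ Alt q (lv r + 2) true fun i =>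
          Y (Fin.cons (α := fun _ => Fin p × Fin q) (sel 0, j)
          (Fin.cons (α := fun _ => Fin p × Fin q) (sel 1, l) fun l => (sel (l.val + 2), i l))) := by
        intro j
        obtain ⟨x₂, hx₂⟩ := H (Sum.inr (sel 0, j))
        rcases x₂ with γ | ⟨Q', l⟩
        · exact absurd rfl ((h2 _ γ).1 hx₂ (sel 0) ((h0 _).2 rfl))
        · obtain ⟨-, ⟨h4, h5⟩, h6⟩ := (h3 _ _).1 hx₂
          have hQ' : sel 1 = Q' := h5 (sel 1) ((h01 _).2 rfl)
          subst hQ'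
          exact ⟨l, h4, h6⟩
      refine ⟨fun γ => ?_, ?_, fun j => ?_⟩
      · obtain ⟨x₂, hx₂⟩ := H (Sum.inl γ)
        exact ⟨_, (h1 γ x₂).1 hx₂⟩
      · obtain ⟨l, h4, -⟩ := H2 ⟨0, hq⟩
        exact h4
      · obtain ⟨l, -, h4⟩ := H2 j
        refine ⟨l, ?_⟩
        simp only [hcons]
        exact h4
    · rintro ⟨H1, H2, H3⟩ (γ | ⟨Q, j⟩)
      · obtain ⟨β, hβ⟩ := H1 γ
        obtain ⟨x₂, rfl⟩ := hbl β
        exact ⟨x₂, (h1 γ x₂).2 hβ⟩
      · by_cases hQ : Q = sel 0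
        · subst hQ
          obtain ⟨l, hl⟩ := H3 j
          simp only [hcons] at hl
          exact ⟨Sum.inr (sel 1, l), (h3 _ _).2 ⟨fun _ => ⟨true, trivial⟩,
            ⟨H2, fun Q hQ => (h01 Q).1 hQ⟩, hl⟩⟩
        · refine ⟨Sum.inl hΓ.some, (h2 _ _).2 fun Q' hQ' => ?_⟩
          rw [(h0 Q').1 hQ']
          exact fun h' => hQ h'.symm

theorem mO_gadget (bl : Γ ⊕ (Fin p × Fin q) → Bool) (hΓ : Nonempty Γ) : ∀ (r : ℕ)
    (g : Γ → Bool → Prop) (A : ℕ → Fin p → Prop)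
    (h : Prop) (Y : (Fin (lv r + 2) → Fin p × Fin q) → Prop),
    AltX (Γ ⊕ (Fin p × Fin q)) (lv r + 2) true (mO bl r g A h Y) → ∀ γ, ∃ β, g γ β
  | 0, g, _, _, _, H, γ => by
    obtain ⟨x₂, hx₂⟩ := (H (Sum.inl γ) : ∃ x₂ : Γ ⊕ (Fin p × Fin q), g γ (bl x₂))
    exact ⟨_, hx₂⟩
  | r + 1, g, A, h, Y, H, γ => by
    obtain ⟨x₂, hx₂⟩ := (H (Sum.inl γ) : ∃ x₂ : Γ ⊕ (Fin p × Fin q),
      AltX (Γ ⊕ (Fin p × Fin q)) (lv r + 2) true fun _ => g γ (bl x₂))
    exact ⟨bl x₂, (AltX_const (X := Γ ⊕ (Fin p × Fin q)) (Sum.inl hΓ.some) (lv r + 2) true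
      (g γ (bl x₂))).1 hx₂⟩

end odd

end Pool.Agent.T9h75.WX
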