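import Pool.Agent.T9h75.WX.OModel
import Pool.Agent.T9h75.WX.Chain
import Pool.Agent.T9h75.WX.HardE
import Pool.Agent.T9h75.WH.DomTrade

set_option autoImplicit false
set_option linter.unusedSectionVars false

namespace Pool.Agent.T9h75.WX

open Finset Pool.Agent.T9h16 Pool.Agent.T9h75.WT
open Pool.Agent.T9h75.WH (outGraph HasDomSet edgeInput Emb asym BV HS embS splitGraph incA AU BU
  hasDomSet_comap domSet_split card_split exists_root not_HS_empty)
open scoped Classical

section conv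
variable {α : Type}

/-- The sets of wires read for the possible cliques. -/
noncomputable def cliqueSets (g N : ℕ) (w : Fin N × Fin N → Wire α) : Set (Finset (Wire α)) :=
  {U | ∃ S : Finset (Fin N), S.card = g ∧
    U = ((S ×ˢ S).filter fun p => p.1 < p.2).image w}

theorem card_cliqueSets {g N : ℕ} {w : Fin N × Fin N → Wire α} {U : Finset (Wire α)}
    (hU : U ∈ cliqueSets g N w) : U.card ≤ g * g := by
  obtain ⟨S, hS, rfl⟩ := hU
  refine card_image_le.trans ((card_filter_le _ _).trans ?_)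
  rw [card_product, hS]

theorem clique_iff (g N : ℕ) (w : Fin N × Fin N → Wire α) (P : Wire α → Prop) :
    (∃ S : Finset (Fin N), (outGraph fun p => P (w p)).IsNClique g S) ↔
      ∃ U ∈ cliqueSets g N w, ∀ u ∈ U, P u := by
  constructor
  · rintro ⟨S, hS⟩
    refine ⟨_, ⟨S, hS.card_eq, rfl⟩, ?_⟩
    intro u hu
    rw [mem_image] at hu
    obtain ⟨⟨a, b⟩, hab, rfl⟩ := hu
    rw [mem_filter, mem_product] at hab
    obtain ⟨⟨ha, hb⟩, hlt⟩ := hab
    have hlt' : a < b := hlt
    rcases hS.isClique ha hb (ne_of_lt hlt') with h | h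
    · exact h.2
    · exact absurd h.1 (not_lt.2 hlt'.le)
  · rintro ⟨U, ⟨S, hS, rfl⟩, h⟩
    have h1 : ∀ a ∈ S, ∀ b ∈ S, a < b → P (w (a, b)) := by
      intro a ha b hb hab
      exact h _ (mem_image_of_mem _ (mem_filter.2 ⟨mem_product.2 ⟨ha, hb⟩, hab⟩))
    refine ⟨S, ⟨fun a ha b hb hab => ?_, hS⟩⟩
    rcases lt_or_gt_of_ne hab with h2 | h2
    · exact Or.inl ⟨h2, h1 a ha b hb h2⟩
    · exact Or.inr ⟨h2, h1 b hb a ha h2⟩

/-- Replacing oracle gates by ORs of ANDs. -/
noncomputable def OGate.toGate : OGate α → Gate α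
  | .cnf F => .cnf F
  | .dnf F => .dnf F
  | .not u => .not u
  | .clique g N w => .dnf (cliqueSets g N w)

theorem OGate.toGate_value (x : α → Prop) (vs : List Prop) (g : OGate α) :
    g.toGate.value x vs ↔ g.value x vs := by
  cases g with
  | cnf F => exact Iff.rfl
  | dnf F => exact Iff.rfl
  | not u => exact Iff.rfl
  | clique g N w => exact (clique_iff g N w fun u => u.value x vs).symm

theorem run_toGate (x : α → Prop) (gs : List (OGate α)) : ∀ vs,
    run x (gs.map OGate.toGate) vs = orun x gs vs := by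
  induction gs with
  | nil => intro vs; rfl
  | cons g gs ih =>
    intro vs
    rw [List.map_cons, run, orun, ih, propext (OGate.toGate_value x vs g)]

/-- The circuit without oracle gates. -/
noncomputable def OCircuit.toCircuit (C : OCircuit α) : Circuit α Unit :=
  ⟨C.gates.map OGate.toGate, fun _ => C.out⟩

theorem OCircuit.eval_toCircuit (C : OCircuit α) (x : α → Prop) :
    C.toCircuit.eval x () ↔ C.eval x := by
  unfold OCircuit.toCircuit Circuit.eval OCircuit.eval
  rw [run_toGate]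

theorem OCircuit.size_toCircuit (C : OCircuit α) : C.toCircuit.size = C.size := by
  unfold OCircuit.toCircuit Circuit.size OCircuit.size
  rw [List.length_map]

theorem OCircuit.nots_toCircuit (C : OCircuit α) : C.toCircuit.nots = C.nots := by
  unfold OCircuit.toCircuit Circuit.nots OCircuit.nots
  rw [List.countP_map]
  congr 1
  funext g
  cases g <;> rfl

theorem OCircuit.width_toCircuit {h : ℕ} (C : OCircuit α) (hC : C.Width h) :
    C.toCircuit.Width (h * h) := by
  have hh : h ≤ h * h := Nat.le_mul_self h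
  intro G hG
  unfold OCircuit.toCircuit at hG
  rw [List.mem_map] at hG
  obtain ⟨g, hg, rfl⟩ := hG
  have hw := hC g hg
  cases g with
  | cnf F => exact fun U hU => (hw U hU).trans hh
  | dnf F => exact fun U hU => (hw U hU).trans hh
  | not u => trivial
  | clique g N w =>
    intro U hU
    exact (card_cliqueSets hU).trans (Nat.mul_le_mul hw hw)

end conv

/-- Hardness for decision circuits. -/
theorem hard_dec (k δ : ℕ) (hk : 1 ≤ k) (hδ : 1 ≤ δ) : ∃ K, ∀ q ≥ K, ∀ s, K * s ≤ q ^ k →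
    Hard δ (TT (q := q) (GE (k := k) (w := q)) 0) s (fun v : Unit → Prop => v ()) := by
  obtain ⟨K, hK⟩ := hard_even k 1 0 δ hk le_rfl hδ
  obtain ⟨A₀, hA₀⟩ := asym 4 k 1 8
  refine ⟨K + A₀ + 1, fun q hq s hs => ?_⟩
  have hq1 : 1 ≤ q := by omega
  obtain ⟨L, hL⟩ : ∃ L, L = Nat.clog 2 (q + 1) := ⟨_, rfl⟩
  have hqL : q ≤ 2 ^ L := by
    have := Nat.le_pow_clog (b := 2) (by norm_num) (q + 1)
    rw [hL]
    omega
  have h8 := hA₀ q (by omega)
  rw [← hL, pow_one] at h8
  have hsq : s ≤ q ^ k := by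
    refine le_trans ?_ hs
    exact Nat.le_mul_of_pos_left _ (by omega)
  have hqk : 1 ≤ q ^ k := Nat.one_le_pow _ _ hq1
  refine hK q (by omega) s ?_ 1 (s + 1) (4 + k * L) (by norm_num) (by omega) ?_ h8 Unit Unit
    (fun _ v => () ∈ v) ?_ ?_ _ ?_
  · exact (Nat.mul_le_mul_right _ (by omega)).trans hs
  · have h1 : q ^ k ≤ 2 ^ (k * L) := by
      rw [mul_comm k L, pow_mul]
      exact Nat.pow_le_pow_left hqL _
    have h2 : 2 ^ (4 + k * L) = 16 * 2 ^ (k * L) := by rw [pow_add]; norm_num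
    rw [h2]
    generalize 2 ^ (k * L) = Z at *
    omega
  · intro ψ
    exact ⟨{()}, by simp, fun v => ⟨fun h _ _ => h, fun h => h () (mem_singleton_self ())⟩⟩
  · rw [Fintype.card_unit]
    omega
  · intro v
    exact ⟨fun h => ⟨(), h⟩, fun ⟨_, h⟩ => h⟩

section dom
variable {p p' k q d : ℕ}

/-- Renaming the variables of a block. -/
def cv (z : Set (DC q 0 × (Fin k × Fin q))) : Set (BV k q q) := {b | (b.2.2, (b.1, b.2.1)) ∈ z}

theorem HS_cv (z : Set (DC q 0 × (Fin k × Fin q))) : HS (cv z) ↔ TT GE 0 z := Iff.rfl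

/-- Writing `p * p'` blocks into the dominating set problem. -/
noncomputable def embT {n : ℕ} (e : (AU p p' k q ⊕ BU p p' k q d) ≃ Fin n) :
    Emb (Fin n × Fin n) (Fin p × Fin p') (DC q 0 × (Fin k × Fin q)) where
  X := fun y => (embS e).X fun i => cv (y i)
  mono := by
    intro y y' h a
    exact (embS e).mono _ _ (fun i b hb => h i hb) a
  leaf := by
    intro a
    rcases (embS e).leaf a with ⟨t, ht⟩ | ⟨i, b, hb⟩
    · exact Or.inl ⟨t, fun y => ht _⟩
    · exact Or.inr ⟨i, (b.2.2, (b.1, b.2.1)), fun y => hb _⟩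

end dom

/-- The trade-off for a given block size. -/
theorem turing_block (k δ : ℕ) (hk : 1 ≤ k) (hδ : 1 ≤ δ) : ∃ K, ∀ q ≥ K, ∀ n ≥ K * q,
    ∀ C : OCircuit (Fin n × Fin n), C.Width δ → K * C.size ≤ q ^ k → C.DecidesDomSet (k + 1) →
      n ^ 2 < (K * q) ^ 2 * 2 ^ C.nots := by
  obtain ⟨K₀, hK₀⟩ := hard_dec k (δ * δ) hk (Nat.mul_pos hδ hδ)
  obtain ⟨B, hB⟩ : ∃ B, B = 8 * k := ⟨_, rfl⟩
  obtain ⟨K, hK⟩ : ∃ K, K = K₀ + B + 2 * ((k + 1) * (k + 2)) + 1 := ⟨_, rfl⟩
  refine ⟨K, fun q hq n hn C hw hC hred => ?_⟩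
  have hq1 : 1 ≤ q := by omega
  obtain ⟨p, hp⟩ : ∃ p, p = (n - (k + 1) * (k + 2)) / (4 * k * q) := ⟨_, rfl⟩
  have h4 : 0 < 4 * k * q := by positivity
  have hp1 : 4 * k * q * p ≤ n - (k + 1) * (k + 2) := by rw [hp]; exact Nat.mul_div_le _ _
  have hp2 : n - (k + 1) * (k + 2) < 4 * k * q * (p + 1) := by
    rw [hp]
    exact Nat.lt_mul_div_succ _ h4
  have hn1 : K ≤ n := by nlinarith
  have hn3 : B * q + 2 * ((k + 1) * (k + 2)) ≤ n := by
    have : (B + 2 * ((k + 1) * (k + 2))) * q ≤ K * q := Nat.mul_le_mul_right _ (by omega)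
    nlinarith [Nat.zero_le (2 * ((k + 1) * (k + 2)))]
  have hpB : n ≤ B * q * p := by
    have h1 : B * q * p = 2 * (4 * k * q * p) := by rw [hB]; ring
    have h2 : 4 * k * q * (p + 1) = 4 * k * q * p + 4 * k * q := by ring
    have h3 : B * q = 2 * (4 * k * q) := by rw [hB]; ring
    omega
  have hcardle : (p * (k * q) + p) + (p * q + (k * (k + 2) + ((k + 2) + k * p))) ≤ n := by
    have h1 : p * (k * q) + p + p * q + k * p ≤ 4 * k * q * p := by
      have e1 : p ≤ k * q * p := Nat.le_mul_of_pos_left _ (by positivity)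
      have e2 : p * q ≤ k * q * p := by
        calc p * q = q * p := mul_comm _ _
          _ ≤ k * (q * p) := Nat.le_mul_of_pos_left _ hk
          _ = k * q * p := by ring
      have e3 : k * p ≤ k * q * p := by
        calc k * p ≤ q * (k * p) := Nat.le_mul_of_pos_left _ hq1
          _ = k * q * p := by ring
      have e4 : p * (k * q) = k * q * p := by ring
      have e5 : 4 * k * q * p = 4 * (k * q * p) := by ring
      omega
    have h2 : k * (k + 2) + (k + 2) = (k + 1) * (k + 2) := by ring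
    omega
  obtain ⟨d, hd⟩ := Nat.exists_eq_add_of_le hcardle
  have hcard : Fintype.card (AU p p k q ⊕ BU p p k q d) = Fintype.card (Fin n) := by
    rw [card_split, Fintype.card_fin, hd]
    ring
  obtain e := Fintype.equivOfCardEq hcard
  have hT0 : ¬ TT (q := q) (GE (k := k) (w := q)) 0 ∅ :=
    not_TT_empty (fun φ ⟨x, hx⟩ => hx) hq1 0
  have h := chain_count (ι := Fin p × Fin p) hT0 C.toCircuit (C.width_toCircuit hw)
    (by
      rw [C.size_toCircuit]
      exact hK₀ q (by omega) C.size (le_trans (Nat.mul_le_mul_right _ (by omega)) hC)) (embT e) (by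
      intro y
      have h1 := hred ((splitGraph (incA fun i => cv (y i))).comap e.symm)
      rw [hasDomSet_comap, domSet_split hk] at h1
      exact (C.eval_toCircuit _).trans h1)
  rw [Fintype.card_prod, Fintype.card_fin, C.nots_toCircuit] at h
  calc n ^ 2 ≤ (B * q * p) ^ 2 := Nat.pow_le_pow_left hpB _
    _ = (B * q) ^ 2 * (p * p) := by ring
    _ < (B * q) ^ 2 * 2 ^ C.nots := by
        apply Nat.mul_lt_mul_of_pos_left _ (Nat.pow_pos (Nat.mul_pos (by omega) hq1))
        omega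
    _ ≤ (K * q) ^ 2 * 2 ^ C.nots := by
        apply Nat.mul_le_mul_right
        apply Nat.pow_le_pow_left
        exact Nat.mul_le_mul_right _ (by omega)

theorem OCircuit.nots_le_size {α : Type} (C : OCircuit α) : C.nots ≤ C.size :=
  List.countP_le_length

theorem OGate.Width.mono {α : Type} {h h' : ℕ} (hh : h ≤ h') {G : OGate α} (hG : G.Width h) :
    G.Width h' := by
  cases G with
  | cnf F => exact fun U hU => (hG U hU).trans hh
  | dnf F => exact fun U hU => (hG U hU).trans hh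
  | not u => trivial
  | clique g N w => exact le_trans hG hh

/-- The trade-off between the number of gates and the number of NOT gates. -/
theorem turing_tradeoff (k δ : ℕ) (hk : 1 ≤ k) : ∃ K, ∀ n ≥ K,
    ∀ C : OCircuit (Fin n × Fin n), C.Width δ → C.DecidesDomSet (k + 1) →
      n ^ (2 * k) < K * C.size ^ 2 * 2 ^ (k * C.nots) := by
  obtain ⟨K₁, hK₁⟩ := turing_block k (max δ 1) hk (le_max_right _ _)
  obtain ⟨K₂, hK₂⟩ : ∃ K₂, K₂ = K₁ ^ k + 2 ^ k * K₁ + 1 := ⟨_, rfl⟩
  obtain ⟨K, hK⟩ : ∃ K, K = K₁ ^ (2 * k) * K₂ ^ 2 + K₁ * K₁ + 1 := ⟨_, rfl⟩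
  refine ⟨K, fun n hn C hw' hred => ?_⟩
  have hw : C.Width (max δ 1) := fun G hG => (hw' G hG).mono (le_max_left _ _)
  rcases Nat.eq_zero_or_pos C.size with h0 | h0
  · exfalso
    have h1 : C.nots = 0 := by have := C.nots_le_size; omega
    have h2 := hK₁ K₁ le_rfl n (by omega) C hw (by rw [h0]; simp) hred
    rw [h1, pow_zero, mul_one] at h2
    have h3 : K₁ * K₁ ≤ n := by omega
    have h4 := Nat.pow_le_pow_left h3 2
    omega
  · obtain ⟨q, hq, hq1, hq2⟩ := exists_root k K₁ C.size hk h0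
    rw [← hK₂] at hq2
    have hqk : (q ^ k) ^ 2 ≤ (K₂ * C.size) ^ 2 := Nat.pow_le_pow_left hq2 2
    have hpos : 0 < 2 ^ (k * C.nots) := by positivity
    have hsz : 0 < C.size ^ 2 := by positivity
    have hfin : K₁ ^ (2 * k) * (q ^ k) ^ 2 < K * C.size ^ 2 := by
      calc K₁ ^ (2 * k) * (q ^ k) ^ 2 ≤ K₁ ^ (2 * k) * (K₂ * C.size) ^ 2 :=
            Nat.mul_le_mul_left _ hqk
        _ = (K₁ ^ (2 * k) * K₂ ^ 2) * C.size ^ 2 := by ring
        _ < K * C.size ^ 2 := Nat.mul_lt_mul_of_pos_right (by omega) hsz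
    rcases Nat.lt_or_ge n (K₁ * q) with h | h
    · calc n ^ (2 * k) ≤ (K₁ * q) ^ (2 * k) := Nat.pow_le_pow_left h.le _
        _ = K₁ ^ (2 * k) * (q ^ k) ^ 2 := by rw [mul_pow, ← pow_mul, mul_comm k 2]
        _ < K * C.size ^ 2 := hfin
        _ ≤ K * C.size ^ 2 * 2 ^ (k * C.nots) := Nat.le_mul_of_pos_right _ hpos
    · have h2 := hK₁ q hq n h C hw hq1 hred
      calc n ^ (2 * k) = (n ^ 2) ^ k := by rw [pow_mul]
        _ ≤ ((K₁ * q) ^ 2 * 2 ^ C.nots) ^ k := Nat.pow_le_pow_left h2.le _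
        _ = K₁ ^ (2 * k) * (q ^ k) ^ 2 * 2 ^ (k * C.nots) := by
            rw [mul_pow, ← pow_mul, ← pow_mul, mul_pow, ← pow_mul, mul_comm C.nots k, mul_comm k 2]
        _ < K * C.size ^ 2 * 2 ^ (k * C.nots) := Nat.mul_lt_mul_of_pos_right hfin hpos

end Pool.Agent.T9h75.WX
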